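import Mathlib

set_option autoImplicit false

/-!
# Definitions: Ramsey numbers, `K_3`-good graphs and the functions `g`, `e_1`, `e_2`
-/

open Finset SimpleGraph

namespace Pool.Agent.R70.KG

/-- The Ramsey number `r(F, G)`: least `N` such that every red/blue colouring of `K_N` (red edges `R`,
blue edges `Rᶜ`) has a red copy of `F` or a blue copy of `G`. -/
noncomputable def ramseyNum {α β : Type} (F : SimpleGraph α) (G : SimpleGraph β) : ℕ :=
  sInf {N : ℕ | ∀ R : SimpleGraph (Fin N), F ⊑ R ∨ G ⊑ Rᶜ}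

/-- the triangle -/
def triangle : SimpleGraph (Fin 3) := ⊤

/-- `G` is a connected `K_3`-good graph on `n` vertices -/
def K3Good {n : ℕ} (G : SimpleGraph (Fin n)) : Prop :=
  G.Connected ∧ ramseyNum triangle G = 2 * n - 1

/-- `g(K_3, n)`: largest number of edges of a connected `K_3`-good graph on `n` vertices -/
noncomputable def gK3 (n : ℕ) : ℕ :=
  sSup {q : ℕ | ∃ G : SimpleGraph (Fin n), K3Good G ∧ G.edgeSet.ncard = q}

/-- the disjoint union of complete graphs of orders `s i` -/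
def cliqueUnion {ι : Type} (s : ι → ℕ) : SimpleGraph (Σ i : ι, Fin (s i)) where
  Adj x y := x ≠ y ∧ x.1 = y.1
  symm := ⟨fun _ _ h => ⟨h.1.symm, h.2.symm⟩⟩
  loopless := ⟨fun _ h => h.1 rfl⟩

/-- `e_1(n)` -/
noncomputable def e1 (n : ℕ) : ℕ :=
  n - 1 + sSup {q : ℕ | ∃ t s : ℕ, 1 ≤ t ∧ 1 ≤ s ∧
    ramseyNum triangle (cliqueUnion (fun _ : Fin t => s)) ≤ n - 1 ∧ q = t * s.choose 2}

/-- `e_2(n)` -/
noncomputable def e2 (n : ℕ) : ℕ :=
  n - 1 + sSup {q : ℕ | ∃ (t : ℕ) (s : Fin t → ℕ), 1 ≤ t ∧ (∀ i, 1 ≤ s i) ∧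
    ramseyNum triangle (cliqueUnion s) ≤ n - 1 ∧ q = ∑ i, (s i).choose 2}

end Pool.Agent.R70.KG
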