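import Pool.Agent.R70.KG.Improve

set_option autoImplicit false

/-! # Comparison of `g(K_3, n)` with `e_1(n)` and `e_2(n)` -/

open Finset SimpleGraph

namespace Pool.Agent.R70.KG

/-! ### The two special orders -/

/-- `K_4` minus an edge -/
def G4 : SimpleGraph (Fin 4) :=
  SimpleGraph.fromRel (fun i j => ((i : ℕ), (j : ℕ)) ∈ P6)

instance : DecidableRel G4.Adj := fun i j => by
  unfold G4 SimpleGraph.fromRel; infer_instance

lemma G4_edges : G4.edgeSet.ncard = 5 := by
  rw [← SimpleGraph.coe_edgeFinset, Set.ncard_coe_finset]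
  decide +kernel

lemma G4_conn : G4.Connected := by
  rw [SimpleGraph.connected_iff_exists_forall_reachable]
  refine ⟨0, ?_⟩
  intro w
  by_cases hw : w = 0
  · subst hw; exact SimpleGraph.Reachable.refl _
  · apply SimpleGraph.Adj.reachable
    revert hw
    revert w
    decide +kernel

lemma G4_good : K3Good G4 := by
  apply good_of (by norm_num) G4 G4_conn
  intro R hR
  obtain ⟨A0, hA0, hc, hI⟩ := triple_six hR (T := (univ : Finset (Fin (2 * 4 - 1))))
    (by rw [Finset.card_univ, Fintype.card_fin]; norm_num)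
  obtain ⟨w, hw, _, hP⟩ := tree_apply R hR univ A0 hA0 hI 7 4 P6 B3 tr6
    (by rw [Finset.card_univ, Fintype.card_fin]) (by norm_num) (by rw [hc]; decide) c6
  refine ⟨⟨⟨w, ?_⟩, hw⟩⟩
  intro x y hxy
  rw [SimpleGraph.compl_adj]
  refine ⟨fun h => hxy.ne (hw h), ?_⟩
  unfold G4 at hxy
  rw [SimpleGraph.fromRel_adj] at hxy
  rcases hxy.2 with h | h
  · exact hP _ h x.2 y.2
  · exact fun h' => hP _ h y.2 x.2 h'.symm

/-- the pattern of order six shifted by one -/
def P5s : List (ℕ × ℕ) := P5.map (fun e => (e.1 + 1, e.2 + 1))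

/-- the special graph of order seven -/
def G7 : SimpleGraph (Fin 7) :=
  SimpleGraph.fromRel (fun i j => i = 0 ∨ ((i : ℕ), (j : ℕ)) ∈ P5s)

instance : DecidableRel G7.Adj := fun i j => by
  unfold G7 SimpleGraph.fromRel; infer_instance

lemma G7_edges : G7.edgeSet.ncard = 11 := by
  rw [← SimpleGraph.coe_edgeFinset, Set.ncard_coe_finset]
  decide +kernel

lemma G7_conn : G7.Connected := by
  rw [SimpleGraph.connected_iff_exists_forall_reachable]
  refine ⟨0, ?_⟩
  intro w
  by_cases hw : w = 0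
  · subst hw; exact SimpleGraph.Reachable.refl _
  · apply SimpleGraph.Adj.reachable
    revert hw
    revert w
    decide +kernel

lemma G7_good : K3Good G7 := by
  apply good_of (by norm_num) G7 G7_conn
  intro R hR
  rcases host1 (n := 7) (by norm_num) R hR with ⟨S, hS, hI⟩ | ⟨v, T, hT, _, hv⟩
  · exact contained_of_ind G7 (by rw [hS, Fintype.card_fin]) hI
  obtain ⟨A0, hA0, hc, hI⟩ := triple_six hR (T := T) (by omega)
  obtain ⟨w, hw, hwT, hP⟩ := tree_apply R hR T A0 hA0 hI 7 6 P5 B3 tr5
    hT (by norm_num) (by rw [hc]; decide) c5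
  let f : Fin 7 → Fin (2 * 7 - 1) := Fin.cons v w
  have f0 : f 0 = v := rfl
  have fs : ∀ i : Fin 6, f i.succ = w i := fun i => rfl
  have hfinj : Function.Injective f := by
    intro x y hxy
    rcases Fin.eq_zero_or_eq_succ x with hx | ⟨x', hx⟩ <;>
      rcases Fin.eq_zero_or_eq_succ y with hy | ⟨y', hy⟩
    · rw [hx, hy]
    · rw [hx, hy, f0, fs] at hxy
      exact absurd hxy (hv _ (hwT y')).1
    · rw [hx, hy, f0, fs] at hxy
      exact absurd hxy.symm (hv _ (hwT x')).1
    · rw [hx, hy, fs, fs] at hxy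
      rw [hx, hy, hw hxy]
  refine ⟨⟨⟨f, ?_⟩, hfinj⟩⟩
  intro x y hxy
  rw [SimpleGraph.compl_adj]
  refine ⟨fun h => hxy.ne (hfinj h), ?_⟩
  have key : ∀ a b : Fin 6, ((a : ℕ) + 1, (b : ℕ) + 1) ∈ P5s → ¬ R.Adj (w a) (w b) := by
    intro a b hab
    unfold P5s at hab
    rw [List.mem_map] at hab
    obtain ⟨e, he, hab⟩ := hab
    rw [Prod.mk.injEq] at hab
    have e1 : e.1 = a := by omega
    have e2 : e.2 = b := by omega
    have h1 := hP e he (by rw [e1]; exact a.2) (by rw [e2]; exact b.2)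
    have g1 : (⟨e.1, by rw [e1]; exact a.2⟩ : Fin 6) = a := Fin.ext e1
    have g2 : (⟨e.2, by rw [e2]; exact b.2⟩ : Fin 6) = b := Fin.ext e2
    rw [g1, g2] at h1
    exact h1
  unfold G7 at hxy
  rw [SimpleGraph.fromRel_adj] at hxy
  rcases Fin.eq_zero_or_eq_succ x with hx | ⟨x', hx⟩ <;>
    rcases Fin.eq_zero_or_eq_succ y with hy | ⟨y', hy⟩
  · exact absurd (hx.trans hy.symm) hxy.1
  · rw [hx, hy]
    exact (hv _ (hwT y')).2
  · rw [hx, hy]
    exact fun h => (hv _ (hwT x')).2 h.symm
  · rw [hx, hy]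
    show ¬ R.Adj (w x') (w y')
    rw [hx, hy] at hxy
    rcases hxy.2 with h | h
    · rcases h with h | h
      · exact absurd h (Fin.succ_ne_zero _)
      · exact key x' y' h
    · rcases h with h | h
      · exact absurd h (Fin.succ_ne_zero _)
      · exact fun h' => key y' x' h h'.symm

/-- the heptagon -/
def C7 : SimpleGraph (Fin 7) := SimpleGraph.fromRel (fun i j => i + 1 = j)

instance : DecidableRel C7.Adj := fun i j => by
  unfold C7 SimpleGraph.fromRel; infer_instance

lemma C7_tf : TF C7 := by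
  unfold TF
  decide +kernel

lemma C7_ind : ∀ A ∈ (univ : Finset (Fin 7)).powersetCard 4, ∃ x ∈ A, ∃ y ∈ A, C7.Adj x y := by
  decide +kernel

lemma no_seven {ι : Type} [Fintype ι] {s : ι → ℕ} (h : Arr 7 s) (k : ι) : s k ≠ 4 := by
  intro hk
  obtain ⟨A, hA, _⟩ := h (Fin 7) C7 univ C7_tf (by rw [Finset.card_univ, Fintype.card_fin])
  obtain ⟨_, hc, hI⟩ := hA k (Finset.mem_univ _)
  obtain ⟨x, hx, y, hy, hxy⟩ := C7_ind (A k)
    (Finset.mem_powersetCard.mpr ⟨Finset.subset_univ _, by rw [hc, hk]⟩)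
  exact hI x hx y hy hxy

/-! ### The improvement -/

theorem improve {n : ℕ} (hn : 4 ≤ n) {ι : Type} [Fintype ι] [DecidableEq ι] (s : ι → ℕ)
    (h1 : ∀ i, 1 ≤ s i) (hsum : ∑ i, s i = n - 1) (hA : Arr (n - 1) s) :
    ∃ G : SimpleGraph (Fin n), K3Good G ∧ n - 1 + ∑ i, (s i).choose 2 < G.edgeSet.ncard := by
  by_cases hones : ∃ i j, i ≠ j ∧ s i = 1 ∧ s j = 1
  · obtain ⟨i, j, hij, hi, hj⟩ := hones
    set s' : ι → ℕ := fun k => if k = i then 2 else if k = j then 0 else s k with hs'
    have si : s' i = 2 := by simp [hs']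
    have sj : s' j = 0 := by simp [hs', hij.symm]
    have so : ∀ k, k ∉ ({i, j} : Finset ι) → s' k = s k := by
      intro k hk
      rw [Finset.mem_insert, Finset.mem_singleton, not_or] at hk
      simp [hs', hk.1, hk.2]
    obtain ⟨G, hG, hq⟩ := mod_good hn hsum hA {i, j} so
      (by rw [Finset.sum_pair hij, Finset.sum_pair hij, si, sj, hi, hj]) n (Or.inl rfl) (by
        intro R T hR hT
        rw [Finset.sum_pair hij, hi, hj] at hT
        obtain ⟨A, hAT, hAc, hI⟩ := pair_three hR (T := T) (by omega)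
        exact packOn_two hij sj hAT (by rw [hAc, si]) hI)
    refine ⟨G, hG, ?_⟩
    rw [hq, ← Finset.sum_add_sum_compl {i, j} (fun i => (s i).choose 2),
      ← Finset.sum_add_sum_compl {i, j} (fun i => (s' i).choose 2), Finset.sum_pair hij,
      Finset.sum_pair hij, si, sj, hi, hj,
      Finset.sum_congr rfl (fun k hk => by rw [so k (Finset.mem_compl.mp hk)] :
        ∀ k ∈ ({i, j} : Finset ι)ᶜ, (s' k).choose 2 = (s k).choose 2)]
    simp only [Nat.choose_self]
    have : Nat.choose 1 2 = 0 := rfl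
    have : Nat.choose 0 2 = 0 := rfl
    omega
  · -- at most one block of size one
    push Not at hones
    have hone : ∃ i0, s i0 = 1 := by
      by_contra hno
      push Not at hno
      have h2 : ∀ i ∈ (univ : Finset ι), 2 ≤ s i := by
        intro i _
        have := h1 i
        have := hno i
        omega
      have hne : (univ : Finset ι).Nonempty := by
        by_contra h
        rw [Finset.not_nonempty_iff_eq_empty] at h
        rw [h] at hsum
        simp at hsum
        omega
      have := lower hA hne (m := 2) (by norm_num) h2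
      omega
    obtain ⟨i0, hi0⟩ := hone
    have h2 : ∀ i, i ≠ i0 → 2 ≤ s i := by
      intro i hi
      have := h1 i
      have := hones i i0 hi
      omega
    have e0 : ∀ f : ι → ℕ, ∑ i, f i = f i0 + ∑ i ∈ univ.erase i0, f i := fun f =>
      (Finset.add_sum_erase _ _ (Finset.mem_univ _)).symm
    have hsum0 : ∑ i ∈ univ.erase i0, s i = n - 2 := by
      have := e0 s
      omega
    have hne0 : (univ.erase i0).Nonempty := by
      by_contra h
      rw [Finset.not_nonempty_iff_eq_empty] at h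
      rw [h] at hsum0
      simp at hsum0
      omega
    have hj : ∃ j ∈ univ.erase i0, s j = 2 := by
      by_contra hno
      push Not at hno
      have := lower hA hne0 (m := 3) (by norm_num) (by
        intro i hi
        have := h2 i (Finset.ne_of_mem_erase hi)
        have := hno i hi
        omega)
      omega
    obtain ⟨j, hjm, hj⟩ := hj
    have hji0 : j ≠ i0 := Finset.ne_of_mem_erase hjm
    set J1 : Finset ι := (univ.erase i0).erase j with hJ1
    have e1 : ∀ f : ι → ℕ, ∑ i, f i = f i0 + (f j + ∑ i ∈ J1, f i) := by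
      intro f
      rw [e0 f, ← Finset.add_sum_erase _ _ hjm]
    have hsum1 : ∑ i ∈ J1, s i = n - 4 := by
      have := e1 s
      omega
    have hJ1m : ∀ i ∈ J1, i ≠ j ∧ i ≠ i0 := by
      intro i hi
      rw [hJ1, Finset.mem_erase, Finset.mem_erase] at hi
      exact ⟨hi.1, hi.2.1⟩
    rcases Nat.lt_or_ge 4 n with hn4 | hn4
    swap
    · -- the case n = 4
      have hn4' : n = 4 := by omega
      subst hn4'
      have hJe : J1 = ∅ := by
        by_contra hne
        obtain ⟨i, hi⟩ := Finset.nonempty_iff_ne_empty.mpr hne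
        have h3 := Finset.single_le_sum (fun _ _ => Nat.zero_le _) hi (f := s)
        have h4 := h2 i (hJ1m i hi).2
        omega
      refine ⟨G4, G4_good, ?_⟩
      rw [G4_edges, e1 (fun i => (s i).choose 2), hJe, hi0, hj, Finset.sum_empty]
      decide
    have hne1 : J1.Nonempty := by
      by_contra h
      rw [Finset.not_nonempty_iff_eq_empty] at h
      rw [h] at hsum1
      simp at hsum1
      omega
    have hk : ∃ k ∈ J1, s k ≤ 4 := by
      by_contra hno
      push Not at hno
      have := lower hA hne1 (m := 5) (by norm_num) (by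
        intro i hi
        have := hno i hi
        omega)
      omega
    obtain ⟨k, hkm, hk4⟩ := hk
    obtain ⟨hkj, hki0⟩ := hJ1m k hkm
    have hk2 := h2 k hki0
    set J2 : Finset ι := J1.erase k with hJ2
    have e2 : ∀ f : ι → ℕ, ∑ i, f i = f i0 + (f j + (f k + ∑ i ∈ J2, f i)) := by
      intro f
      rw [e1 f, ← Finset.add_sum_erase _ _ hkm]
    have hJ2m : ∀ i ∈ J2, 2 ≤ s i := by
      intro i hi
      rw [hJ2, Finset.mem_erase] at hi
      exact h2 i (hJ1m i hi.2).2
    have hJ2e : ∑ i ∈ J2, s i = 0 ∨ 2 ≤ ∑ i ∈ J2, s i := by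
      by_cases h : J2.Nonempty
      · right
        obtain ⟨i, hi⟩ := h
        exact (hJ2m i hi).trans (Finset.single_le_sum (fun _ _ => Nat.zero_le _) hi (f := s))
      · left
        rw [Finset.not_nonempty_iff_eq_empty] at h
        rw [h]; rfl
    have hsum2 := e2 s
    -- the common modification
    have main : ∀ (x y D : ℕ), x + y = s j + s k + 1 → (D = n ∨ (9 ≤ n ∧ D = n + 1)) →
        (s j).choose 2 + (s k).choose 2 < x.choose 2 + y.choose 2 →
        (∀ (R : SimpleGraph (Fin (2 * n - 1))) (T : Finset (Fin (2 * n - 1))), TF R →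
          D + (s j + s k + 1) ≤ #T + (n - 1) →
          ∃ A ⊆ T, ∃ B ⊆ T, #A = x ∧ #B = y ∧ Disjoint A B ∧ Ind R A ∧ Ind R B) →
        ∃ G : SimpleGraph (Fin n), K3Good G ∧
          n - 1 + ∑ i, (s i).choose 2 < G.edgeSet.ncard := by
      intro x y D hxy hD hch hT
      set s' : ι → ℕ := fun l => if l = i0 then 0 else if l = j then x else if l = k then y else s l
        with hs'
      have si : s' i0 = 0 := by simp [hs']
      have sj : s' j = x := by simp [hs', hji0]
      have sk : s' k = y := by simp [hs', hki0, hkj]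
      have so : ∀ l, l ∉ ({i0, j, k} : Finset ι) → s' l = s l := by
        intro l hl
        rw [Finset.mem_insert, Finset.mem_insert, Finset.mem_singleton, not_or, not_or] at hl
        simp [hs', hl.1, hl.2.1, hl.2.2]
      have tri : ∀ f : ι → ℕ, ∑ i ∈ ({i0, j, k} : Finset ι), f i = f i0 + (f j + f k) := by
        intro f
        rw [Finset.sum_insert, Finset.sum_pair hkj.symm]
        rw [Finset.mem_insert, Finset.mem_singleton, not_or]
        exact ⟨hji0.symm, hki0.symm⟩
      obtain ⟨G, hG, hq⟩ := mod_good hn hsum hA {i0, j, k} so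
        (by rw [tri, tri, si, sj, sk, hi0]; omega) D hD (by
          intro R T hR hc
          rw [tri, hi0] at hc
          obtain ⟨A, hAT, B, hBT, hAc, hBc, hAB, hIA, hIB⟩ := hT R T hR (by omega)
          exact packOn_three hji0.symm hki0.symm hkj.symm si hAT hBT (by rw [hAc, sj])
            (by rw [hBc, sk]) hAB hIA hIB)
      refine ⟨G, hG, ?_⟩
      have ec : ∑ l ∈ J2, (s' l).choose 2 = ∑ l ∈ J2, (s l).choose 2 := by
        refine Finset.sum_congr rfl (fun l hl => ?_)
        rw [so l]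
        rw [hJ2, Finset.mem_erase] at hl
        obtain ⟨h3, h4⟩ := hJ1m l hl.2
        rw [Finset.mem_insert, Finset.mem_insert, Finset.mem_singleton]
        tauto
      rw [hq, e2 (fun i => (s i).choose 2), e2 (fun i => (s' i).choose 2), ec, si, sj, sk, hi0]
      have : Nat.choose 1 2 = 0 := rfl
      have : Nat.choose 0 2 = 0 := rfl
      omega
    have hcases : s k = 2 ∨ s k = 3 ∨ s k = 4 := by omega
    rcases hcases with hk | hk | hk
    · refine main 3 2 n (by omega) (Or.inl rfl) (by rw [hj, hk]; decide) ?_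
      intro R T hR hT
      exact six hR (by omega)
    · rcases Nat.lt_or_ge n 9 with hn9 | hn9
      · -- n = 7
        have hn7 : n = 7 := by omega
        subst hn7
        have hJe : J2 = ∅ := by
          by_contra hne
          obtain ⟨i, hi⟩ := Finset.nonempty_iff_ne_empty.mpr hne
          have h3 := Finset.single_le_sum (fun _ _ => Nat.zero_le _) hi (f := s)
          have h4 := hJ2m i hi
          omega
        refine ⟨G7, G7_good, ?_⟩
        rw [G7_edges, e2 (fun i => (s i).choose 2), hJe, hi0, hj, hk, Finset.sum_empty]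
        decide
      · refine main 3 3 (n + 1) (by omega) (Or.inr ⟨hn9, rfl⟩) (by rw [hj, hk]; decide) ?_
        intro R T hR hT
        exact eight hR (by omega)
    · rcases hJ2e with h0 | h0
      · exfalso
        have hn8 : n = 8 := by omega
        subst hn8
        exact no_seven hA k hk
      · refine main 3 4 (n + 1) (by omega) (Or.inr ⟨by omega, rfl⟩) (by rw [hj, hk]; decide) ?_
        intro R T hR hT
        obtain ⟨A, hAT, B, hBT, hAc, hBc, hAB, hIA, hIB⟩ := nine hR (T := T) (by omega)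
        exact ⟨B, hBT, A, hAT, hBc, hAc, hAB.symm, hIB, hIA⟩

/-! ### The functions -/

lemma sum_le_of_arr {n : ℕ} {ι : Type} [Fintype ι] {s : ι → ℕ} (h : Arr n s) : ∑ i, s i ≤ n := by
  classical
  obtain ⟨A, hA1, hA2⟩ := h (Fin n) ⊥ univ (fun a b c hab _ _ => by simp at hab)
    (by rw [Finset.card_univ, Fintype.card_fin])
  have h1 : #(univ.biUnion A) = ∑ i, #(A i) :=
    Finset.card_biUnion (fun i _ j _ hij => hA2 i (Finset.mem_univ _) j (Finset.mem_univ _) hij)
  have h2 : ∑ i, #(A i) = ∑ i, s i :=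
    Finset.sum_congr rfl (fun i _ => (hA1 i (Finset.mem_univ _)).2.1)
  have h3 := Finset.card_le_univ (univ.biUnion A)
  rw [Fintype.card_fin] at h3
  omega

/-- padding with blocks of size one -/
lemma pad {n : ℕ} {ι : Type} [Fintype ι] {s : ι → ℕ} (h : Arr n s) :
    Arr n (Sum.elim s (fun _ : Fin (n - ∑ i, s i) => 1)) := by
  classical
  have hle := sum_le_of_arr h
  intro V _ R T hR hT
  obtain ⟨A, hA1, hA2⟩ := h V R T hR hT
  set U : Finset V := univ.biUnion A with hU
  have hUT : U ⊆ T := by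
    intro x hx
    obtain ⟨i, _, hx⟩ := Finset.mem_biUnion.mp hx
    exact (hA1 i (Finset.mem_univ _)).1 hx
  have hUc : #U = ∑ i, s i := by
    rw [hU, Finset.card_biUnion (fun i _ j _ hij => hA2 i (Finset.mem_univ _) j
      (Finset.mem_univ _) hij)]
    exact Finset.sum_congr rfl (fun i _ => (hA1 i (Finset.mem_univ _)).2.1)
  have h3 : n - ∑ i, s i ≤ #(T \ U) := by
    rw [Finset.card_sdiff_of_subset hUT, hUc]; omega
  obtain ⟨T', hT', hc⟩ := Finset.exists_subset_card_eq h3
  let e : Fin (n - ∑ i, s i) ≃ T' := (T'.equivFinOfCardEq hc).symm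
  have heU : ∀ i, ((e i : T') : V) ∈ T ∧ ((e i : T') : V) ∉ U := fun i =>
    Finset.mem_sdiff.mp (hT' (e i).2)
  refine ⟨Sum.elim A (fun i => {((e i : T') : V)}), ?_, ?_⟩
  · intro i _
    rcases i with i | i
    · exact hA1 i (Finset.mem_univ _)
    · simp only [Sum.elim_inr]
      refine ⟨?_, by simp, ?_⟩
      · intro x hx
        rw [Finset.mem_singleton] at hx
        rw [hx]
        exact (heU i).1
      · intro x hx y hy
        rw [Finset.mem_singleton] at hx hy
        rw [hx, hy]
        exact R.loopless.irrefl _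
  · intro i _ j _ hij
    rcases i with i | i <;> rcases j with j | j
    · exact hA2 i (Finset.mem_univ _) j (Finset.mem_univ _) (fun h => hij (by rw [h]))
    · simp only [Sum.elim_inl, Sum.elim_inr]
      rw [Finset.disjoint_singleton_right]
      intro hm
      exact (heU j).2 (Finset.mem_biUnion.mpr ⟨i, Finset.mem_univ _, hm⟩)
    · simp only [Sum.elim_inl, Sum.elim_inr]
      rw [Finset.disjoint_singleton_left]
      intro hm
      exact (heU i).2 (Finset.mem_biUnion.mpr ⟨j, Finset.mem_univ _, hm⟩)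
    · simp only [Sum.elim_inr]
      rw [Finset.disjoint_singleton]
      intro h
      exact hij (by rw [e.injective (Subtype.val_injective h)])

lemma le_gK3 {n : ℕ} {G : SimpleGraph (Fin n)} (h : K3Good G) : G.edgeSet.ncard ≤ gK3 n := by
  unfold gK3
  apply le_csSup
  · refine ⟨Fintype.card (Sym2 (Fin n)), ?_⟩
    rintro q ⟨G', _, rfl⟩
    exact (Set.ncard_le_card _).trans (by rw [Nat.card_eq_fintype_card])
  · exact ⟨G, h, rfl⟩

lemma gK3_le {n : ℕ} (hn : 1 ≤ n) {m : ℕ}
    (h : ∀ G : SimpleGraph (Fin n), K3Good G → G.edgeSet.ncard ≤ m) : gK3 n ≤ m := by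
  unfold gK3
  apply csSup_le
  · obtain ⟨G, hG, hq⟩ := star_good hn
    exact ⟨_, G, hG, rfl⟩
  · rintro q ⟨G, hG, rfl⟩
    exact h G hG

lemma one_mem_RS : ramseyNum triangle (cliqueUnion (fun _ : Fin 1 => 1)) ≤ 1 := by
  rw [ramseyNum_def]
  apply Nat.sInf_le
  rw [mem_RS_iff]
  intro R _
  apply contained_of_ind (A := univ)
  · rw [Finset.card_univ, Fintype.card_fin, Fintype.card_sigma]
    simp
  · intro x _ y _
    rw [Subsingleton.elim x y]
    exact R.loopless.irrefl _

/-- every admissible value of `e_2` is beaten -/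
lemma admissible_lt {n : ℕ} (hn : 4 ≤ n) {t : ℕ} {s : Fin t → ℕ} (h1 : ∀ i, 1 ≤ s i)
    (hr : ramseyNum triangle (cliqueUnion s) ≤ n - 1) :
    n - 1 + ∑ i, (s i).choose 2 < gK3 n := by
  classical
  have hA : Arr (n - 1) s := arr_of_mem (mem_RS_of_le hr)
  have hle := sum_le_of_arr hA
  obtain ⟨G, hG, hq⟩ := improve hn (Sum.elim s (fun _ : Fin (n - 1 - ∑ i, s i) => 1))
    (by
      intro i
      rcases i with i | i
      · exact h1 i
      · exact le_rfl)
    (by
      rw [Fintype.sum_sum_type]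
      simp only [Sum.elim_inl, Sum.elim_inr, Finset.sum_const, Finset.card_univ, Fintype.card_fin,
        smul_eq_mul, mul_one]
      omega)
    (pad hA)
  have h2 := le_gK3 hG
  rw [Fintype.sum_sum_type] at hq
  simp only [Sum.elim_inl, Sum.elim_inr, Finset.sum_const, Finset.card_univ, Fintype.card_fin,
    smul_eq_mul] at hq
  have : Nat.choose 1 2 = 0 := rfl
  rw [this] at hq
  omega

/-- for `n ≤ 3` all admissible values vanish -/
lemma admissible_small {n : ℕ} (hn : n ≤ 3) {t : ℕ} {s : Fin t → ℕ}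
    (hr : ramseyNum triangle (cliqueUnion s) ≤ n - 1) : ∑ i, (s i).choose 2 = 0 := by
  classical
  have hA : Arr (n - 1) s := arr_of_mem (mem_RS_of_le hr)
  apply Finset.sum_eq_zero
  intro i _
  apply Nat.choose_eq_zero_of_lt
  by_contra hi
  push Not at hi
  have := lower hA (J := {i}) (Finset.singleton_nonempty i) (m := 2) (by norm_num) (by
    intro j hj
    rw [Finset.mem_singleton] at hj
    rw [hj]; exact hi)
  rw [Finset.sum_singleton] at this
  omega

/-- the set in the definition of `e_2` -/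
def E2 (n : ℕ) : Set ℕ := {q : ℕ | ∃ (t : ℕ) (s : Fin t → ℕ), 1 ≤ t ∧ (∀ i, 1 ≤ s i) ∧
    ramseyNum triangle (cliqueUnion s) ≤ n - 1 ∧ q = ∑ i, (s i).choose 2}

/-- the set in the definition of `e_1` -/
def E1 (n : ℕ) : Set ℕ := {q : ℕ | ∃ t s : ℕ, 1 ≤ t ∧ 1 ≤ s ∧
    ramseyNum triangle (cliqueUnion (fun _ : Fin t => s)) ≤ n - 1 ∧ q = t * s.choose 2}

lemma E1_sub (n : ℕ) : E1 n ⊆ E2 n := by
  rintro q ⟨t, s, ht, hs, hr, rfl⟩
  exact ⟨t, fun _ => s, ht, fun _ => hs, hr, by simp⟩

lemma E1_ne {n : ℕ} (hn : 2 ≤ n) : (E1 n).Nonempty :=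
  ⟨_, 1, 1, le_rfl, le_rfl, one_mem_RS.trans (by omega), rfl⟩

lemma E2_lt {n : ℕ} (hn : 4 ≤ n) : ∀ q ∈ E2 n, n - 1 + q < gK3 n := by
  rintro q ⟨t, s, _, h1, hr, rfl⟩
  exact admissible_lt hn h1 hr

lemma E2_zero {n : ℕ} (hn : n ≤ 3) : ∀ q ∈ E2 n, q = 0 := by
  rintro q ⟨t, s, _, h1, hr, rfl⟩
  exact admissible_small hn hr

/-- the pentagon -/
def C5 : SimpleGraph (Fin 5) := SimpleGraph.fromRel (fun i j => i + 1 = j)

instance : DecidableRel C5.Adj := fun i j => by
  unfold C5 SimpleGraph.fromRel; infer_instance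

lemma C5_tf : TF C5 := by
  unfold TF
  decide +kernel

lemma C5c_tf : TF C5ᶜ := by
  unfold TF
  decide +kernel

lemma gK3_small {n : ℕ} (h2 : 2 ≤ n) (h3 : n ≤ 3) : gK3 n = n - 1 := by
  classical
  apply le_antisymm
  · apply gK3_le (by omega)
    intro G hG
    have hn : G.edgeSet.ncard = #G.edgeFinset := by
      rw [← SimpleGraph.coe_edgeFinset, Set.ncard_coe_finset]
    have hle := G.card_edgeFinset_le_card_choose_two
    rw [Fintype.card_fin] at hle
    rw [hn]
    have hn2 : n = 2 ∨ n = 3 := by omega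
    rcases hn2 with rfl | rfl
    · exact hle
    · by_contra hlt
      push Not at hlt
      have htop : G = ⊤ := by
        rw [← SimpleGraph.edgeFinset_inj]
        apply Finset.eq_of_subset_of_card_le (SimpleGraph.edgeFinset_mono le_top)
        rw [SimpleGraph.card_edgeFinset_top_eq_card_choose_two, Fintype.card_fin]
        have : Nat.choose 3 2 = 3 := rfl
        omega
      have hr := hG.2
      rw [htop] at hr
      have h5 : 5 ∈ RS (⊤ : SimpleGraph (Fin 3)) := mem_RS_of_le (by rw [hr])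
      have h6 := (mem_RS_iff _ _).mp h5 C5 C5_tf
      exact (tf_iff_free.mpr C5c_tf) h6
  · obtain ⟨G, hG, hq⟩ := star_good (n := n) (by omega)
    rw [← hq]
    exact le_gK3 hG

theorem e2_eq {n : ℕ} : e2 n = n - 1 + sSup (E2 n) := rfl

theorem e1_eq {n : ℕ} : e1 n = n - 1 + sSup (E1 n) := rfl

lemma sSup_lt {n : ℕ} (hn : 4 ≤ n) {E : Set ℕ} (hE : E ⊆ E2 n) (hne : E.Nonempty) :
    n - 1 + sSup E < gK3 n := by
  have hb : BddAbove E := ⟨gK3 n, fun q hq => by
    have := E2_lt hn q (hE hq)
    omega⟩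
  exact E2_lt hn _ (hE (Nat.sSup_mem hne hb))

lemma sSup_zero {n : ℕ} (hn : n ≤ 3) {E : Set ℕ} (hE : E ⊆ E2 n) (hne : E.Nonempty) :
    sSup E = 0 := by
  have h0 : ∀ q ∈ E, q = 0 := fun q hq => E2_zero hn q (hE hq)
  have hb : BddAbove E := ⟨0, fun q hq => (h0 q hq).le⟩
  exact h0 _ (Nat.sSup_mem hne hb)

/-- **Comparison with `e_1`.** -/
theorem g_eq_e1_iff {n : ℕ} (hn : 2 ≤ n) : gK3 n = e1 n ↔ n ≤ 3 := by
  rw [e1_eq]
  constructor
  · intro h
    by_contra h4
    push Not at h4
    have := sSup_lt (n := n) h4 (E1_sub n) (E1_ne hn)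
    omega
  · intro h3
    rw [sSup_zero h3 (E1_sub n) (E1_ne hn), gK3_small hn h3]
    rfl

/-- **Comparison with `e_2`.** -/
theorem g_eq_e2_iff {n : ℕ} (hn : 2 ≤ n) : gK3 n = e2 n ↔ n ≤ 3 := by
  rw [e2_eq]
  constructor
  · intro h
    by_contra h4
    push Not at h4
    have := sSup_lt (n := n) h4 subset_rfl ((E1_ne hn).mono (E1_sub n))
    omega
  · intro h3
    rw [sSup_zero h3 subset_rfl ((E1_ne hn).mono (E1_sub n)), gK3_small hn h3]
    rfl

end Pool.Agent.R70.KG
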