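import Pool.Agent.R70.KG.Main

set_option autoImplicit false

/-! # Improving a clique union -/

open Finset SimpleGraph

namespace Pool.Agent.R70.KG

/-- goodness from the upper bound alone -/
lemma good_of {n : ℕ} (hn : 1 ≤ n) (G : SimpleGraph (Fin n)) (hc : G.Connected)
    (h : ∀ R : SimpleGraph (Fin (2 * n - 1)), TF R → G ⊑ Rᶜ) : K3Good G := by
  refine ⟨hc, ?_⟩
  rw [ramseyNum_def]
  have hmem : 2 * n - 1 ∈ RS G := (mem_RS_iff G _).mpr h
  apply le_antisymm (Nat.sInf_le hmem)
  apply le_csInf ⟨_, hmem⟩
  intro N hN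
  by_contra hlt
  push Not at hlt
  let R : SimpleGraph (Fin N) :=
    { Adj := fun i j => (i.val < n - 1 ∧ ¬ j.val < n - 1) ∨ (¬ i.val < n - 1 ∧ j.val < n - 1)
      symm := ⟨fun i j h => by
        rcases h with h | h
        · exact Or.inr ⟨h.2, h.1⟩
        · exact Or.inl ⟨h.2, h.1⟩⟩
      loopless := ⟨fun i h => by
        rcases h with h | h
        · exact h.2 h.1
        · exact h.1 h.2⟩ }
  have hR : TF R := by
    intro a b c h1 h2 h3
    rcases h1 with h1 | h1 <;> rcases h2 with h2 | h2 <;> rcases h3 with h3 | h3 <;> omega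
  obtain ⟨⟨f, hf⟩⟩ := (mem_RS_iff G N).mp hN R hR
  have hstep : ∀ x y, G.Adj x y → ((f x).val < n - 1 ↔ (f y).val < n - 1) := by
    intro x y hxy
    have h1 := f.map_adj hxy
    rw [SimpleGraph.compl_adj] at h1
    have h2 : ¬ (((f x).val < n - 1 ∧ ¬ (f y).val < n - 1) ∨
      (¬ (f x).val < n - 1 ∧ (f y).val < n - 1)) := h1.2
    tauto
  have hall : ∀ x y, ((f x).val < n - 1 ↔ (f y).val < n - 1) := by
    intro x y
    obtain ⟨p⟩ := hc.preconnected x y
    induction p with
    | nil => rfl
    | cons hadj _ ih => exact (hstep _ _ hadj).trans ih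
  let x0 : Fin n := ⟨0, hn⟩
  by_cases h0 : (f x0).val < n - 1
  · have h1 : ∀ x, (f x).val < n - 1 := fun x => (hall x0 x).mp h0
    have h2 := Fintype.card_le_of_injective (fun x : Fin n => (⟨(f x).val, h1 x⟩ : Fin (n - 1)))
      (fun x y hxy => hf (Fin.ext (by simpa using hxy)))
    rw [Fintype.card_fin, Fintype.card_fin] at h2
    omega
  · have h1 : ∀ x, ¬ (f x).val < n - 1 := fun x hx => h0 ((hall x0 x).mpr hx)
    have h3 : ∀ x, (f x).val - (n - 1) < n - 1 := by
      intro x
      have := (f x).2
      have := h1 x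
      omega
    have h2 := Fintype.card_le_of_injective
      (fun x : Fin n => (⟨(f x).val - (n - 1), h3 x⟩ : Fin (n - 1)))
      (fun x y hxy => hf (Fin.ext (by
        have h4 := h1 x
        have h5 := h1 y
        have h6 : (f x).val - (n - 1) = (f y).val - (n - 1) := by simpa using hxy
        omega)))
    rw [Fintype.card_fin, Fintype.card_fin] at h2
    omega

/-- a vertex of large blue degree or a blue clique, weak form -/
lemma host0 {n : ℕ} (hn : 1 ≤ n) (R : SimpleGraph (Fin (2 * n - 1))) (hR : TF R) :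
    (∃ S : Finset (Fin (2 * n - 1)), #S = n ∧ Ind R S) ∨
      ∃ (v : Fin (2 * n - 1)) (T : Finset (Fin (2 * n - 1))), n - 1 ≤ #T ∧
        ∀ x ∈ T, v ≠ x ∧ ¬ R.Adj v x := by
  classical
  let v : Fin (2 * n - 1) := ⟨0, by omega⟩
  by_cases h : n ≤ R.degree v
  · left
    rw [← SimpleGraph.card_neighborFinset_eq_degree] at h
    obtain ⟨S, hS, hSc⟩ := Finset.exists_subset_card_eq h
    refine ⟨S, hSc, ?_⟩
    intro x hx y hy hxy
    have h1 := hS hx
    have h2 := hS hy
    rw [SimpleGraph.mem_neighborFinset] at h1 h2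
    exact hR v x y h1 hxy h2
  · right
    refine ⟨v, Rᶜ.neighborFinset v, ?_, ?_⟩
    · rw [SimpleGraph.card_neighborFinset_eq_degree, SimpleGraph.degree_compl, Fintype.card_fin]
      omega
    · intro x hx
      rw [SimpleGraph.mem_neighborFinset, SimpleGraph.compl_adj] at hx
      exact hx

/-- a vertex of large blue degree or a blue clique, from the Andrásfai–Erdős–Sós theorem -/
lemma host1 {n : ℕ} (hn : 4 ≤ n) (R : SimpleGraph (Fin (2 * n - 1))) (hR : TF R) :
    (∃ S : Finset (Fin (2 * n - 1)), #S = n ∧ Ind R S) ∨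
      ∃ (v : Fin (2 * n - 1)) (T : Finset (Fin (2 * n - 1))), n ≤ #T ∧ (9 ≤ n → n + 1 ≤ #T) ∧
        ∀ x ∈ T, v ≠ x ∧ ¬ R.Adj v x := by
  classical
  by_cases hd : (3 * 2 - 4) * Fintype.card (Fin (2 * n - 1)) / (3 * 2 - 1) < R.minDegree
  · left
    obtain ⟨C⟩ := SimpleGraph.colorable_of_cliqueFree_lt_minDegree (r := 2) (tf_iff.mp hR) hd
    have hind : ∀ c : Fin 2, Ind R (univ.filter (fun x => C x = c)) := by
      intro c x hx y hy hxy
      rw [Finset.mem_filter] at hx hy
      exact C.valid hxy (hx.2.trans hy.2.symm)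
    have hsum : #(univ.filter (fun x => C x = 0)) + #(univ.filter (fun x => C x = 1)) =
        2 * n - 1 := by
      have h1 : (univ.filter (fun x => C x = 1)) = (univ.filter (fun x => ¬ C x = 0)) := by
        ext x
        simp only [Finset.mem_filter, Finset.mem_univ, true_and]
        have : C x = 0 ∨ C x = 1 := by
          have := (C x).2
          rcases h : C x with ⟨k, hk⟩
          interval_cases k
          · exact Or.inl rfl
          · exact Or.inr rfl
        constructor
        · intro h h'
          rw [h] at h'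
          exact absurd h' (by decide)
        · intro h
          exact this.resolve_left h
      rw [h1, Finset.card_filter_add_card_filter_not, Finset.card_univ, Fintype.card_fin]
    rcases Nat.lt_or_ge #(univ.filter (fun x => C x = 0)) n with h | h
    · have h' : n ≤ #(univ.filter (fun x => C x = 1)) := by omega
      obtain ⟨S, hS, hSc⟩ := Finset.exists_subset_card_eq h'
      exact ⟨S, hSc, (hind 1).mono hS⟩
    · obtain ⟨S, hS, hSc⟩ := Finset.exists_subset_card_eq h
      exact ⟨S, hSc, (hind 0).mono hS⟩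
  · right
    push Not at hd
    have : Nonempty (Fin (2 * n - 1)) := ⟨⟨0, by omega⟩⟩
    obtain ⟨v, hv⟩ := R.exists_minimal_degree_vertex
    rw [hv, Fintype.card_fin] at hd
    have hdeg : #(Rᶜ.neighborFinset v) = 2 * n - 1 - 1 - R.degree v := by
      rw [SimpleGraph.card_neighborFinset_eq_degree, SimpleGraph.degree_compl, Fintype.card_fin]
    refine ⟨v, Rᶜ.neighborFinset v, ?_, ?_, ?_⟩
    · rw [hdeg]; omega
    · intro h9
      rw [hdeg]; omega
    · intro x hx
      rw [SimpleGraph.mem_neighborFinset, SimpleGraph.compl_adj] at hx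
      exact hx

/-- transport of a cone to `Fin n` -/
lemma transport {n : ℕ} {ι : Type} [Fintype ι] (s : ι → ℕ) (hs : ∑ i, s i = n - 1) (hn : 1 ≤ n)
    (h : ∀ R : SimpleGraph (Fin (2 * n - 1)), TF R → (∃ S : Finset (Fin (2 * n - 1)), #S = n ∧
      Ind R S) ∨ cone (cliqueUnion s) ⊑ Rᶜ) :
    ∃ G : SimpleGraph (Fin n), K3Good G ∧
      G.edgeSet.ncard = n - 1 + ∑ i, (s i).choose 2 := by
  classical
  have hcard : Fintype.card (Fin n) = Fintype.card (Option (Σ i : ι, Fin (s i))) := by
    rw [Fintype.card_option, Fintype.card_sigma, Fintype.card_fin]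
    simp only [Fintype.card_fin]
    omega
  let e : Fin n ≃ Option (Σ i : ι, Fin (s i)) := Fintype.equivOfCardEq hcard
  let G : SimpleGraph (Fin n) := (cone (cliqueUnion s)).comap e
  have iso : G ≃g cone (cliqueUnion s) := SimpleGraph.Iso.comap e _
  refine ⟨G, ?_, ?_⟩
  · apply good_of hn
    · exact iso.connected_iff.mpr (cone_connected _)
    · intro R hR
      rcases h R hR with ⟨S, hS, hI⟩ | h
      · exact contained_of_ind G (by rw [hS, Fintype.card_fin]) hI
      · exact iso.isContained.trans h
  · have h1 : G.edgeSet.ncard = (cone (cliqueUnion s)).edgeSet.ncard := by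
      rw [← Nat.card_coe_set_eq, ← Nat.card_coe_set_eq]
      exact Nat.card_congr iso.mapEdgeSet
    rw [h1, cone_edges, hs]

/-- stars are good -/
lemma star_good {n : ℕ} (hn : 1 ≤ n) :
    ∃ G : SimpleGraph (Fin n), K3Good G ∧ G.edgeSet.ncard = n - 1 := by
  have := transport (n := n) (fun _ : Fin (n - 1) => 1) (by simp) hn (by
    intro R hR
    rcases host0 hn R hR with h | ⟨v, T, hT, hv⟩
    · exact Or.inl h
    · right
      obtain ⟨T', hT', hc⟩ := Finset.exists_subset_card_eq hT
      let e : Fin (n - 1) ≃ T' := (T'.equivFinOfCardEq hc).symm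
      refine cone_copy (T := T) ⟨fun i => {((e i : T') : Fin (2 * n - 1))}, ?_, ?_⟩ v hv
      · intro i _
        refine ⟨?_, by simp, ?_⟩
        · intro x hx
          rw [Finset.mem_singleton] at hx
          rw [hx]
          exact hT' (e i).2
        · intro x hx y hy
          rw [Finset.mem_singleton] at hx hy
          rw [hx, hy]
          exact R.loopless.irrefl _
      · intro i _ j _ hij
        rw [Finset.disjoint_singleton]
        intro h
        exact hij (e.injective (Subtype.val_injective h)))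
  simpa using this

/-- exchange of a few blocks gives another good graph -/
lemma mod_good {n : ℕ} (hn : 4 ≤ n) {ι : Type} [Fintype ι] [DecidableEq ι] {s s' : ι → ℕ}
    (hsum : ∑ i, s i = n - 1) (hA : Arr (n - 1) s) (I : Finset ι) (hs : ∀ i, i ∉ I → s' i = s i)
    (hI : ∑ i ∈ I, s' i = ∑ i ∈ I, s i) (D : ℕ) (hD : D = n ∨ (9 ≤ n ∧ D = n + 1))
    (hT : ∀ (R : SimpleGraph (Fin (2 * n - 1))) (T : Finset (Fin (2 * n - 1))), TF R →
      D + ∑ i ∈ I, s i ≤ #T + (n - 1) → PackOn R T I s') :
    ∃ G : SimpleGraph (Fin n), K3Good G ∧ G.edgeSet.ncard = n - 1 + ∑ i, (s' i).choose 2 := by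
  have hdec : ∑ i ∈ I, s i + ∑ i ∈ Iᶜ, s i = n - 1 := by
    rw [Finset.sum_add_sum_compl]; exact hsum
  have hsum' : ∑ i, s' i = n - 1 := by
    rw [← Finset.sum_add_sum_compl I, hI, ← hdec]
    congr 1
    exact Finset.sum_congr rfl (fun i hi => hs i (Finset.mem_compl.mp hi))
  apply transport s' hsum' (by omega)
  intro R hR
  rcases host1 hn R hR with h | ⟨v, T, hT1, hT2, hv⟩
  · exact Or.inl h
  · right
    have hDT : D ≤ #T := by
      rcases hD with hD | ⟨h9, hD⟩
      · omega
      · have := hT2 h9; omega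
    refine cone_copy (T := T) ?_ v hv
    refine glue (hA _ R T hR (by omega)) hs ?_
    intro T' _ hT'
    exact hT R T' hR (by omega)

lemma packOn_two {ι : Type} [DecidableEq ι] {V : Type} [DecidableEq V] {R : SimpleGraph V}
    {T : Finset V} {i j : ι} (hij : i ≠ j) {s' : ι → ℕ} (hj : s' j = 0) {A : Finset V}
    (hAT : A ⊆ T) (hA : #A = s' i) (hI : Ind R A) : PackOn R T {i, j} s' := by
  refine ⟨fun k => if k = i then A else ∅, ?_, ?_⟩
  · intro k hk
    by_cases hki : k = i
    · subst hki
      simp only [if_true]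
      exact ⟨hAT, hA, hI⟩
    · simp only [hki, if_false]
      have : k = j := by
        rw [Finset.mem_insert, Finset.mem_singleton] at hk
        exact hk.resolve_left hki
      subst this
      exact ⟨Finset.empty_subset _, by rw [hj]; rfl, by intro x hx; simp at hx⟩
  · intro k _ l _ hkl
    by_cases hki : k = i <;> by_cases hli : l = i
    · exact absurd (hki.trans hli.symm) hkl
    · simp [hli]
    · simp [hki]
    · simp [hki]

lemma packOn_three {ι : Type} [DecidableEq ι] {V : Type} [DecidableEq V] {R : SimpleGraph V}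
    {T : Finset V} {i j k : ι} (hij : i ≠ j) (hik : i ≠ k) (hjk : j ≠ k) {s' : ι → ℕ}
    (hi : s' i = 0) {A B : Finset V} (hAT : A ⊆ T) (hBT : B ⊆ T) (hA : #A = s' j) (hB : #B = s' k)
    (hAB : Disjoint A B) (hIA : Ind R A) (hIB : Ind R B) : PackOn R T {i, j, k} s' := by
  refine ⟨fun l => if l = j then A else if l = k then B else ∅, ?_, ?_⟩
  · intro l hl
    by_cases hlj : l = j
    · subst hlj
      simp only [if_true]
      exact ⟨hAT, hA, hIA⟩
    · by_cases hlk : l = k
      · subst hlk
        simp only [hlj, if_false, if_true]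
        exact ⟨hBT, hB, hIB⟩
      · simp only [hlj, hlk, if_false]
        have : l = i := by
          rw [Finset.mem_insert, Finset.mem_insert, Finset.mem_singleton] at hl
          tauto
        subst this
        exact ⟨Finset.empty_subset _, by rw [hi]; rfl, by intro x hx; simp at hx⟩
  · intro a _ b _ hab
    by_cases haj : a = j <;> by_cases hbj : b = j
    · exact absurd (haj.trans hbj.symm) hab
    · subst haj
      by_cases hbk : b = k
      · subst hbk
        simpa [hbj] using hAB
      · simp [hbj, hbk]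
    · subst hbj
      by_cases hak : a = k
      · subst hak
        simpa [haj] using hAB.symm
      · simp [haj, hak]
    · by_cases hak : a = k
      · subst hak
        by_cases hbk : b = a
        · exact absurd hbk.symm hab
        · simp [haj, hbj, hbk]
      · simp [haj, hak]

end Pool.Agent.R70.KG
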