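import Pool.Agent.R70.KG.Pack
import Pool.Agent.R70.KG.Defs

set_option autoImplicit false

/-! # `K_3`-good cones over clique unions -/

open Finset SimpleGraph

namespace Pool.Agent.R70.KG

/-! ### Ramsey numbers -/

lemma tf_iff {V : Type} {R : SimpleGraph V} : TF R ↔ R.CliqueFree 3 := by
  classical
  constructor
  · intro h t ht
    obtain ⟨a, b, c, h1, h2, h3, _⟩ := SimpleGraph.is3Clique_iff.mp ht
    exact h a b c h1 h3 h2
  · intro h a b c h1 h2 h3
    exact h {a, b, c} (SimpleGraph.is3Clique_iff.mpr ⟨a, b, c, h1, h3, h2, rfl⟩)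

lemma tf_iff_free {V : Type} {R : SimpleGraph V} : ¬ (triangle ⊑ R) ↔ TF R := by
  rw [tf_iff]
  have := SimpleGraph.not_cliqueFree_iff_top_isContained (G := R) 3
  unfold triangle
  constructor
  · intro h
    by_contra h2
    exact h (this.mp h2)
  · intro h h2
    exact (this.mpr h2) h

/-- the set of the Ramsey number, triangle against `G` -/
def RS {β : Type} (G : SimpleGraph β) : Set ℕ :=
  {N : ℕ | ∀ R : SimpleGraph (Fin N), triangle ⊑ R ∨ G ⊑ Rᶜ}

lemma ramseyNum_def {β : Type} (G : SimpleGraph β) : ramseyNum triangle G = sInf (RS G) := rfl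

/-- membership in terms of finite sets in arbitrary hosts -/
lemma mem_RS_iff {β : Type} (G : SimpleGraph β) (N : ℕ) :
    N ∈ RS G ↔ ∀ R : SimpleGraph (Fin N), TF R → G ⊑ Rᶜ := by
  unfold RS
  simp only [Set.mem_ofPred_eq]
  constructor
  · intro h R hR
    rcases h R with h1 | h1
    · exact absurd h1 (tf_iff_free.mpr hR)
    · exact h1
  · intro h R
    by_cases h1 : triangle ⊑ R
    · exact Or.inl h1
    · exact Or.inr (h R (tf_iff_free.mp h1))

/-- a host set of size at least `N ∈ RS G` carries a copy avoiding red -/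
lemma host_copy {β : Type} {G : SimpleGraph β} {N : ℕ} (h : N ∈ RS G) {V : Type}
    {R : SimpleGraph V} (hR : TF R) {T : Finset V} (hT : N ≤ #T) :
    ∃ f : β → V, Function.Injective f ∧ (∀ x, f x ∈ T) ∧ ∀ x y, G.Adj x y → ¬ R.Adj (f x) (f y) := by
  obtain ⟨T', hT', hc⟩ := Finset.exists_subset_card_eq hT
  let e : T' ≃ Fin N := T'.equivFinOfCardEq hc
  let R' : SimpleGraph (Fin N) := R.comap (fun i => ((e.symm i : T') : V))
  have hR' : TF R' := fun a b c h1 h2 h3 => hR _ _ _ h1 h2 h3
  obtain ⟨⟨f, hf⟩⟩ := (mem_RS_iff G N).mp h R' hR'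
  refine ⟨fun x => ((e.symm (f x) : T') : V), ?_, ?_, ?_⟩
  · intro x y hxy
    exact hf (e.symm.injective (Subtype.val_injective hxy))
  · intro x
    exact hT' (e.symm (f x)).2
  · intro x y hxy
    have h1 := f.map_adj hxy
    rw [SimpleGraph.compl_adj] at h1
    exact h1.2

lemma RS_mono {β : Type} {G : SimpleGraph β} {N M : ℕ} (h : N ∈ RS G) (hNM : N ≤ M) :
    M ∈ RS G := by
  rw [mem_RS_iff]
  intro R hR
  obtain ⟨f, hf, _, h2⟩ := host_copy h hR (T := (univ : Finset (Fin M)))
    (by rw [Finset.card_univ, Fintype.card_fin]; exact hNM)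
  refine ⟨⟨⟨f, ?_⟩, hf⟩⟩
  intro x y hxy
  rw [SimpleGraph.compl_adj]
  exact ⟨fun h => hxy.ne (hf h), h2 x y hxy⟩

/-- a triangle-free graph on `m ^ 2` vertices has a red-free set of size `m` -/
lemma exists_ind {V : Type} [DecidableEq V] {R : SimpleGraph V} (hR : TF R) :
    ∀ (m : ℕ) (T : Finset V), m * m ≤ #T → ∃ A ⊆ T, #A = m ∧ Ind R A := by
  classical
  intro m
  induction m with
  | zero =>
    intro T _
    exact ⟨∅, Finset.empty_subset _, rfl, by intro x hx; simp at hx⟩
  | succ m ih =>
    intro T hT
    have hpos : 0 < #T := by nlinarith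
    obtain ⟨v, hv⟩ := Finset.card_pos.mp hpos
    by_cases h1 : m + 1 ≤ #(T.filter (R.Adj v))
    · obtain ⟨A, hA, hAc⟩ := Finset.exists_subset_card_eq h1
      refine ⟨A, fun x hx => (Finset.mem_filter.mp (hA hx)).1, hAc, ?_⟩
      intro x hx y hy hxy
      exact hR v x y (Finset.mem_filter.mp (hA hx)).2 hxy (Finset.mem_filter.mp (hA hy)).2
    · have hns : T.filter (R.Adj v) ⊆ T.erase v := by
        intro x hx
        rw [Finset.mem_filter] at hx
        rw [Finset.mem_erase]
        refine ⟨?_, hx.1⟩
        rintro rfl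
        exact R.loopless.irrefl _ hx.2
      have h3 : m * m ≤ #((T.erase v) \ T.filter (R.Adj v)) := by
        rw [Finset.card_sdiff_of_subset hns, Finset.card_erase_of_mem hv]
        have : (m + 1) * (m + 1) = m * m + 2 * m + 1 := by ring
        omega
      obtain ⟨A, hA, hAc, hI⟩ := ih _ h3
      have hvA : v ∉ A := by
        intro hvA
        have := Finset.mem_sdiff.mp (hA hvA)
        exact (Finset.mem_erase.mp this.1).1 rfl
      refine ⟨insert v A, ?_, ?_, ?_⟩
      · intro x hx
        rcases Finset.mem_insert.mp hx with rfl | hx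
        · exact hv
        · exact (Finset.mem_erase.mp (Finset.mem_sdiff.mp (hA hx)).1).2
      · rw [Finset.card_insert_of_notMem hvA, hAc]
      · have key : ∀ x ∈ A, ¬ R.Adj v x := by
          intro x hx h
          have := Finset.mem_sdiff.mp (hA hx)
          exact this.2 (Finset.mem_filter.mpr ⟨(Finset.mem_erase.mp this.1).2, h⟩)
        intro x hx y hy
        rcases Finset.mem_insert.mp hx with hx1 | hx1 <;>
          rcases Finset.mem_insert.mp hy with hy1 | hy1
        · rw [hx1, hy1]; exact R.loopless.irrefl _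
        · rw [hx1]; exact key y hy1
        · rw [hy1]; exact fun h => key x hx1 h.symm
        · exact hI x hx1 y hy1

/-- any graph embeds into the complement when there is a red-free set of its size -/
lemma contained_of_ind {β : Type} [Fintype β] (G : SimpleGraph β) {V : Type}
    {R : SimpleGraph V} {A : Finset V} (hA : #A = Fintype.card β) (hI : Ind R A) : G ⊑ Rᶜ := by
  let e : A ≃ β := Fintype.equivOfCardEq (by rw [Fintype.card_coe, hA])
  have hinj : Function.Injective (fun x : β => ((e.symm x : A) : V)) :=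
    fun x y hxy => e.symm.injective (Subtype.val_injective hxy)
  refine ⟨⟨⟨fun x => ((e.symm x : A) : V), ?_⟩, hinj⟩⟩
  intro x y hxy
  rw [SimpleGraph.compl_adj]
  exact ⟨fun h => hxy.ne (hinj h), hI _ (e.symm x).2 _ (e.symm y).2⟩

lemma RS_nonempty {β : Type} [Fintype β] (G : SimpleGraph β) : (RS G).Nonempty := by
  refine ⟨Fintype.card β * Fintype.card β, ?_⟩
  rw [mem_RS_iff]
  intro R hR
  obtain ⟨A, _, hAc, hI⟩ := exists_ind hR (Fintype.card β) univ
    (by rw [Finset.card_univ, Fintype.card_fin])
  exact contained_of_ind G hAc hI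

lemma mem_RS_of_le {β : Type} [Fintype β] {G : SimpleGraph β} {n : ℕ}
    (h : ramseyNum triangle G ≤ n) : n ∈ RS G := by
  rw [ramseyNum_def] at h
  exact RS_mono (Nat.sInf_mem (RS_nonempty G)) h

/-! ### Packings and clique unions -/

lemma arr_of_mem {ι : Type} [Fintype ι] {s : ι → ℕ} {n : ℕ} (h : n ∈ RS (cliqueUnion s)) :
    Arr n s := by
  intro V _ R T hR hT
  obtain ⟨f, hf, hfT, h2⟩ := host_copy h hR hT
  refine ⟨fun i => (univ : Finset (Fin (s i))).image (fun x => f ⟨i, x⟩), ?_, ?_⟩
  · intro i _
    refine ⟨?_, ?_, ?_⟩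
    · intro x hx
      obtain ⟨y, _, rfl⟩ := Finset.mem_image.mp hx
      exact hfT _
    · rw [Finset.card_image_of_injective, Finset.card_univ, Fintype.card_fin]
      intro x y hxy
      have := hf hxy
      simpa using this
    · intro x hx y hy
      obtain ⟨a, _, rfl⟩ := Finset.mem_image.mp hx
      obtain ⟨b, _, rfl⟩ := Finset.mem_image.mp hy
      by_cases hab : a = b
      · subst hab; exact R.loopless.irrefl _
      · apply h2
        refine ⟨?_, rfl⟩
        intro h
        simp only [Sigma.mk.injEq, heq_eq_eq, true_and] at h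
        exact hab h
  · intro i _ j _ hij
    rw [Finset.disjoint_left]
    intro x hx hy
    obtain ⟨a, _, rfl⟩ := Finset.mem_image.mp hx
    obtain ⟨b, _, hb⟩ := Finset.mem_image.mp hy
    have := hf hb
    simp only [Sigma.mk.injEq] at this
    exact hij this.1.symm

/-- the cone over a graph -/
def cone {α : Type} (H : SimpleGraph α) : SimpleGraph (Option α) where
  Adj x y := x ≠ y ∧ ∀ a b, x = some a → y = some b → H.Adj a b
  symm := ⟨fun _ _ h => ⟨h.1.symm, fun a b ha hb => (h.2 b a hb ha).symm⟩⟩
  loopless := ⟨fun _ h => h.1 rfl⟩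

lemma cone_copy {ι : Type} [Fintype ι] {s : ι → ℕ} {V : Type} {R : SimpleGraph V} {T : Finset V}
    (h : PackOn R T univ s) (v : V) (hv : ∀ x ∈ T, v ≠ x ∧ ¬ R.Adj v x) :
    cone (cliqueUnion s) ⊑ Rᶜ := by
  obtain ⟨A, hA1, hA2⟩ := h
  let e : ∀ i, A i ≃ Fin (s i) := fun i => (A i).equivFinOfCardEq (hA1 i (Finset.mem_univ _)).2.1
  let g : (Σ i : ι, Fin (s i)) → V := fun p => (((e p.1).symm p.2 : A p.1) : V)
  have hg : ∀ p, g p ∈ A p.1 := fun p => ((e p.1).symm p.2).2
  have hgT : ∀ p, g p ∈ T := fun p => (hA1 p.1 (Finset.mem_univ _)).1 (hg p)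
  have hginj : Function.Injective g := by
    rintro ⟨i, x⟩ ⟨j, y⟩ hxy
    have hij : i = j := by
      by_contra hij
      have hd := hA2 i (Finset.mem_univ _) j (Finset.mem_univ _) hij
      rw [Finset.disjoint_left] at hd
      have h1 := hg ⟨i, x⟩
      have h2 := hg ⟨j, y⟩
      rw [hxy] at h1
      exact hd h1 h2
    subst hij
    have h3 : (e i).symm x = (e i).symm y := Subtype.val_injective hxy
    have h4 := (e i).symm.injective h3
    subst h4
    rfl
  let f : Option (Σ i : ι, Fin (s i)) → V := fun o => o.elim v g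
  have hfinj : Function.Injective f := by
    intro x y hxy
    rcases x with _ | x <;> rcases y with _ | y
    · rfl
    · exact absurd hxy (hv _ (hgT y)).1
    · exact absurd hxy.symm (hv _ (hgT x)).1
    · exact congrArg some (hginj hxy)
  refine ⟨⟨⟨f, ?_⟩, hfinj⟩⟩
  intro x y hxy
  rw [SimpleGraph.compl_adj]
  refine ⟨fun h => hxy.1 (hfinj h), ?_⟩
  rcases x with _ | x <;> rcases y with _ | y
  · exact absurd rfl hxy.1
  · exact (hv _ (hgT y)).2
  · exact fun h => (hv _ (hgT x)).2 h.symm
  · have h1 := hxy.2 x y rfl rfl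
    obtain ⟨h2, h3⟩ := h1
    have hy := hg y
    have hx := hg x
    have h4 := (hA1 x.1 (Finset.mem_univ _)).2.2
    rw [← h3] at hy
    exact h4 _ hx _ hy

lemma cone_connected {α : Type} (H : SimpleGraph α) : (cone H).Connected := by
  rw [SimpleGraph.connected_iff_exists_forall_reachable]
  refine ⟨none, ?_⟩
  intro w
  rcases w with _ | w
  · exact SimpleGraph.Reachable.refl _
  · apply SimpleGraph.Adj.reachable
    refine ⟨by simp, ?_⟩
    intro a b ha hb
    simp at ha

/-- number of edges of the cone over a clique union -/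
lemma cone_edges {ι : Type} [Fintype ι] (s : ι → ℕ) :
    (cone (cliqueUnion s)).edgeSet.ncard = ∑ i, s i + ∑ i, (s i).choose 2 := by
  classical
  have hdeg0 : (cone (cliqueUnion s)).degree none = ∑ i, s i := by
    rw [← SimpleGraph.card_neighborFinset_eq_degree]
    have : (cone (cliqueUnion s)).neighborFinset none =
        (univ : Finset (Σ i : ι, Fin (s i))).image some := by
      ext x
      rw [SimpleGraph.mem_neighborFinset]
      rcases x with _ | x
      · simp
      · simp only [Finset.mem_image, Finset.mem_univ, true_and, Option.some.injEq, exists_eq,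
          iff_true]
        exact ⟨by simp, fun a b ha _ => by simp at ha⟩
    rw [this, Finset.card_image_of_injective _ (Option.some_injective _), Finset.card_univ,
      Fintype.card_sigma]
    simp
  have hdeg : ∀ p : (Σ i : ι, Fin (s i)), (cone (cliqueUnion s)).degree (some p) = s p.1 := by
    intro p
    rw [← SimpleGraph.card_neighborFinset_eq_degree]
    have h1 : insert (some p) ((cone (cliqueUnion s)).neighborFinset (some p)) =
        insert none ((univ : Finset (Fin (s p.1))).image (fun x => some (⟨p.1, x⟩ : Σ i : ι, Fin (s i)))) := by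
      ext x
      rw [Finset.mem_insert, SimpleGraph.mem_neighborFinset, Finset.mem_insert]
      rcases x with _ | x
      · simp only [true_or, iff_true]
        right
        exact ⟨by simp, fun a b _ hb => by simp at hb⟩
      · simp only [Option.some.injEq, reduceCtorEq, false_or, Finset.mem_image, Finset.mem_univ,
          true_and]
        constructor
        · rintro (h | h)
          · subst h
            exact ⟨x.2, rfl⟩
          · have h2 := (h.2 p x rfl rfl).2
            obtain ⟨i, a⟩ := p
            obtain ⟨j, b⟩ := x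
            simp only at h2
            subst h2
            exact ⟨b, rfl⟩
        · rintro ⟨a, rfl⟩
          by_cases h : (⟨p.1, a⟩ : Σ i : ι, Fin (s i)) = p
          · exact Or.inl h
          · right
            refine ⟨fun h' => h (Option.some_injective _ h').symm, ?_⟩
            intro c d hc hd
            rw [Option.some.injEq] at hc hd
            subst hc hd
            exact ⟨fun h' => h h'.symm, rfl⟩
    have h2 := congrArg Finset.card h1
    rw [Finset.card_insert_of_notMem (by simp), Finset.card_insert_of_notMem (by simp),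
      Finset.card_image_of_injective] at h2
    · rw [Finset.card_univ, Fintype.card_fin] at h2
      omega
    · intro x y hxy
      simpa using hxy
  have hs := (cone (cliqueUnion s)).sum_degrees_eq_twice_card_edges
  rw [Fintype.sum_option, hdeg0, Fintype.sum_sigma] at hs
  simp only [hdeg, Finset.sum_const, Finset.card_univ, Fintype.card_fin, smul_eq_mul] at hs
  have hn : (cone (cliqueUnion s)).edgeSet.ncard = #(cone (cliqueUnion s)).edgeFinset := by
    rw [← SimpleGraph.coe_edgeFinset, Set.ncard_coe_finset]
  rw [hn]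
  have hch : ∀ m : ℕ, m * m = 2 * m.choose 2 + m := by
    intro m
    rw [Nat.choose_two_right]
    have : 2 ∣ m * (m - 1) := by
      rcases m with _ | m
      · simp
      · simpa [mul_comm] using (Nat.even_mul_succ_self m).two_dvd
    rw [Nat.mul_div_cancel' this]
    rcases m with _ | m
    · rfl
    · simp only [Nat.add_sub_cancel]; ring
  have h3 : ∑ i, s i * s i = 2 * ∑ i, (s i).choose 2 + ∑ i, s i := by
    rw [Finset.mul_sum, ← Finset.sum_add_distrib]
    exact Finset.sum_congr rfl (fun i _ => hch _)
  omega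

end Pool.Agent.R70.KG
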