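import Pool.Agent.R70.KG.Small

set_option autoImplicit false

/-! # Packing red-free sets into triangle-free graphs -/

open Finset SimpleGraph

namespace Pool.Agent.R70.KG

variable {V : Type}

/-- triangle-free -/
def TF (R : SimpleGraph V) : Prop := ∀ a b c, R.Adj a b → R.Adj b c → R.Adj a c → False

/-- no red edge inside -/
def Ind (R : SimpleGraph V) (A : Finset V) : Prop := ∀ x ∈ A, ∀ y ∈ A, ¬ R.Adj x y

lemma Ind.mono {R : SimpleGraph V} {A B : Finset V} (h : Ind R A) (hBA : B ⊆ A) : Ind R B :=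
  fun x hx y hy => h x (hBA hx) y (hBA hy)

theorem tree_apply [DecidableEq V] (R : SimpleGraph V) (hR : TF R) (T A : Finset V)
    (hAT : A ⊆ T) (hA : Ind R A) (N m : ℕ) (P B : List (ℕ × ℕ)) (t : Tr) (hN : N ≤ #T)
    (hN0 : 0 < N) (hB : ∀ e ∈ B, e.1 < #A ∧ e.2 < #A) (h : chk N m P [] B t = true) :
    ∃ w : Fin m → V, Function.Injective w ∧ (∀ i, w i ∈ T) ∧
      ∀ e ∈ P, ∀ (h1 : e.1 < m) (h2 : e.2 < m), ¬ R.Adj (w ⟨e.1, h1⟩) (w ⟨e.2, h2⟩) := by
  set L : List V := A.toList ++ (T \ A).toList with hL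
  have hlen : L.length = #T := by
    rw [hL, List.length_append, Finset.length_toList, Finset.length_toList,
      Finset.card_sdiff_of_subset hAT]
    have := Finset.card_le_card hAT
    omega
  have hnd : L.Nodup := by
    rw [hL, List.nodup_append]
    refine ⟨A.nodup_toList, (T \ A).nodup_toList, ?_⟩
    intro a ha b hb hab
    rw [Finset.mem_toList] at ha hb
    subst hab
    exact (Finset.mem_sdiff.mp hb).2 ha
  have hne : T.Nonempty := by
    rw [← Finset.card_pos]; omega
  obtain ⟨x0, hx0⟩ := hne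
  set v : ℕ → V := fun i => L.getD i x0 with hv
  have hmemL : ∀ y ∈ L, y ∈ T := by
    intro y hm
    rw [hL, List.mem_append, Finset.mem_toList, Finset.mem_toList] at hm
    rcases hm with hm | hm
    · exact hAT hm
    · exact (Finset.mem_sdiff.mp hm).1
  have hvT : ∀ i, v i ∈ T := by
    intro i
    by_cases hi : i < L.length
    · have : v i = L[i] := by simp [hv, hi]
      rw [this]
      exact hmemL _ (List.getElem_mem hi)
    · have : v i = x0 := by
        simp only [hv]
        rw [List.getD_eq_default]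
        omega
      rw [this]; exact hx0
  have hvinj : ∀ i j, i < #T → j < #T → v i = v j → i = j := by
    intro i j hi hj hij
    rw [← hlen] at hi hj
    have e1 : v i = L[i] := by simp [hv, hi]
    have e2 : v j = L[j] := by simp [hv, hj]
    rw [e1, e2] at hij
    exact (List.Nodup.getElem_inj_iff hnd).mp hij
  have hvA : ∀ i, i < #A → v i ∈ A := by
    intro i hi
    have hi' : i < A.toList.length := by rw [Finset.length_toList]; exact hi
    have hi2 : i < L.length := by rw [hL, List.length_append]; omega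
    have e1 : v i = L[i] := by simp [hv, hi2]
    rw [e1]
    have : L[i] = A.toList[i] := by
      simp only [hL]
      rw [List.getElem_append_left hi']
    rw [this]
    exact Finset.mem_toList.mp (List.getElem_mem hi')
  obtain ⟨l, hl1, hl2, hl3, hl4⟩ := chk_sound N m P (fun i j => R.Adj (v i) (v j))
    (fun i j hij => hij.symm) (fun i j k h1 h2 h3 => hR _ _ _ h1 h2 h3) t [] B (by simp)
    (fun e he => hA _ (hvA _ (hB e he).1) _ (hvA _ (hB e he).2)) h
  refine ⟨fun k => v (l.getD k 0), ?_, fun k => hvT _, ?_⟩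
  · intro i j hij
    have hi : (i : ℕ) < l.length := by rw [hl1]; exact i.2
    have hj : (j : ℕ) < l.length := by rw [hl1]; exact j.2
    have ei : l.getD i 0 = l[(i : ℕ)] := by simp [hi]
    have ej : l.getD j 0 = l[(j : ℕ)] := by simp [hj]
    simp only at hij
    rw [ei, ej] at hij
    have h5 := hl3 _ (List.getElem_mem hi)
    have h6 := hl3 _ (List.getElem_mem hj)
    have h7 := hvinj _ _ (by omega) (by omega) hij
    exact Fin.ext ((List.Nodup.getElem_inj_iff hl2).mp h7)
  · intro e he h1 h2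
    exact hl4 e he

lemma ind_image [DecidableEq V] {R : SimpleGraph V} {m : ℕ} (w : Fin m → V) (P : List (ℕ × ℕ))
    (hP : ∀ e ∈ P, ∀ (h1 : e.1 < m) (h2 : e.2 < m), ¬ R.Adj (w ⟨e.1, h1⟩) (w ⟨e.2, h2⟩))
    (s : Finset (Fin m))
    (hs : ∀ i ∈ s, ∀ j ∈ s, i = j ∨ ((i : ℕ), (j : ℕ)) ∈ P ∨ ((j : ℕ), (i : ℕ)) ∈ P) :
    Ind R (s.image w) := by
  intro x hx y hy
  obtain ⟨i, hi, rfl⟩ := Finset.mem_image.mp hx
  obtain ⟨j, hj, rfl⟩ := Finset.mem_image.mp hy
  rcases hs i hi j hj with h | h | h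
  · subst h; exact R.loopless.irrefl _
  · exact hP _ h i.2 j.2
  · exact fun hA => hP _ h j.2 i.2 hA.symm

/-- three vertices contain a red-free pair -/
lemma pair_three [DecidableEq V] {R : SimpleGraph V} (hR : TF R) {T : Finset V} (hT : 3 ≤ #T) :
    ∃ A ⊆ T, #A = 2 ∧ Ind R A := by
  obtain ⟨T', hT', hc⟩ := Finset.exists_subset_card_eq hT
  obtain ⟨a, b, c, hab, hac, hbc, rfl⟩ := Finset.card_eq_three.mp hc
  have key : ∀ x y, x ∈ T → y ∈ T → x ≠ y → ¬ R.Adj x y → ∃ A ⊆ T, #A = 2 ∧ Ind R A := by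
    intro x y hx hy hxy h
    refine ⟨{x, y}, ?_, Finset.card_pair hxy, ?_⟩
    · intro z hz
      simp only [Finset.mem_insert, Finset.mem_singleton] at hz
      rcases hz with rfl | rfl
      · exact hx
      · exact hy
    · intro z hz u hu
      simp only [Finset.mem_insert, Finset.mem_singleton] at hz hu
      rcases hz with rfl | rfl <;> rcases hu with rfl | rfl
      · exact R.loopless.irrefl _
      · exact h
      · exact fun h' => h h'.symm
      · exact R.loopless.irrefl _
  have ha : a ∈ T := hT' (by simp)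
  have hb : b ∈ T := hT' (by simp)
  have hc' : c ∈ T := hT' (by simp)
  by_cases h1 : R.Adj a b
  · by_cases h2 : R.Adj b c
    · exact key a c ha hc' hac (fun h3 => hR a b c h1 h2 h3)
    · exact key b c hb hc' hbc h2
  · exact key a b ha hb hab h1

/-- six vertices contain a blue triangle and a disjoint blue edge -/
lemma six [DecidableEq V] {R : SimpleGraph V} (hR : TF R) {T : Finset V} (hT : 6 ≤ #T) :
    ∃ A ⊆ T, ∃ B ⊆ T, #A = 3 ∧ #B = 2 ∧ Disjoint A B ∧ Ind R A ∧ Ind R B := by
  obtain ⟨w, hw, hwT, hP⟩ := tree_apply R hR T ∅ (Finset.empty_subset _)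
    (by intro x hx; simp at hx) 6 5 P2 [] tr2 hT (by norm_num) (by simp) c2
  refine ⟨({0, 1, 2} : Finset (Fin 5)).image w, ?_, ({3, 4} : Finset (Fin 5)).image w, ?_, ?_, ?_,
    ?_, ?_, ?_⟩
  · intro x hx; obtain ⟨i, _, rfl⟩ := Finset.mem_image.mp hx; exact hwT i
  · intro x hx; obtain ⟨i, _, rfl⟩ := Finset.mem_image.mp hx; exact hwT i
  · rw [Finset.card_image_of_injective _ hw]; decide
  · rw [Finset.card_image_of_injective _ hw]; decide
  · rw [Finset.disjoint_image hw]; decide
  · exact ind_image w P2 hP _ (by decide)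
  · exact ind_image w P2 hP _ (by decide)

lemma triple_six [DecidableEq V] {R : SimpleGraph V} (hR : TF R) {T : Finset V} (hT : 6 ≤ #T) :
    ∃ A ⊆ T, #A = 3 ∧ Ind R A := by
  obtain ⟨A, hA, B, _, h1, _, _, h2, _⟩ := six hR hT
  exact ⟨A, hA, h1, h2⟩

/-- eight vertices contain two disjoint blue triangles -/
lemma eight [DecidableEq V] {R : SimpleGraph V} (hR : TF R) {T : Finset V} (hT : 8 ≤ #T) :
    ∃ A ⊆ T, ∃ B ⊆ T, #A = 3 ∧ #B = 3 ∧ Disjoint A B ∧ Ind R A ∧ Ind R B := by
  obtain ⟨A0, hA0, hc, hI⟩ := triple_six hR (T := T) (by omega)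
  obtain ⟨w, hw, hwT, hP⟩ := tree_apply R hR T A0 hA0 hI 8 6 P3 B3 tr3 hT (by norm_num)
    (by rw [hc]; decide) c3
  refine ⟨({0, 1, 2} : Finset (Fin 6)).image w, ?_, ({3, 4, 5} : Finset (Fin 6)).image w, ?_, ?_,
    ?_, ?_, ?_, ?_⟩
  · intro x hx; obtain ⟨i, _, rfl⟩ := Finset.mem_image.mp hx; exact hwT i
  · intro x hx; obtain ⟨i, _, rfl⟩ := Finset.mem_image.mp hx; exact hwT i
  · rw [Finset.card_image_of_injective _ hw]; decide
  · rw [Finset.card_image_of_injective _ hw]; decide
  · rw [Finset.disjoint_image hw]; decide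
  · exact ind_image w P3 hP _ (by decide)
  · exact ind_image w P3 hP _ (by decide)

/-- `r(3, 4) ≤ 9` -/
lemma four_nine [DecidableEq V] {R : SimpleGraph V} (hR : TF R) {T : Finset V} (hT : 9 ≤ #T) :
    ∃ A ⊆ T, #A = 4 ∧ Ind R A := by
  classical
  obtain ⟨T', hT', hc⟩ := Finset.exists_subset_card_eq hT
  by_cases h1 : ∃ v ∈ T', 4 ≤ #(T'.filter (R.Adj v))
  · obtain ⟨v, hv, h1⟩ := h1
    obtain ⟨A, hA, hAc⟩ := Finset.exists_subset_card_eq h1
    refine ⟨A, fun x hx => hT' (Finset.mem_filter.mp (hA hx)).1, hAc, ?_⟩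
    intro x hx y hy hxy
    exact hR v x y (Finset.mem_filter.mp (hA hx)).2 hxy (Finset.mem_filter.mp (hA hy)).2
  by_cases h2 : ∃ v ∈ T', #(T'.filter (R.Adj v)) ≤ 2
  · obtain ⟨v, hv, h2⟩ := h2
    have hns : T'.filter (R.Adj v) ⊆ T'.erase v := by
      intro x hx
      rw [Finset.mem_filter] at hx
      rw [Finset.mem_erase]
      refine ⟨?_, hx.1⟩
      rintro rfl
      exact R.loopless.irrefl _ hx.2
    have h3 : 6 ≤ #((T'.erase v) \ T'.filter (R.Adj v)) := by
      rw [Finset.card_sdiff_of_subset hns, Finset.card_erase_of_mem hv]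
      omega
    obtain ⟨A, hA, hAc, hI⟩ := triple_six hR h3
    have hvA : v ∉ A := by
      intro hvA
      have := Finset.mem_sdiff.mp (hA hvA)
      exact (Finset.mem_erase.mp this.1).1 rfl
    refine ⟨insert v A, ?_, ?_, ?_⟩
    · intro x hx
      rcases Finset.mem_insert.mp hx with rfl | hx
      · exact hT' hv
      · exact hT' (Finset.mem_erase.mp (Finset.mem_sdiff.mp (hA hx)).1).2
    · rw [Finset.card_insert_of_notMem hvA, hAc]
    · have key : ∀ x ∈ A, ¬ R.Adj v x := by
        intro x hx h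
        have := Finset.mem_sdiff.mp (hA hx)
        exact this.2 (Finset.mem_filter.mpr ⟨(Finset.mem_erase.mp this.1).2, h⟩)
      intro x hx y hy
      rcases Finset.mem_insert.mp hx with hx1 | hx1 <;>
        rcases Finset.mem_insert.mp hy with hy1 | hy1
      · rw [hx1, hy1]; exact R.loopless.irrefl _
      · rw [hx1]; exact key y hy1
      · rw [hy1]; exact fun h => key x hx1 h.symm
      · exact hI x hx1 y hy1
  · exfalso
    push Not at h1 h2
    let G : SimpleGraph T' := R.comap (fun x : T' => (x : V))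
    have hdeg : ∀ x : T', G.degree x = 3 := by
      intro x
      have e : G.degree x = #(T'.filter (R.Adj x)) := by
        rw [← SimpleGraph.card_neighborFinset_eq_degree,
          ← Finset.card_image_of_injective _ Subtype.val_injective]
        congr 1
        ext y
        simp only [Finset.mem_image, SimpleGraph.mem_neighborFinset, Finset.mem_filter,
          Subtype.exists, exists_and_right, exists_eq_right]
        constructor
        · rintro ⟨hy, h⟩
          exact ⟨hy, h⟩
        · rintro ⟨hy, h⟩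
          exact ⟨hy, h⟩
      have h3 := h1 x x.2
      have h4 := h2 x x.2
      rw [e]
      omega
    have hs := G.sum_degrees_eq_twice_card_edges
    rw [Finset.sum_congr rfl (fun x _ => hdeg x), Finset.sum_const, Finset.card_univ,
      Fintype.card_coe, hc] at hs
    simp only [smul_eq_mul] at hs
    omega

/-- nine vertices contain a blue `K_4` and a disjoint blue triangle -/
lemma nine [DecidableEq V] {R : SimpleGraph V} (hR : TF R) {T : Finset V} (hT : 9 ≤ #T) :
    ∃ A ⊆ T, ∃ B ⊆ T, #A = 4 ∧ #B = 3 ∧ Disjoint A B ∧ Ind R A ∧ Ind R B := by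
  obtain ⟨A0, hA0, hc, hI⟩ := four_nine hR hT
  obtain ⟨w, hw, hwT, hP⟩ := tree_apply R hR T A0 hA0 hI 9 7 P4 B4 tr4 hT (by norm_num)
    (by rw [hc]; decide) c4
  refine ⟨({0, 1, 2, 3} : Finset (Fin 7)).image w, ?_, ({4, 5, 6} : Finset (Fin 7)).image w, ?_, ?_,
    ?_, ?_, ?_, ?_⟩
  · intro x hx; obtain ⟨i, _, rfl⟩ := Finset.mem_image.mp hx; exact hwT i
  · intro x hx; obtain ⟨i, _, rfl⟩ := Finset.mem_image.mp hx; exact hwT i
  · rw [Finset.card_image_of_injective _ hw]; decide
  · rw [Finset.card_image_of_injective _ hw]; decide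
  · rw [Finset.disjoint_image hw]; decide
  · exact ind_image w P4 hP _ (by decide)
  · exact ind_image w P4 hP _ (by decide)

/-- disjoint red-free sets of sizes `s i`, `i ∈ I`, inside `T` -/
def PackOn {ι : Type} (R : SimpleGraph V) (T : Finset V) (I : Finset ι) (s : ι → ℕ) : Prop :=
  ∃ A : ι → Finset V, (∀ i ∈ I, A i ⊆ T ∧ #(A i) = s i ∧ Ind R (A i)) ∧
    ∀ i ∈ I, ∀ j ∈ I, i ≠ j → Disjoint (A i) (A j)

lemma PackOn.mono {ι : Type} {R : SimpleGraph V} {T : Finset V} {I J : Finset ι} {s : ι → ℕ}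
    (h : PackOn R T J s) (hI : I ⊆ J) : PackOn R T I s := by
  obtain ⟨A, h1, h2⟩ := h
  exact ⟨A, fun i hi => h1 i (hI hi), fun i hi j hj => h2 i (hI hi) j (hI hj)⟩

/-- exchange of a few blocks -/
lemma glue {ι : Type} [Fintype ι] [DecidableEq ι] [DecidableEq V] {R : SimpleGraph V}
    {T : Finset V} {I : Finset ι} {s s' : ι → ℕ} (h : PackOn R T univ s)
    (hs : ∀ i, i ∉ I → s' i = s i)
    (hT : ∀ T' : Finset V, T' ⊆ T → #T ≤ #T' + ∑ i ∈ Iᶜ, s i → PackOn R T' I s') :
    PackOn R T univ s' := by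
  obtain ⟨A, hA1, hA2⟩ := h
  set U : Finset V := (Iᶜ).biUnion A with hU
  have hUT : U ⊆ T := by
    intro x hx
    obtain ⟨i, _, hx⟩ := Finset.mem_biUnion.mp hx
    exact (hA1 i (Finset.mem_univ _)).1 hx
  have hUc : #U = ∑ i ∈ Iᶜ, s i := by
    rw [hU, Finset.card_biUnion]
    · exact Finset.sum_congr rfl (fun i _ => (hA1 i (Finset.mem_univ _)).2.1)
    · intro i _ j _ hij
      exact hA2 i (Finset.mem_univ _) j (Finset.mem_univ _) hij
  obtain ⟨B, hB1, hB2⟩ := hT (T \ U) Finset.sdiff_subset (by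
    rw [Finset.card_sdiff_of_subset hUT, ← hUc]
    have := Finset.card_le_card hUT
    omega)
  have hdis : ∀ i ∈ I, ∀ j, j ∉ I → Disjoint (B i) (A j) := by
    intro i hi j hj
    rw [Finset.disjoint_left]
    intro x hx hx'
    have := Finset.mem_sdiff.mp ((hB1 i hi).1 hx)
    exact this.2 (Finset.mem_biUnion.mpr ⟨j, Finset.mem_compl.mpr hj, hx'⟩)
  refine ⟨fun i => if i ∈ I then B i else A i, ?_, ?_⟩
  · intro i _
    by_cases hi : i ∈ I
    · simp only [hi, if_true]
      obtain ⟨h1, h2, h3⟩ := hB1 i hi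
      exact ⟨h1.trans Finset.sdiff_subset, h2, h3⟩
    · simp only [hi, if_false]
      obtain ⟨h1, h2, h3⟩ := hA1 i (Finset.mem_univ _)
      exact ⟨h1, by rw [hs i hi]; exact h2, h3⟩
  · intro i _ j _ hij
    by_cases hi : i ∈ I <;> by_cases hj : j ∈ I
    · simp only [hi, hj, if_true]
      exact hB2 i hi j hj hij
    · simp only [hi, hj, if_true, if_false]
      exact hdis i hi j hj
    · simp only [hi, hj, if_true, if_false]
      exact (hdis j hj i hi).symm
    · simp only [hi, hj, if_false]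
      exact hA2 i (Finset.mem_univ _) j (Finset.mem_univ _) hij

/-- every red triangle-free graph on `n` vertices has a blue packing of the blocks `s` -/
def Arr {ι : Type} [Fintype ι] (n : ℕ) (s : ι → ℕ) : Prop :=
  ∀ (V : Type) [DecidableEq V] (R : SimpleGraph V) (T : Finset V), TF R → n ≤ #T →
    PackOn R T univ s

/-- the lower bound from the complete bipartite red graph -/
lemma lower {ι : Type} [Fintype ι] [DecidableEq ι] {n : ℕ} {s : ι → ℕ} (h : Arr n s)
    {J : Finset ι} (hJ : J.Nonempty) {m : ℕ} (hm : 1 ≤ m) (hmJ : ∀ i ∈ J, m ≤ s i) :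
    ∑ i ∈ J, s i + m ≤ n + 1 := by
  by_contra hcon
  push Not at hcon
  obtain ⟨j0, hj0⟩ := hJ
  have hpos : 1 ≤ ∑ i ∈ J, s i :=
    le_trans (hm.trans (hmJ j0 hj0)) (Finset.single_le_sum (fun _ _ => Nat.zero_le _) hj0)
  obtain ⟨a, ha⟩ : ∃ a, ∑ i ∈ J, s i = a + 1 := ⟨∑ i ∈ J, s i - 1, by omega⟩
  obtain ⟨b, hb⟩ : ∃ b, m = b + 1 := ⟨m - 1, by omega⟩
  let R : SimpleGraph (Fin a ⊕ Fin b) := completeBipartiteGraph (Fin a) (Fin b)
  have hR : TF R := by
    intro x y z hxy hyz hxz
    rcases x with x | x <;> rcases y with y | y <;> rcases z with z | z <;>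
      simp [R, completeBipartiteGraph] at hxy hyz hxz
  obtain ⟨A, hA1, hA2⟩ := h (Fin a ⊕ Fin b) R univ hR (by
    rw [Finset.card_univ, Fintype.card_sum, Fintype.card_fin, Fintype.card_fin]; omega)
  -- every block lies on the left
  have hleft : ∀ i ∈ J, ∀ x ∈ A i, x.isLeft = true := by
    intro i hi x hx
    obtain ⟨_, hc, hI⟩ := hA1 i (Finset.mem_univ _)
    by_contra hx'
    rcases x with x | x
    · simp at hx'
    · -- all elements on the right
      have hsub : A i ⊆ (univ : Finset (Fin b)).map ⟨Sum.inr, Sum.inr_injective⟩ := by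
        intro y hy
        rcases y with y | y
        · exfalso
          exact hI _ hy _ hx (by simp [R, completeBipartiteGraph])
        · simp
      have := Finset.card_le_card hsub
      rw [Finset.card_map, Finset.card_univ, Fintype.card_fin, hc] at this
      have := hmJ i hi
      omega
  have hsub : J.biUnion A ⊆ (univ : Finset (Fin a)).map ⟨Sum.inl, Sum.inl_injective⟩ := by
    intro x hx
    obtain ⟨i, hi, hx⟩ := Finset.mem_biUnion.mp hx
    have := hleft i hi x hx
    rcases x with x | x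
    · simp
    · simp at this
  have hc := Finset.card_le_card hsub
  rw [Finset.card_map, Finset.card_univ, Fintype.card_fin, Finset.card_biUnion
    (fun i _ j _ hij => hA2 i (Finset.mem_univ _) j (Finset.mem_univ _) hij)] at hc
  have hc2 : ∑ i ∈ J, #(A i) = ∑ i ∈ J, s i :=
    Finset.sum_congr rfl (fun i _ => (hA1 i (Finset.mem_univ _)).2.1)
  omega

end Pool.Agent.R70.KG
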