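import Pool.Agent.R70.KG.Tree

set_option autoImplicit false
set_option maxRecDepth 20000

/-! # Case trees for the small Ramsey statements -/

namespace Pool.Agent.R70.KG

def tr2 : Tr :=
    (.n 0 1 (.n 0 2 (.n 1 2 (.r 0 1 2) (.n 0 3 (.n 1 3 (.r 0 1 3) (.n 2 3 (.r 0 2 3) (.n 0 4 (.n 1 4
    (.r 0 1 4) (.n 2 4 (.r 0 2 4) (.n 3 4 (.r 0 3 4) (.n 0 5 (.n 1 5 (.r 0 1 5) (.b [2,3,4,1,5]))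
    (.b [1,2,3,0,5]))))) (.b [1,2,3,0,4])))) (.n 0 4 (.n 1 4 (.r 0 1 4) (.n 2 4 (.r 0 2 4) (.b
    [1,2,4,0,3]))) (.n 3 4 (.n 0 5 (.n 1 5 (.r 0 1 5) (.n 2 5 (.r 0 2 5) (.b [1,2,5,0,3]))) (.n 3 5
    (.n 4 5 (.r 3 4 5) (.b [0,4,5,1,2])) (.b [0,3,5,1,2]))) (.b [0,3,4,1,2]))))) (.n 1 3 (.n 0 3 (.r
    0 1 3) (.n 1 4 (.n 0 4 (.r 0 1 4) (.n 3 4 (.r 1 3 4) (.n 1 2 (.n 2 3 (.r 1 2 3) (.n 2 4 (.r 1 2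
    4) (.n 1 5 (.n 0 5 (.r 0 1 5) (.b [2,3,4,0,5])) (.b [0,2,3,1,5])))) (.b [0,3,4,1,2])))) (.n 2 3
    (.n 1 2 (.r 1 2 3) (.n 2 4 (.n 3 4 (.r 2 3 4) (.n 0 4 (.n 0 5 (.n 1 5 (.r 0 1 5) (.n 4 5 (.r 0 4
    5) (.b [1,4,5,0,2]))) (.n 2 5 (.n 3 5 (.r 2 3 5) (.b [0,3,5,1,2])) (.b [0,2,5,1,4]))) (.b
    [0,3,4,1,2]))) (.b [1,2,4,0,3]))) (.b [0,2,3,1,4])))) (.n 0 4 (.n 1 4 (.r 0 1 4) (.n 3 4 (.n 0 3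
    (.r 0 3 4) (.n 2 3 (.n 2 4 (.r 2 3 4) (.n 1 2 (.n 0 5 (.n 1 5 (.r 0 1 5) (.n 4 5 (.r 0 4 5) (.b
    [1,4,5,0,2]))) (.n 2 5 (.n 1 5 (.r 1 2 5) (.n 3 5 (.r 2 3 5) (.b [0,3,5,1,4]))) (.b
    [0,2,5,1,3]))) (.b [1,2,4,0,3]))) (.b [0,2,3,1,4]))) (.b [1,3,4,0,2]))) (.n 2 4 (.n 1 5 (.n 0 5
    (.r 0 1 5) (.n 2 5 (.n 1 2 (.r 1 2 5) (.n 4 5 (.r 2 4 5) (.b [0,4,5,1,2]))) (.b [0,2,5,1,3])))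
    (.n 3 5 (.n 2 3 (.n 3 4 (.r 2 3 4) (.n 2 5 (.r 2 3 5) (.n 0 5 (.n 0 3 (.r 0 3 5) (.b
    [0,3,4,1,5])) (.b [0,2,5,1,3])))) (.n 1 2 (.n 1 4 (.r 1 2 4) (.n 0 3 (.n 0 5 (.r 0 3 5) (.n 2 5
    (.n 4 5 (.r 2 4 5) (.b [0,4,5,1,3])) (.b [0,2,5,1,3]))) (.b [0,2,3,1,4]))) (.b [1,2,3,0,4])))
    (.b [1,3,5,0,2]))) (.b [0,2,4,1,3]))))) (.n 2 3 (.n 2 4 (.n 3 4 (.r 2 3 4) (.n 0 2 (.n 0 3 (.r 0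
    2 3) (.n 0 4 (.r 0 2 4) (.n 1 2 (.n 1 3 (.r 1 2 3) (.n 1 4 (.r 1 2 4) (.n 2 5 (.n 0 5 (.r 0 2 5)
    (.b [1,3,4,0,5])) (.b [0,1,3,2,5])))) (.b [0,3,4,1,2])))) (.n 1 2 (.n 1 3 (.r 1 2 3) (.n 1 4 (.r
    1 2 4) (.b [1,3,4,0,2]))) (.b [0,1,2,3,4])))) (.n 0 3 (.n 0 2 (.r 0 2 3) (.n 3 5 (.n 0 5 (.r 0 3
    5) (.n 2 5 (.r 2 3 5) (.n 1 5 (.n 1 3 (.r 1 3 5) (.b [0,2,5,1,3])) (.b [0,1,5,2,4])))) (.n 1 2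
    (.n 1 3 (.r 1 2 3) (.n 0 4 (.n 3 4 (.r 0 3 4) (.n 1 4 (.n 1 5 (.n 2 5 (.r 1 2 5) (.n 4 5 (.r 1 4
    5) (.b [2,4,5,0,1]))) (.b [1,3,5,0,2])) (.b [1,3,4,0,2]))) (.b [0,2,4,1,3]))) (.b
    [0,1,2,3,5])))) (.n 1 3 (.n 1 2 (.r 1 2 3) (.n 1 4 (.n 3 4 (.r 1 3 4) (.n 0 2 (.n 0 4 (.n 0 5
    (.n 2 5 (.r 0 2 5) (.n 4 5 (.r 0 4 5) (.b [2,4,5,0,1]))) (.n 1 5 (.n 3 5 (.r 1 3 5) (.b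
    [0,3,5,1,2])) (.b [0,1,5,2,4]))) (.b [0,3,4,1,2])) (.b [0,1,2,3,4]))) (.b [1,2,4,0,3]))) (.b
    [0,1,3,2,4])))) (.n 4 5 (.n 0 4 (.n 0 5 (.r 0 4 5) (.n 1 5 (.n 1 4 (.r 1 4 5) (.n 2 4 (.n 0 2
    (.r 0 2 4) (.n 2 5 (.r 2 4 5) (.b [0,2,5,1,4]))) (.n 1 2 (.n 2 5 (.r 1 2 5) (.n 0 2 (.n 3 4 (.n
    0 3 (.r 0 3 4) (.n 3 5 (.r 3 4 5) (.b [0,3,5,1,4]))) (.b [2,3,4,0,1])) (.b [0,2,5,1,4]))) (.b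
    [1,2,4,0,5])))) (.b [0,1,5,2,3]))) (.n 1 4 (.n 1 5 (.r 1 4 5) (.n 0 5 (.n 2 4 (.n 1 2 (.r 1 2 4)
    (.n 2 5 (.r 2 4 5) (.b [1,2,5,0,4]))) (.n 0 2 (.n 2 5 (.r 0 2 5) (.n 1 2 (.n 3 4 (.n 1 3 (.r 1 3
    4) (.n 3 5 (.r 3 4 5) (.b [1,3,5,0,4]))) (.b [2,3,4,0,1])) (.b [1,2,5,0,4]))) (.b [0,2,4,1,5])))
    (.b [0,1,5,2,3]))) (.b [0,1,4,2,3]))) (.n 0 2 (.n 0 4 (.n 2 4 (.r 0 2 4) (.n 3 4 (.n 0 3 (.r 0 3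
    4) (.n 1 3 (.n 1 4 (.r 1 3 4) (.n 1 2 (.n 1 5 (.n 2 5 (.r 1 2 5) (.b [2,4,5,0,1])) (.b
    [1,4,5,0,3])) (.b [1,2,4,0,3]))) (.b [0,1,3,2,4]))) (.b [2,3,4,0,1]))) (.n 1 4 (.n 0 5 (.n 2 5
    (.r 0 2 5) (.n 3 5 (.n 0 3 (.r 0 3 5) (.n 1 3 (.n 3 4 (.r 1 3 4) (.b [0,3,4,2,5])) (.b
    [0,1,3,2,5]))) (.b [2,3,5,0,1]))) (.b [0,4,5,2,3])) (.b [0,1,4,2,3]))) (.n 1 2 (.n 0 3 (.n 1 4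
    (.n 2 4 (.r 1 2 4) (.n 3 4 (.n 0 4 (.r 0 3 4) (.n 1 3 (.r 1 3 4) (.b [0,2,4,1,3]))) (.b
    [2,3,4,0,1]))) (.n 0 4 (.n 3 4 (.r 0 3 4) (.n 1 3 (.n 2 4 (.n 1 5 (.n 2 5 (.r 1 2 5) (.n 3 5 (.r
    1 3 5) (.b [2,3,5,0,1]))) (.b [1,4,5,0,2])) (.b [2,3,4,0,1])) (.b [1,3,4,0,2]))) (.b
    [0,1,4,2,3]))) (.b [0,2,3,4,5])) (.b [0,1,2,4,5]))))))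

def tr3 : Tr :=
    (.n 3 4 (.n 3 5 (.n 4 5 (.r 3 4 5) (.n 4 6 (.n 3 6 (.r 3 4 6) (.n 3 7 (.n 4 7 (.r 3 4 7) (.n 5 7
    (.r 3 5 7) (.b [0,1,2,4,5,7]))) (.n 6 7 (.n 4 7 (.r 4 6 7) (.n 5 7 (.n 5 6 (.r 5 6 7) (.n 0 3
    (.n 0 4 (.r 0 3 4) (.n 0 5 (.r 0 3 5) (.n 1 3 (.n 1 4 (.r 1 3 4) (.n 1 5 (.r 1 3 5) (.n 2 3 (.n
    2 4 (.r 2 3 4) (.n 2 5 (.r 2 3 5) (.n 0 7 (.n 0 6 (.r 0 6 7) (.b [0,5,6,1,2,4])) (.b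
    [0,4,7,1,2,5])))) (.n 2 6 (.n 2 4 (.r 2 4 6) (.n 2 7 (.r 2 6 7) (.b [0,1,4,2,3,7]))) (.b
    [0,1,4,2,3,6]))))) (.n 2 3 (.n 2 4 (.r 2 3 4) (.n 2 5 (.r 2 3 5) (.n 1 6 (.n 1 4 (.r 1 4 6) (.n
    1 7 (.r 1 6 7) (.b [0,2,4,1,3,7]))) (.b [0,2,4,1,3,6])))) (.b [0,4,5,1,2,3]))))) (.n 0 6 (.n 0 4
    (.r 0 4 6) (.n 0 7 (.r 0 6 7) (.n 1 6 (.n 1 4 (.r 1 4 6) (.n 1 7 (.r 1 6 7) (.n 2 4 (.n 2 3 (.r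
    2 3 4) (.b [0,2,3,1,4,7])) (.b [0,3,7,1,2,4])))) (.n 2 6 (.n 2 4 (.r 2 4 6) (.n 2 7 (.r 2 6 7)
    (.n 1 3 (.n 1 4 (.r 1 3 4) (.b [0,3,7,1,2,4])) (.b [0,2,4,1,3,6])))) (.b [0,3,7,1,2,6]))))) (.n
    1 4 (.n 1 3 (.r 1 3 4) (.n 1 6 (.r 1 4 6) (.n 2 4 (.n 2 3 (.r 2 3 4) (.n 2 6 (.r 2 4 6) (.n 0 7
    (.n 0 5 (.r 0 5 7) (.b [0,5,6,1,2,3])) (.b [0,3,7,1,2,6])))) (.n 0 4 (.n 2 5 (.n 2 3 (.r 2 3 5)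
    (.n 2 7 (.r 2 5 7) (.b [0,1,6,2,3,7]))) (.b [0,1,3,2,4,5])) (.b [0,2,4,1,3,6]))))) (.n 2 4 (.n 2
    3 (.r 2 3 4) (.n 2 6 (.r 2 4 6) (.n 0 4 (.n 1 5 (.n 1 3 (.r 1 3 5) (.n 1 7 (.r 1 5 7) (.b
    [0,2,6,1,3,7]))) (.b [0,2,3,1,4,5])) (.b [0,1,4,2,3,6])))) (.b [0,3,6,1,2,4])))))) (.b
    [0,1,2,4,5,7]))) (.b [0,1,2,3,6,7])))) (.n 5 6 (.n 3 6 (.r 3 5 6) (.n 4 7 (.n 3 7 (.r 3 4 7) (.n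
    6 7 (.n 5 7 (.r 5 6 7) (.n 0 3 (.n 0 4 (.r 0 3 4) (.n 0 5 (.r 0 3 5) (.n 1 3 (.n 1 4 (.r 1 3 4)
    (.n 1 5 (.r 1 3 5) (.n 2 3 (.n 2 4 (.r 2 3 4) (.n 2 5 (.r 2 3 5) (.n 0 6 (.n 0 7 (.r 0 6 7) (.b
    [0,5,7,1,2,4])) (.b [0,4,6,1,2,5])))) (.n 2 6 (.n 2 5 (.r 2 5 6) (.n 2 7 (.r 2 6 7) (.b
    [0,1,4,2,3,7]))) (.b [0,1,4,2,3,6]))))) (.n 2 3 (.n 2 4 (.r 2 3 4) (.n 2 5 (.r 2 3 5) (.n 1 6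
    (.n 1 5 (.r 1 5 6) (.n 1 7 (.r 1 6 7) (.b [0,2,4,1,3,7]))) (.b [0,2,4,1,3,6])))) (.b
    [0,4,5,1,2,3]))))) (.n 0 6 (.n 0 5 (.r 0 5 6) (.n 0 7 (.r 0 6 7) (.n 1 6 (.n 1 5 (.r 1 5 6) (.n
    1 7 (.r 1 6 7) (.n 2 5 (.n 2 3 (.r 2 3 5) (.b [0,2,3,1,5,7])) (.b [0,3,7,1,2,5])))) (.n 2 6 (.n
    2 5 (.r 2 5 6) (.n 2 7 (.r 2 6 7) (.n 1 3 (.n 1 4 (.r 1 3 4) (.b [0,2,5,1,4,6])) (.b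
    [0,2,5,1,3,6])))) (.b [0,3,7,1,2,6]))))) (.n 1 5 (.n 1 3 (.r 1 3 5) (.n 1 6 (.r 1 5 6) (.n 2 5
    (.n 2 3 (.r 2 3 5) (.n 2 6 (.r 2 5 6) (.n 0 7 (.n 0 4 (.r 0 4 7) (.b [0,4,6,1,2,3])) (.b
    [0,3,7,1,2,6])))) (.n 0 5 (.n 2 4 (.n 2 3 (.r 2 3 4) (.n 2 7 (.r 2 4 7) (.b [0,1,6,2,3,7]))) (.b
    [0,1,3,2,4,5])) (.b [0,2,5,1,3,6]))))) (.n 2 5 (.n 2 3 (.r 2 3 5) (.n 2 6 (.r 2 5 6) (.n 0 5 (.n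
    1 4 (.n 1 3 (.r 1 3 4) (.n 1 7 (.r 1 4 7) (.b [0,2,6,1,3,7]))) (.b [0,2,3,1,4,5])) (.b
    [0,1,5,2,3,6])))) (.b [0,3,6,1,2,5])))))) (.b [0,1,2,3,6,7]))) (.n 5 7 (.n 3 7 (.r 3 5 7) (.n 6
    7 (.r 5 6 7) (.b [0,1,2,3,6,7]))) (.b [0,1,2,4,5,7])))) (.b [0,1,2,4,5,6])))) (.n 3 6 (.n 4 6
    (.r 3 4 6) (.n 3 7 (.n 4 7 (.r 3 4 7) (.n 6 7 (.r 3 6 7) (.b [0,1,2,4,6,7]))) (.n 5 7 (.n 4 5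
    (.n 4 7 (.r 4 5 7) (.n 6 7 (.n 5 6 (.r 5 6 7) (.n 0 3 (.n 0 4 (.r 0 3 4) (.n 0 6 (.r 0 3 6) (.n
    1 3 (.n 1 4 (.r 1 3 4) (.n 1 6 (.r 1 3 6) (.n 2 3 (.n 2 4 (.r 2 3 4) (.n 2 6 (.r 2 3 6) (.n 0 7
    (.n 0 5 (.r 0 5 7) (.b [0,5,6,1,2,4])) (.b [0,4,7,1,2,6])))) (.n 2 5 (.n 2 4 (.r 2 4 5) (.n 2 7
    (.r 2 5 7) (.b [0,1,4,2,3,7]))) (.b [0,1,4,2,3,5]))))) (.n 2 3 (.n 2 4 (.r 2 3 4) (.n 2 6 (.r 2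
    3 6) (.n 1 5 (.n 1 4 (.r 1 4 5) (.n 1 7 (.r 1 5 7) (.b [0,2,4,1,3,7]))) (.b [0,2,4,1,3,5]))))
    (.b [0,4,6,1,2,3]))))) (.n 0 5 (.n 0 4 (.r 0 4 5) (.n 0 7 (.r 0 5 7) (.n 1 5 (.n 1 4 (.r 1 4 5)
    (.n 1 7 (.r 1 5 7) (.n 2 4 (.n 2 3 (.r 2 3 4) (.b [0,2,3,1,4,7])) (.b [0,3,7,1,2,4])))) (.n 2 5
    (.n 2 4 (.r 2 4 5) (.n 2 7 (.r 2 5 7) (.n 1 3 (.n 1 4 (.r 1 3 4) (.b [0,3,7,1,2,4])) (.b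
    [0,2,4,1,3,5])))) (.b [0,3,7,1,2,5]))))) (.n 1 4 (.n 1 3 (.r 1 3 4) (.n 1 5 (.r 1 4 5) (.n 2 4
    (.n 2 3 (.r 2 3 4) (.n 2 5 (.r 2 4 5) (.n 0 7 (.n 0 6 (.r 0 6 7) (.b [0,5,6,1,2,3])) (.b
    [0,3,7,1,2,5])))) (.n 0 4 (.n 2 6 (.n 2 3 (.r 2 3 6) (.n 2 7 (.r 2 6 7) (.b [0,1,5,2,3,7]))) (.b
    [0,1,3,2,4,6])) (.b [0,2,4,1,3,5]))))) (.n 2 4 (.n 2 3 (.r 2 3 4) (.n 2 5 (.r 2 4 5) (.n 0 4 (.n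
    1 6 (.n 1 3 (.r 1 3 6) (.n 1 7 (.r 1 6 7) (.b [0,2,5,1,3,7]))) (.b [0,2,3,1,4,6])) (.b
    [0,1,4,2,3,5])))) (.b [0,3,5,1,2,4])))))) (.b [0,1,2,4,6,7]))) (.n 5 6 (.n 6 7 (.r 5 6 7) (.n 4
    7 (.n 0 3 (.n 0 4 (.r 0 3 4) (.n 0 6 (.r 0 3 6) (.n 1 3 (.n 1 4 (.r 1 3 4) (.n 1 6 (.r 1 3 6)
    (.n 2 3 (.n 2 4 (.r 2 3 4) (.n 2 6 (.r 2 3 6) (.n 2 5 (.n 2 7 (.r 2 5 7) (.b [0,1,4,2,6,7])) (.b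
    [0,1,6,2,4,5])))) (.n 2 5 (.n 2 6 (.r 2 5 6) (.n 2 7 (.r 2 5 7) (.b [0,1,4,2,3,7]))) (.b
    [0,1,4,2,3,5]))))) (.n 2 3 (.n 2 4 (.r 2 3 4) (.n 2 6 (.r 2 3 6) (.n 1 5 (.n 1 6 (.r 1 5 6) (.n
    1 7 (.r 1 5 7) (.b [0,2,4,1,3,7]))) (.b [0,2,4,1,3,5])))) (.b [0,4,6,1,2,3]))))) (.n 0 5 (.n 0 6
    (.r 0 5 6) (.n 0 7 (.r 0 5 7) (.n 1 5 (.n 1 6 (.r 1 5 6) (.n 1 7 (.r 1 5 7) (.n 2 6 (.n 2 3 (.r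
    2 3 6) (.b [0,2,3,1,6,7])) (.b [0,3,7,1,2,6])))) (.n 2 5 (.n 2 6 (.r 2 5 6) (.n 2 7 (.r 2 5 7)
    (.n 1 3 (.n 1 4 (.r 1 3 4) (.b [0,2,6,1,4,5])) (.b [0,2,6,1,3,5])))) (.b [0,3,7,1,2,5]))))) (.n
    1 6 (.n 1 3 (.r 1 3 6) (.n 1 5 (.r 1 5 6) (.n 2 6 (.n 2 3 (.r 2 3 6) (.n 2 5 (.r 2 5 6) (.n 0 7
    (.n 0 4 (.r 0 4 7) (.b [0,4,5,1,2,3])) (.b [0,3,7,1,2,5])))) (.n 0 6 (.n 2 4 (.n 2 3 (.r 2 3 4)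
    (.n 2 7 (.r 2 4 7) (.b [0,1,5,2,3,7]))) (.b [0,1,3,2,4,6])) (.b [0,2,6,1,3,5]))))) (.n 2 6 (.n 2
    3 (.r 2 3 6) (.n 2 5 (.r 2 5 6) (.n 0 6 (.n 1 4 (.n 1 3 (.r 1 3 4) (.n 1 7 (.r 1 4 7) (.b
    [0,2,5,1,3,7]))) (.b [0,2,3,1,4,6])) (.b [0,1,6,2,3,5])))) (.b [0,3,5,1,2,6]))))) (.b
    [0,1,2,4,6,7]))) (.b [0,1,2,4,5,6]))) (.b [0,1,2,3,5,7])))) (.n 5 6 (.n 3 7 (.n 4 7 (.r 3 4 7)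
    (.n 4 5 (.n 4 6 (.r 4 5 6) (.n 6 7 (.n 5 7 (.r 5 6 7) (.n 0 3 (.n 0 4 (.r 0 3 4) (.n 0 7 (.r 0 3
    7) (.n 1 3 (.n 1 4 (.r 1 3 4) (.n 1 7 (.r 1 3 7) (.n 2 3 (.n 2 4 (.r 2 3 4) (.n 2 7 (.r 2 3 7)
    (.n 2 6 (.n 2 5 (.r 2 5 6) (.b [0,1,4,2,5,7])) (.b [0,1,7,2,4,6])))) (.n 2 5 (.n 2 4 (.r 2 4 5)
    (.n 2 6 (.r 2 5 6) (.b [0,1,4,2,3,6]))) (.b [0,1,4,2,3,5]))))) (.n 2 3 (.n 2 4 (.r 2 3 4) (.n 2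
    7 (.r 2 3 7) (.n 1 5 (.n 1 4 (.r 1 4 5) (.n 1 6 (.r 1 5 6) (.b [0,2,4,1,3,6]))) (.b
    [0,2,4,1,3,5])))) (.b [0,4,7,1,2,3]))))) (.n 0 5 (.n 0 4 (.r 0 4 5) (.n 0 6 (.r 0 5 6) (.n 1 5
    (.n 1 4 (.r 1 4 5) (.n 1 6 (.r 1 5 6) (.n 2 4 (.n 2 3 (.r 2 3 4) (.b [0,2,3,1,4,6])) (.b
    [0,3,6,1,2,4])))) (.n 2 5 (.n 2 4 (.r 2 4 5) (.n 2 6 (.r 2 5 6) (.n 1 3 (.n 1 4 (.r 1 3 4) (.b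
    [0,3,6,1,2,4])) (.b [0,2,4,1,3,5])))) (.b [0,3,6,1,2,5]))))) (.n 1 4 (.n 1 3 (.r 1 3 4) (.n 1 5
    (.r 1 4 5) (.n 2 4 (.n 2 3 (.r 2 3 4) (.n 2 5 (.r 2 4 5) (.n 0 6 (.n 0 7 (.r 0 6 7) (.b
    [0,5,7,1,2,3])) (.b [0,3,6,1,2,5])))) (.n 0 4 (.n 2 6 (.n 2 5 (.r 2 5 6) (.n 2 7 (.r 2 6 7) (.b
    [0,1,3,2,4,7]))) (.b [0,1,3,2,4,6])) (.b [0,2,4,1,3,5]))))) (.n 2 4 (.n 2 3 (.r 2 3 4) (.n 2 5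
    (.r 2 4 5) (.n 0 4 (.n 1 6 (.n 1 5 (.r 1 5 6) (.n 1 7 (.r 1 6 7) (.b [0,2,3,1,4,7]))) (.b
    [0,2,3,1,4,6])) (.b [0,1,4,2,3,5])))) (.b [0,3,5,1,2,4])))))) (.b [0,1,2,4,6,7]))) (.n 5 7 (.n 6
    7 (.r 5 6 7) (.n 4 6 (.n 0 3 (.n 0 4 (.r 0 3 4) (.n 0 7 (.r 0 3 7) (.n 1 3 (.n 1 4 (.r 1 3 4)
    (.n 1 7 (.r 1 3 7) (.n 2 3 (.n 2 4 (.r 2 3 4) (.n 2 7 (.r 2 3 7) (.n 2 5 (.n 2 6 (.r 2 5 6) (.b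
    [0,1,4,2,6,7])) (.b [0,1,7,2,4,5])))) (.n 2 5 (.n 2 6 (.r 2 5 6) (.b [0,1,4,2,3,6])) (.b
    [0,1,4,2,3,5]))))) (.n 2 3 (.n 2 4 (.r 2 3 4) (.n 2 7 (.r 2 3 7) (.n 1 5 (.n 1 6 (.r 1 5 6) (.b
    [0,2,4,1,3,6])) (.b [0,2,4,1,3,5])))) (.b [0,4,7,1,2,3]))))) (.n 0 5 (.n 0 6 (.r 0 5 6) (.n 0 7
    (.r 0 5 7) (.n 1 5 (.n 1 6 (.r 1 5 6) (.n 1 7 (.r 1 5 7) (.n 2 7 (.n 2 3 (.r 2 3 7) (.b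
    [0,2,3,1,6,7])) (.b [0,3,6,1,2,7])))) (.n 2 5 (.n 2 6 (.r 2 5 6) (.n 2 7 (.r 2 5 7) (.n 1 3 (.n
    1 4 (.r 1 3 4) (.b [0,2,6,1,4,5])) (.b [0,2,6,1,3,5])))) (.b [0,3,6,1,2,5]))))) (.n 1 7 (.n 1 3
    (.r 1 3 7) (.n 1 5 (.r 1 5 7) (.n 2 7 (.n 2 3 (.r 2 3 7) (.n 2 5 (.r 2 5 7) (.n 0 6 (.n 0 4 (.r
    0 4 6) (.b [0,4,5,1,2,3])) (.b [0,3,6,1,2,5])))) (.n 0 7 (.n 2 4 (.n 2 3 (.r 2 3 4) (.n 2 6 (.r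
    2 4 6) (.b [0,1,5,2,3,6]))) (.b [0,1,3,2,4,7])) (.b [0,2,7,1,3,5]))))) (.n 2 7 (.n 2 3 (.r 2 3
    7) (.n 2 5 (.r 2 5 7) (.n 0 7 (.n 1 4 (.n 1 3 (.r 1 3 4) (.n 1 6 (.r 1 4 6) (.b [0,2,5,1,3,6])))
    (.b [0,2,3,1,4,7])) (.b [0,1,7,2,3,5])))) (.b [0,3,5,1,2,7]))))) (.b [0,1,2,4,6,7]))) (.b
    [0,1,2,4,5,7])))) (.n 5 7 (.n 6 7 (.r 5 6 7) (.b [0,1,2,3,6,7])) (.b [0,1,2,3,5,7]))) (.b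
    [0,1,2,3,5,6])))) (.n 3 5 (.n 3 6 (.n 5 6 (.r 3 5 6) (.n 3 7 (.n 5 7 (.r 3 5 7) (.n 6 7 (.r 3 6
    7) (.b [0,1,2,5,6,7]))) (.n 4 7 (.n 4 5 (.n 5 7 (.r 4 5 7) (.n 6 7 (.n 4 6 (.r 4 6 7) (.n 0 3
    (.n 0 5 (.r 0 3 5) (.n 0 6 (.r 0 3 6) (.n 1 3 (.n 1 5 (.r 1 3 5) (.n 1 6 (.r 1 3 6) (.n 2 3 (.n
    2 5 (.r 2 3 5) (.n 2 6 (.r 2 3 6) (.n 0 4 (.n 0 7 (.r 0 4 7) (.b [0,5,7,1,2,6])) (.b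
    [0,4,6,1,2,5])))) (.n 2 4 (.n 2 5 (.r 2 4 5) (.n 2 7 (.r 2 4 7) (.b [0,1,5,2,3,7]))) (.b
    [0,1,5,2,3,4]))))) (.n 2 3 (.n 2 5 (.r 2 3 5) (.n 2 6 (.r 2 3 6) (.n 1 4 (.n 1 5 (.r 1 4 5) (.n
    1 7 (.r 1 4 7) (.b [0,2,5,1,3,7]))) (.b [0,2,5,1,3,4])))) (.b [0,5,6,1,2,3]))))) (.n 0 4 (.n 0 5
    (.r 0 4 5) (.n 0 7 (.r 0 4 7) (.n 1 4 (.n 1 5 (.r 1 4 5) (.n 1 7 (.r 1 4 7) (.n 2 5 (.n 2 3 (.r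
    2 3 5) (.b [0,2,3,1,5,7])) (.b [0,3,7,1,2,5])))) (.n 2 4 (.n 2 5 (.r 2 4 5) (.n 2 7 (.r 2 4 7)
    (.n 1 3 (.n 1 5 (.r 1 3 5) (.b [0,3,7,1,2,5])) (.b [0,2,5,1,3,4])))) (.b [0,3,7,1,2,4]))))) (.n
    1 5 (.n 1 3 (.r 1 3 5) (.n 1 4 (.r 1 4 5) (.n 2 5 (.n 2 3 (.r 2 3 5) (.n 2 4 (.r 2 4 5) (.n 0 7
    (.n 0 6 (.r 0 6 7) (.b [0,4,6,1,2,3])) (.b [0,3,7,1,2,4])))) (.n 0 5 (.n 2 6 (.n 2 3 (.r 2 3 6)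
    (.n 2 7 (.r 2 6 7) (.b [0,1,4,2,3,7]))) (.b [0,1,3,2,5,6])) (.b [0,2,5,1,3,4]))))) (.n 2 5 (.n 2
    3 (.r 2 3 5) (.n 2 4 (.r 2 4 5) (.n 0 5 (.n 1 6 (.n 1 3 (.r 1 3 6) (.n 1 7 (.r 1 6 7) (.b
    [0,2,4,1,3,7]))) (.b [0,2,3,1,5,6])) (.b [0,1,5,2,3,4])))) (.b [0,3,4,1,2,5])))))) (.b
    [0,1,2,5,6,7]))) (.n 4 6 (.n 6 7 (.r 4 6 7) (.n 5 7 (.n 0 3 (.n 0 5 (.r 0 3 5) (.n 0 6 (.r 0 3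
    6) (.n 1 3 (.n 1 5 (.r 1 3 5) (.n 1 6 (.r 1 3 6) (.n 2 3 (.n 2 5 (.r 2 3 5) (.n 2 6 (.r 2 3 6)
    (.n 2 4 (.n 2 7 (.r 2 4 7) (.b [0,1,5,2,6,7])) (.b [0,1,6,2,4,5])))) (.n 2 4 (.n 2 6 (.r 2 4 6)
    (.n 2 7 (.r 2 4 7) (.b [0,1,5,2,3,7]))) (.b [0,1,5,2,3,4]))))) (.n 2 3 (.n 2 5 (.r 2 3 5) (.n 2
    6 (.r 2 3 6) (.n 1 4 (.n 1 6 (.r 1 4 6) (.n 1 7 (.r 1 4 7) (.b [0,2,5,1,3,7]))) (.b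
    [0,2,5,1,3,4])))) (.b [0,5,6,1,2,3]))))) (.n 0 4 (.n 0 6 (.r 0 4 6) (.n 0 7 (.r 0 4 7) (.n 1 4
    (.n 1 6 (.r 1 4 6) (.n 1 7 (.r 1 4 7) (.n 2 6 (.n 2 3 (.r 2 3 6) (.b [0,2,3,1,6,7])) (.b
    [0,3,7,1,2,6])))) (.n 2 4 (.n 2 6 (.r 2 4 6) (.n 2 7 (.r 2 4 7) (.n 1 3 (.n 1 5 (.r 1 3 5) (.b
    [0,2,6,1,4,5])) (.b [0,2,6,1,3,4])))) (.b [0,3,7,1,2,4]))))) (.n 1 6 (.n 1 3 (.r 1 3 6) (.n 1 4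
    (.r 1 4 6) (.n 2 6 (.n 2 3 (.r 2 3 6) (.n 2 4 (.r 2 4 6) (.n 0 7 (.n 0 5 (.r 0 5 7) (.b
    [0,4,5,1,2,3])) (.b [0,3,7,1,2,4])))) (.n 0 6 (.n 2 5 (.n 2 3 (.r 2 3 5) (.n 2 7 (.r 2 5 7) (.b
    [0,1,4,2,3,7]))) (.b [0,1,3,2,5,6])) (.b [0,2,6,1,3,4]))))) (.n 2 6 (.n 2 3 (.r 2 3 6) (.n 2 4
    (.r 2 4 6) (.n 0 6 (.n 1 5 (.n 1 3 (.r 1 3 5) (.n 1 7 (.r 1 5 7) (.b [0,2,4,1,3,7]))) (.b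
    [0,2,3,1,5,6])) (.b [0,1,6,2,3,4])))) (.b [0,3,4,1,2,6]))))) (.b [0,1,2,5,6,7]))) (.b
    [0,1,2,4,5,6]))) (.b [0,1,2,3,4,7])))) (.n 4 6 (.n 3 7 (.n 5 7 (.r 3 5 7) (.n 4 5 (.n 5 6 (.r 4
    5 6) (.n 6 7 (.n 4 7 (.r 4 6 7) (.n 0 3 (.n 0 5 (.r 0 3 5) (.n 0 7 (.r 0 3 7) (.n 1 3 (.n 1 5
    (.r 1 3 5) (.n 1 7 (.r 1 3 7) (.n 2 3 (.n 2 5 (.r 2 3 5) (.n 2 7 (.r 2 3 7) (.n 0 4 (.n 0 6 (.r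
    0 4 6) (.b [0,5,6,1,2,7])) (.b [0,4,7,1,2,5])))) (.n 2 4 (.n 2 5 (.r 2 4 5) (.n 2 6 (.r 2 4 6)
    (.b [0,1,5,2,3,6]))) (.b [0,1,5,2,3,4]))))) (.n 2 3 (.n 2 5 (.r 2 3 5) (.n 2 7 (.r 2 3 7) (.n 1
    4 (.n 1 5 (.r 1 4 5) (.n 1 6 (.r 1 4 6) (.b [0,2,5,1,3,6]))) (.b [0,2,5,1,3,4])))) (.b
    [0,5,7,1,2,3]))))) (.n 0 4 (.n 0 5 (.r 0 4 5) (.n 0 6 (.r 0 4 6) (.n 1 4 (.n 1 5 (.r 1 4 5) (.n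
    1 6 (.r 1 4 6) (.n 2 5 (.n 2 3 (.r 2 3 5) (.b [0,2,3,1,5,6])) (.b [0,3,6,1,2,5])))) (.n 2 4 (.n
    2 5 (.r 2 4 5) (.n 2 6 (.r 2 4 6) (.n 1 3 (.n 1 5 (.r 1 3 5) (.b [0,3,6,1,2,5])) (.b
    [0,2,5,1,3,4])))) (.b [0,3,6,1,2,4]))))) (.n 1 5 (.n 1 3 (.r 1 3 5) (.n 1 4 (.r 1 4 5) (.n 2 5
    (.n 2 3 (.r 2 3 5) (.n 2 4 (.r 2 4 5) (.n 0 6 (.n 0 7 (.r 0 6 7) (.b [0,4,7,1,2,3])) (.b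
    [0,3,6,1,2,4])))) (.n 0 5 (.n 2 6 (.n 2 4 (.r 2 4 6) (.n 2 7 (.r 2 6 7) (.b [0,1,3,2,4,7]))) (.b
    [0,1,3,2,5,6])) (.b [0,2,5,1,3,4]))))) (.n 2 5 (.n 2 3 (.r 2 3 5) (.n 2 4 (.r 2 4 5) (.n 0 5 (.n
    1 6 (.n 1 4 (.r 1 4 6) (.n 1 7 (.r 1 6 7) (.b [0,2,3,1,4,7]))) (.b [0,2,3,1,5,6])) (.b
    [0,1,5,2,3,4])))) (.b [0,3,4,1,2,5])))))) (.b [0,1,2,5,6,7]))) (.n 4 7 (.n 6 7 (.r 4 6 7) (.n 5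
    6 (.n 0 3 (.n 0 5 (.r 0 3 5) (.n 0 7 (.r 0 3 7) (.n 1 3 (.n 1 5 (.r 1 3 5) (.n 1 7 (.r 1 3 7)
    (.n 2 3 (.n 2 5 (.r 2 3 5) (.n 2 7 (.r 2 3 7) (.n 2 4 (.n 2 6 (.r 2 4 6) (.b [0,1,5,2,6,7])) (.b
    [0,1,7,2,4,5])))) (.n 2 4 (.n 2 6 (.r 2 4 6) (.b [0,1,5,2,3,6])) (.b [0,1,5,2,3,4]))))) (.n 2 3
    (.n 2 5 (.r 2 3 5) (.n 2 7 (.r 2 3 7) (.n 1 4 (.n 1 6 (.r 1 4 6) (.b [0,2,5,1,3,6])) (.b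
    [0,2,5,1,3,4])))) (.b [0,5,7,1,2,3]))))) (.n 0 4 (.n 0 6 (.r 0 4 6) (.n 0 7 (.r 0 4 7) (.n 1 4
    (.n 1 6 (.r 1 4 6) (.n 1 7 (.r 1 4 7) (.n 2 7 (.n 2 3 (.r 2 3 7) (.b [0,2,3,1,6,7])) (.b
    [0,3,6,1,2,7])))) (.n 2 4 (.n 2 6 (.r 2 4 6) (.n 2 7 (.r 2 4 7) (.n 1 3 (.n 1 5 (.r 1 3 5) (.b
    [0,2,6,1,4,5])) (.b [0,2,6,1,3,4])))) (.b [0,3,6,1,2,4]))))) (.n 1 7 (.n 1 3 (.r 1 3 7) (.n 1 4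
    (.r 1 4 7) (.n 2 7 (.n 2 3 (.r 2 3 7) (.n 2 4 (.r 2 4 7) (.n 0 6 (.n 0 5 (.r 0 5 6) (.b
    [0,4,5,1,2,3])) (.b [0,3,6,1,2,4])))) (.n 0 7 (.n 2 5 (.n 2 3 (.r 2 3 5) (.n 2 6 (.r 2 5 6) (.b
    [0,1,4,2,3,6]))) (.b [0,1,3,2,5,7])) (.b [0,2,7,1,3,4]))))) (.n 2 7 (.n 2 3 (.r 2 3 7) (.n 2 4
    (.r 2 4 7) (.n 0 7 (.n 1 5 (.n 1 3 (.r 1 3 5) (.n 1 6 (.r 1 5 6) (.b [0,2,4,1,3,6]))) (.b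
    [0,2,3,1,5,7])) (.b [0,1,7,2,3,4])))) (.b [0,3,4,1,2,7]))))) (.b [0,1,2,5,6,7]))) (.b
    [0,1,2,4,5,7])))) (.n 4 7 (.n 6 7 (.r 4 6 7) (.b [0,1,2,3,6,7])) (.b [0,1,2,3,4,7]))) (.b
    [0,1,2,3,4,6]))) (.n 4 5 (.n 4 6 (.n 5 6 (.r 4 5 6) (.n 3 6 (.n 3 7 (.n 6 7 (.r 3 6 7) (.n 5 7
    (.n 4 7 (.r 4 5 7) (.n 0 3 (.n 0 6 (.r 0 3 6) (.n 0 7 (.r 0 3 7) (.n 1 3 (.n 1 6 (.r 1 3 6) (.n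
    1 7 (.r 1 3 7) (.n 2 3 (.n 2 6 (.r 2 3 6) (.n 2 7 (.r 2 3 7) (.n 0 4 (.n 0 5 (.r 0 4 5) (.b
    [0,5,6,1,2,7])) (.b [0,4,7,1,2,6])))) (.n 2 4 (.n 2 5 (.r 2 4 5) (.b [0,1,6,2,3,5])) (.b
    [0,1,6,2,3,4]))))) (.n 2 3 (.n 2 6 (.r 2 3 6) (.n 2 7 (.r 2 3 7) (.n 1 4 (.n 1 5 (.r 1 4 5) (.b
    [0,2,6,1,3,5])) (.b [0,2,6,1,3,4])))) (.b [0,6,7,1,2,3]))))) (.n 0 4 (.n 0 5 (.r 0 4 5) (.n 0 6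
    (.r 0 4 6) (.n 1 4 (.n 1 5 (.r 1 4 5) (.n 1 6 (.r 1 4 6) (.n 2 6 (.n 2 3 (.r 2 3 6) (.b
    [0,2,3,1,5,6])) (.b [0,3,5,1,2,6])))) (.n 2 4 (.n 2 5 (.r 2 4 5) (.n 2 6 (.r 2 4 6) (.n 1 3 (.n
    1 6 (.r 1 3 6) (.b [0,3,5,1,2,6])) (.b [0,2,5,1,3,4])))) (.b [0,3,5,1,2,4]))))) (.n 1 6 (.n 1 3
    (.r 1 3 6) (.n 1 4 (.r 1 4 6) (.n 2 6 (.n 2 3 (.r 2 3 6) (.n 2 4 (.r 2 4 6) (.n 0 5 (.n 0 7 (.r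
    0 5 7) (.b [0,4,7,1,2,3])) (.b [0,3,5,1,2,4])))) (.n 0 6 (.n 2 5 (.n 2 4 (.r 2 4 5) (.n 2 7 (.r
    2 5 7) (.b [0,1,3,2,4,7]))) (.b [0,1,3,2,5,6])) (.b [0,2,6,1,3,4]))))) (.n 2 6 (.n 2 3 (.r 2 3
    6) (.n 2 4 (.r 2 4 6) (.n 0 6 (.n 1 5 (.n 1 4 (.r 1 4 5) (.n 1 7 (.r 1 5 7) (.b [0,2,3,1,4,7])))
    (.b [0,2,3,1,5,6])) (.b [0,1,6,2,3,4])))) (.b [0,3,4,1,2,6])))))) (.b [0,1,2,5,6,7]))) (.n 4 7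
    (.n 5 7 (.r 4 5 7) (.b [0,1,2,3,5,7])) (.b [0,1,2,3,4,7]))) (.b [0,1,2,3,5,6]))) (.n 3 6 (.n 3 7
    (.n 6 7 (.r 3 6 7) (.n 4 7 (.n 5 7 (.r 4 5 7) (.n 5 6 (.n 0 3 (.n 0 6 (.r 0 3 6) (.n 0 7 (.r 0 3
    7) (.n 1 3 (.n 1 6 (.r 1 3 6) (.n 1 7 (.r 1 3 7) (.n 2 3 (.n 2 6 (.r 2 3 6) (.n 2 7 (.r 2 3 7)
    (.n 2 4 (.n 2 5 (.r 2 4 5) (.b [0,1,6,2,5,7])) (.b [0,1,7,2,4,6])))) (.n 2 4 (.n 2 5 (.r 2 4 5)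
    (.b [0,1,6,2,3,5])) (.b [0,1,6,2,3,4]))))) (.n 2 3 (.n 2 6 (.r 2 3 6) (.n 2 7 (.r 2 3 7) (.n 1 4
    (.n 1 5 (.r 1 4 5) (.b [0,2,6,1,3,5])) (.b [0,2,6,1,3,4])))) (.b [0,6,7,1,2,3]))))) (.n 0 4 (.n
    0 5 (.r 0 4 5) (.n 0 7 (.r 0 4 7) (.n 1 4 (.n 1 5 (.r 1 4 5) (.n 1 7 (.r 1 4 7) (.n 2 7 (.n 2 3
    (.r 2 3 7) (.b [0,2,3,1,5,7])) (.b [0,3,5,1,2,7])))) (.n 2 4 (.n 2 5 (.r 2 4 5) (.n 2 7 (.r 2 4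
    7) (.n 1 3 (.n 1 6 (.r 1 3 6) (.b [0,2,5,1,4,6])) (.b [0,2,5,1,3,4])))) (.b [0,3,5,1,2,4])))))
    (.n 1 7 (.n 1 3 (.r 1 3 7) (.n 1 4 (.r 1 4 7) (.n 2 7 (.n 2 3 (.r 2 3 7) (.n 2 4 (.r 2 4 7) (.n
    0 5 (.n 0 6 (.r 0 5 6) (.b [0,4,6,1,2,3])) (.b [0,3,5,1,2,4])))) (.n 0 7 (.n 2 5 (.n 2 4 (.r 2 4
    5) (.n 2 6 (.r 2 5 6) (.b [0,1,3,2,4,6]))) (.b [0,1,3,2,5,7])) (.b [0,2,7,1,3,4]))))) (.n 2 7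
    (.n 2 3 (.r 2 3 7) (.n 2 4 (.r 2 4 7) (.n 0 7 (.n 1 5 (.n 1 4 (.r 1 4 5) (.n 1 6 (.r 1 5 6) (.b
    [0,2,3,1,4,6]))) (.b [0,2,3,1,5,7])) (.b [0,1,7,2,3,4])))) (.b [0,3,4,1,2,7]))))) (.b
    [0,1,2,5,6,7]))) (.b [0,1,2,4,6,7]))) (.n 4 7 (.n 5 7 (.r 4 5 7) (.b [0,1,2,3,5,7])) (.b
    [0,1,2,3,4,7]))) (.b [0,1,2,3,4,6]))) (.b [0,1,2,3,4,5]))))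

def tr4 : Tr :=
    (.n 4 5 (.n 6 7 (.n 4 8 (.n 5 8 (.r 4 5 8) (.n 5 6 (.n 4 6 (.r 4 5 6) (.n 5 7 (.r 5 6 7) (.n 7 8
    (.n 4 7 (.r 4 7 8) (.n 6 8 (.r 6 7 8) (.n 0 4 (.n 0 5 (.r 0 4 5) (.n 0 8 (.r 0 4 8) (.n 1 4 (.n
    1 5 (.r 1 4 5) (.n 1 8 (.r 1 4 8) (.n 2 4 (.n 2 5 (.r 2 4 5) (.n 2 8 (.r 2 4 8) (.n 3 6 (.n 3 5
    (.r 3 5 6) (.n 3 7 (.r 3 6 7) (.b [0,1,2,8,3,5,7]))) (.n 3 4 (.n 3 5 (.r 3 4 5) (.n 3 8 (.r 3 4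
    8) (.b [0,1,2,5,3,6,8]))) (.b [0,1,2,5,3,4,6]))))) (.n 3 4 (.n 3 5 (.r 3 4 5) (.n 3 8 (.r 3 4 8)
    (.n 2 6 (.n 2 5 (.r 2 5 6) (.n 2 7 (.r 2 6 7) (.b [0,1,3,5,2,4,7]))) (.b [0,1,3,5,2,4,6])))) (.b
    [0,1,5,8,2,3,4]))))) (.n 2 4 (.n 2 5 (.r 2 4 5) (.n 2 8 (.r 2 4 8) (.n 3 4 (.n 3 5 (.r 3 4 5)
    (.n 3 8 (.r 3 4 8) (.n 1 6 (.n 1 5 (.r 1 5 6) (.n 1 7 (.r 1 6 7) (.b [0,2,3,5,1,4,7]))) (.b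
    [0,2,3,5,1,4,6])))) (.b [0,2,5,8,1,3,4])))) (.n 3 4 (.n 3 5 (.r 3 4 5) (.n 3 8 (.r 3 4 8) (.b
    [0,3,5,8,1,2,4]))) (.b [1,2,3,4,0,5,8])))))) (.n 1 4 (.n 1 5 (.r 1 4 5) (.n 1 8 (.r 1 4 8) (.n 2
    4 (.n 2 5 (.r 2 4 5) (.n 2 8 (.r 2 4 8) (.n 3 4 (.n 3 5 (.r 3 4 5) (.n 3 8 (.r 3 4 8) (.n 0 6
    (.n 0 5 (.r 0 5 6) (.n 0 7 (.r 0 6 7) (.b [1,2,3,5,0,4,7]))) (.b [1,2,3,5,0,4,6])))) (.b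
    [1,2,5,8,0,3,4])))) (.n 3 4 (.n 3 5 (.r 3 4 5) (.n 3 8 (.r 3 4 8) (.b [1,3,5,8,0,2,4]))) (.b
    [0,2,3,4,1,5,8]))))) (.n 2 4 (.n 2 5 (.r 2 4 5) (.n 2 8 (.r 2 4 8) (.n 3 4 (.n 3 5 (.r 3 4 5)
    (.n 3 8 (.r 3 4 8) (.b [2,3,5,8,0,1,4]))) (.b [0,1,3,4,2,5,8])))) (.n 3 5 (.n 3 4 (.r 3 4 5) (.n
    3 6 (.r 3 5 6) (.n 3 8 (.n 3 7 (.r 3 7 8) (.n 0 6 (.n 0 5 (.r 0 5 6) (.n 0 7 (.r 0 6 7) (.b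
    [1,2,3,4,0,5,7]))) (.n 0 8 (.n 0 7 (.r 0 7 8) (.n 0 5 (.n 1 6 (.n 1 5 (.r 1 5 6) (.n 1 7 (.r 1 6
    7) (.b [0,2,3,4,1,5,7]))) (.n 2 7 (.n 2 6 (.r 2 6 7) (.b [1,2,4,6,0,3,7])) (.b
    [1,3,4,6,0,2,7]))) (.b [1,2,3,4,0,5,7]))) (.b [1,2,3,4,0,6,8])))) (.b [0,1,2,4,3,6,8])))) (.n 3
    7 (.n 3 6 (.r 3 6 7) (.n 3 8 (.r 3 7 8) (.b [0,1,2,4,3,5,8]))) (.b [0,1,2,4,3,5,7])))))))) (.b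
    [0,1,2,3,5,7,8])))) (.n 6 8 (.n 4 6 (.r 4 6 8) (.n 7 8 (.r 6 7 8) (.n 5 7 (.n 4 7 (.r 4 5 7) (.n
    0 4 (.n 0 5 (.r 0 4 5) (.n 0 8 (.r 0 4 8) (.n 1 4 (.n 1 5 (.r 1 4 5) (.n 1 8 (.r 1 4 8) (.n 2 4
    (.n 2 5 (.r 2 4 5) (.n 2 8 (.r 2 4 8) (.n 3 6 (.n 3 7 (.r 3 6 7) (.n 3 8 (.r 3 6 8) (.b
    [0,1,2,5,3,7,8]))) (.n 3 4 (.n 3 5 (.r 3 4 5) (.b [0,1,2,8,3,5,6])) (.b [0,1,2,5,3,4,6]))))) (.n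
    3 4 (.n 3 5 (.r 3 4 5) (.n 3 8 (.r 3 4 8) (.n 2 6 (.n 2 7 (.r 2 6 7) (.b [0,1,3,5,2,4,7])) (.b
    [0,1,3,5,2,4,6])))) (.b [0,1,5,8,2,3,4]))))) (.n 2 4 (.n 2 5 (.r 2 4 5) (.n 2 8 (.r 2 4 8) (.n 3
    4 (.n 3 5 (.r 3 4 5) (.n 3 8 (.r 3 4 8) (.n 1 6 (.n 1 7 (.r 1 6 7) (.b [0,2,3,5,1,4,7])) (.b
    [0,2,3,5,1,4,6])))) (.b [0,2,5,8,1,3,4])))) (.n 3 4 (.n 3 5 (.r 3 4 5) (.n 3 8 (.r 3 4 8) (.b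
    [0,3,5,8,1,2,4]))) (.b [1,2,3,4,0,5,8])))))) (.n 1 4 (.n 1 5 (.r 1 4 5) (.n 1 8 (.r 1 4 8) (.n 2
    4 (.n 2 5 (.r 2 4 5) (.n 2 8 (.r 2 4 8) (.n 3 4 (.n 3 5 (.r 3 4 5) (.n 3 8 (.r 3 4 8) (.n 0 6
    (.n 0 7 (.r 0 6 7) (.b [1,2,3,5,0,4,7])) (.b [1,2,3,5,0,4,6])))) (.b [1,2,5,8,0,3,4])))) (.n 3 4
    (.n 3 5 (.r 3 4 5) (.n 3 8 (.r 3 4 8) (.b [1,3,5,8,0,2,4]))) (.b [0,2,3,4,1,5,8]))))) (.n 2 4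
    (.n 2 5 (.r 2 4 5) (.n 2 8 (.r 2 4 8) (.n 3 4 (.n 3 5 (.r 3 4 5) (.n 3 8 (.r 3 4 8) (.b
    [2,3,5,8,0,1,4]))) (.b [0,1,3,4,2,5,8])))) (.n 3 5 (.n 3 4 (.r 3 4 5) (.n 3 7 (.r 3 5 7) (.n 3 8
    (.n 3 6 (.r 3 6 8) (.n 0 6 (.n 0 7 (.r 0 6 7) (.n 0 8 (.r 0 6 8) (.b [1,2,3,4,0,7,8]))) (.n 0 5
    (.n 0 7 (.r 0 5 7) (.n 0 8 (.n 1 6 (.n 1 7 (.r 1 6 7) (.n 1 8 (.r 1 6 8) (.b [0,2,3,4,1,7,8])))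
    (.n 2 7 (.n 2 5 (.r 2 5 7) (.n 2 6 (.r 2 6 7) (.b [1,2,4,6,0,3,7]))) (.b [1,3,4,6,0,2,7]))) (.b
    [1,2,3,4,0,7,8]))) (.b [1,2,3,4,0,5,6])))) (.b [0,1,2,4,3,7,8])))) (.n 3 6 (.n 3 7 (.r 3 6 7)
    (.n 3 8 (.r 3 6 8) (.b [0,1,2,4,3,5,8]))) (.b [0,1,2,4,3,5,6]))))))) (.b [0,1,2,3,5,7,8])))) (.b
    [0,1,2,3,5,6,8])))) (.n 4 6 (.n 5 6 (.r 4 5 6) (.n 4 7 (.r 4 6 7) (.n 7 8 (.n 6 8 (.r 6 7 8) (.n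
    5 8 (.n 5 7 (.r 5 7 8) (.n 0 4 (.n 0 5 (.r 0 4 5) (.n 0 6 (.r 0 4 6) (.n 1 4 (.n 1 5 (.r 1 4 5)
    (.n 1 6 (.r 1 4 6) (.n 2 4 (.n 2 5 (.r 2 4 5) (.n 2 6 (.r 2 4 6) (.n 3 7 (.n 3 6 (.r 3 6 7) (.n
    3 8 (.r 3 7 8) (.b [0,1,2,5,3,6,8]))) (.n 3 4 (.n 3 5 (.r 3 4 5) (.b [0,1,2,6,3,5,7])) (.b
    [0,1,2,5,3,4,7]))))) (.n 3 4 (.n 3 5 (.r 3 4 5) (.n 3 6 (.r 3 4 6) (.n 2 7 (.n 2 6 (.r 2 6 7)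
    (.n 2 8 (.r 2 7 8) (.b [0,1,3,5,2,4,8]))) (.b [0,1,3,5,2,4,7])))) (.b [0,1,5,6,2,3,4]))))) (.n 2
    4 (.n 2 5 (.r 2 4 5) (.n 2 6 (.r 2 4 6) (.n 3 4 (.n 3 5 (.r 3 4 5) (.n 3 6 (.r 3 4 6) (.n 1 7
    (.n 1 6 (.r 1 6 7) (.n 1 8 (.r 1 7 8) (.b [0,2,3,5,1,4,8]))) (.b [0,2,3,5,1,4,7])))) (.b
    [0,2,5,6,1,3,4])))) (.n 3 4 (.n 3 5 (.r 3 4 5) (.n 3 6 (.r 3 4 6) (.b [0,3,5,6,1,2,4]))) (.b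
    [1,2,3,4,0,5,6])))))) (.n 1 4 (.n 1 5 (.r 1 4 5) (.n 1 6 (.r 1 4 6) (.n 2 4 (.n 2 5 (.r 2 4 5)
    (.n 2 6 (.r 2 4 6) (.n 3 4 (.n 3 5 (.r 3 4 5) (.n 3 6 (.r 3 4 6) (.n 0 7 (.n 0 6 (.r 0 6 7) (.n
    0 8 (.r 0 7 8) (.b [1,2,3,5,0,4,8]))) (.b [1,2,3,5,0,4,7])))) (.b [1,2,5,6,0,3,4])))) (.n 3 4
    (.n 3 5 (.r 3 4 5) (.n 3 6 (.r 3 4 6) (.b [1,3,5,6,0,2,4]))) (.b [0,2,3,4,1,5,6]))))) (.n 2 4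
    (.n 2 5 (.r 2 4 5) (.n 2 6 (.r 2 4 6) (.n 3 4 (.n 3 5 (.r 3 4 5) (.n 3 6 (.r 3 4 6) (.b
    [2,3,5,6,0,1,4]))) (.b [0,1,3,4,2,5,6])))) (.n 3 5 (.n 3 4 (.r 3 4 5) (.n 3 8 (.r 3 5 8) (.n 3 6
    (.n 3 7 (.r 3 6 7) (.n 0 7 (.n 0 6 (.r 0 6 7) (.n 0 8 (.r 0 7 8) (.b [1,2,3,4,0,6,8]))) (.n 0 5
    (.n 0 8 (.r 0 5 8) (.n 0 6 (.n 1 7 (.n 1 6 (.r 1 6 7) (.n 1 8 (.r 1 7 8) (.b [0,2,3,4,1,6,8])))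
    (.n 2 8 (.n 2 5 (.r 2 5 8) (.n 2 7 (.r 2 7 8) (.b [1,2,4,7,0,3,8]))) (.b [1,3,4,7,0,2,8]))) (.b
    [1,2,3,4,0,6,8]))) (.b [1,2,3,4,0,5,7])))) (.b [0,1,2,4,3,6,8])))) (.n 3 6 (.n 3 4 (.r 3 4 6)
    (.n 3 7 (.r 3 6 7) (.b [0,1,2,4,3,5,7]))) (.b [0,1,2,4,3,5,6]))))))) (.b [0,1,2,3,5,6,8]))) (.b
    [0,1,2,3,4,7,8])))) (.n 6 8 (.n 7 8 (.r 6 7 8) (.n 4 7 (.n 5 7 (.r 4 5 7) (.n 5 8 (.n 5 6 (.r 5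
    6 8) (.n 0 4 (.n 0 5 (.r 0 4 5) (.n 0 7 (.r 0 4 7) (.n 1 4 (.n 1 5 (.r 1 4 5) (.n 1 7 (.r 1 4 7)
    (.n 2 4 (.n 2 5 (.r 2 4 5) (.n 2 7 (.r 2 4 7) (.n 3 6 (.n 3 7 (.r 3 6 7) (.n 3 8 (.r 3 6 8) (.b
    [0,1,2,5,3,7,8]))) (.n 3 4 (.n 3 5 (.r 3 4 5) (.b [0,1,2,7,3,5,6])) (.b [0,1,2,5,3,4,6]))))) (.n
    3 4 (.n 3 5 (.r 3 4 5) (.n 3 7 (.r 3 4 7) (.n 2 6 (.n 2 7 (.r 2 6 7) (.n 2 8 (.r 2 6 8) (.b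
    [0,1,3,5,2,4,8]))) (.b [0,1,3,5,2,4,6])))) (.b [0,1,5,7,2,3,4]))))) (.n 2 4 (.n 2 5 (.r 2 4 5)
    (.n 2 7 (.r 2 4 7) (.n 3 4 (.n 3 5 (.r 3 4 5) (.n 3 7 (.r 3 4 7) (.n 1 6 (.n 1 7 (.r 1 6 7) (.n
    1 8 (.r 1 6 8) (.b [0,2,3,5,1,4,8]))) (.b [0,2,3,5,1,4,6])))) (.b [0,2,5,7,1,3,4])))) (.n 3 4
    (.n 3 5 (.r 3 4 5) (.n 3 7 (.r 3 4 7) (.b [0,3,5,7,1,2,4]))) (.b [1,2,3,4,0,5,7])))))) (.n 1 4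
    (.n 1 5 (.r 1 4 5) (.n 1 7 (.r 1 4 7) (.n 2 4 (.n 2 5 (.r 2 4 5) (.n 2 7 (.r 2 4 7) (.n 3 4 (.n
    3 5 (.r 3 4 5) (.n 3 7 (.r 3 4 7) (.n 0 6 (.n 0 7 (.r 0 6 7) (.n 0 8 (.r 0 6 8) (.b
    [1,2,3,5,0,4,8]))) (.b [1,2,3,5,0,4,6])))) (.b [1,2,5,7,0,3,4])))) (.n 3 4 (.n 3 5 (.r 3 4 5)
    (.n 3 7 (.r 3 4 7) (.b [1,3,5,7,0,2,4]))) (.b [0,2,3,4,1,5,7]))))) (.n 2 4 (.n 2 5 (.r 2 4 5)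
    (.n 2 7 (.r 2 4 7) (.n 3 4 (.n 3 5 (.r 3 4 5) (.n 3 7 (.r 3 4 7) (.b [2,3,5,7,0,1,4]))) (.b
    [0,1,3,4,2,5,7])))) (.n 3 5 (.n 3 4 (.r 3 4 5) (.n 3 8 (.r 3 5 8) (.n 3 7 (.n 3 6 (.r 3 6 7) (.n
    0 6 (.n 0 7 (.r 0 6 7) (.n 0 8 (.r 0 6 8) (.b [1,2,3,4,0,7,8]))) (.n 0 5 (.n 0 8 (.r 0 5 8) (.n
    0 7 (.n 1 6 (.n 1 7 (.r 1 6 7) (.n 1 8 (.r 1 6 8) (.b [0,2,3,4,1,7,8]))) (.n 2 8 (.n 2 5 (.r 2 5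
    8) (.n 2 6 (.r 2 6 8) (.b [1,2,4,6,0,3,8]))) (.b [1,3,4,6,0,2,8]))) (.b [1,2,3,4,0,7,8]))) (.b
    [1,2,3,4,0,5,6])))) (.b [0,1,2,4,3,7,8])))) (.n 3 6 (.n 3 7 (.r 3 6 7) (.b [0,1,2,4,3,5,7])) (.b
    [0,1,2,4,3,5,6]))))))) (.b [0,1,2,3,5,7,8]))) (.b [0,1,2,3,4,7,8]))) (.b [0,1,2,3,4,6,8])))) (.n
    4 6 (.n 5 6 (.r 4 5 6) (.n 5 7 (.n 4 7 (.r 4 5 7) (.n 6 8 (.n 4 8 (.r 4 6 8) (.n 7 8 (.n 5 8 (.r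
    5 7 8) (.n 0 4 (.n 0 5 (.r 0 4 5) (.n 0 6 (.r 0 4 6) (.n 1 4 (.n 1 5 (.r 1 4 5) (.n 1 6 (.r 1 4
    6) (.n 2 4 (.n 2 5 (.r 2 4 5) (.n 2 6 (.r 2 4 6) (.n 3 7 (.n 3 5 (.r 3 5 7) (.n 3 8 (.r 3 7 8)
    (.b [0,1,2,6,3,5,8]))) (.n 3 4 (.n 3 5 (.r 3 4 5) (.n 3 6 (.r 3 4 6) (.b [0,1,2,5,3,6,7]))) (.b
    [0,1,2,5,3,4,7]))))) (.n 3 4 (.n 3 5 (.r 3 4 5) (.n 3 6 (.r 3 4 6) (.n 2 7 (.n 2 5 (.r 2 5 7)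
    (.n 2 8 (.r 2 7 8) (.b [0,1,3,5,2,4,8]))) (.b [0,1,3,5,2,4,7])))) (.b [0,1,5,6,2,3,4]))))) (.n 2
    4 (.n 2 5 (.r 2 4 5) (.n 2 6 (.r 2 4 6) (.n 3 4 (.n 3 5 (.r 3 4 5) (.n 3 6 (.r 3 4 6) (.n 1 7
    (.n 1 5 (.r 1 5 7) (.n 1 8 (.r 1 7 8) (.b [0,2,3,5,1,4,8]))) (.b [0,2,3,5,1,4,7])))) (.b
    [0,2,5,6,1,3,4])))) (.n 3 4 (.n 3 5 (.r 3 4 5) (.n 3 6 (.r 3 4 6) (.b [0,3,5,6,1,2,4]))) (.b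
    [1,2,3,4,0,5,6])))))) (.n 1 4 (.n 1 5 (.r 1 4 5) (.n 1 6 (.r 1 4 6) (.n 2 4 (.n 2 5 (.r 2 4 5)
    (.n 2 6 (.r 2 4 6) (.n 3 4 (.n 3 5 (.r 3 4 5) (.n 3 6 (.r 3 4 6) (.n 0 7 (.n 0 5 (.r 0 5 7) (.n
    0 8 (.r 0 7 8) (.b [1,2,3,5,0,4,8]))) (.b [1,2,3,5,0,4,7])))) (.b [1,2,5,6,0,3,4])))) (.n 3 4
    (.n 3 5 (.r 3 4 5) (.n 3 6 (.r 3 4 6) (.b [1,3,5,6,0,2,4]))) (.b [0,2,3,4,1,5,6]))))) (.n 2 4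
    (.n 2 5 (.r 2 4 5) (.n 2 6 (.r 2 4 6) (.n 3 4 (.n 3 5 (.r 3 4 5) (.n 3 6 (.r 3 4 6) (.b
    [2,3,5,6,0,1,4]))) (.b [0,1,3,4,2,5,6])))) (.n 3 5 (.n 3 4 (.r 3 4 5) (.n 3 7 (.r 3 5 7) (.n 3 6
    (.n 3 8 (.r 3 6 8) (.n 0 7 (.n 0 5 (.r 0 5 7) (.n 0 8 (.r 0 7 8) (.b [1,2,3,4,0,5,8]))) (.n 0 6
    (.n 0 8 (.r 0 6 8) (.n 0 5 (.n 1 7 (.n 1 5 (.r 1 5 7) (.n 1 8 (.r 1 7 8) (.b [0,2,3,4,1,5,8])))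
    (.n 2 8 (.n 2 6 (.r 2 6 8) (.n 2 7 (.r 2 7 8) (.b [1,2,4,7,0,3,8]))) (.b [1,3,4,7,0,2,8]))) (.b
    [1,2,3,4,0,5,8]))) (.b [1,2,3,4,0,6,7])))) (.b [0,1,2,4,3,6,7])))) (.n 3 6 (.n 3 4 (.r 3 4 6)
    (.n 3 8 (.r 3 6 8) (.b [0,1,2,4,3,5,8]))) (.b [0,1,2,4,3,5,6]))))))) (.b [0,1,2,3,4,7,8]))) (.n
    5 8 (.n 4 8 (.r 4 5 8) (.n 7 8 (.r 5 7 8) (.b [0,1,2,3,4,7,8]))) (.b [0,1,2,3,5,6,8])))) (.b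
    [0,1,2,3,5,6,7]))) (.n 4 7 (.n 5 7 (.r 4 5 7) (.n 5 6 (.n 6 8 (.n 5 8 (.r 5 6 8) (.n 7 8 (.n 4 8
    (.r 4 7 8) (.n 0 4 (.n 0 5 (.r 0 4 5) (.n 0 7 (.r 0 4 7) (.n 1 4 (.n 1 5 (.r 1 4 5) (.n 1 7 (.r
    1 4 7) (.n 2 4 (.n 2 5 (.r 2 4 5) (.n 2 7 (.r 2 4 7) (.n 3 6 (.n 3 5 (.r 3 5 6) (.n 3 8 (.r 3 6
    8) (.b [0,1,2,7,3,5,8]))) (.n 3 4 (.n 3 5 (.r 3 4 5) (.n 3 7 (.r 3 4 7) (.b [0,1,2,5,3,6,7])))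
    (.b [0,1,2,5,3,4,6]))))) (.n 3 4 (.n 3 5 (.r 3 4 5) (.n 3 7 (.r 3 4 7) (.n 2 6 (.n 2 5 (.r 2 5
    6) (.n 2 8 (.r 2 6 8) (.b [0,1,3,5,2,4,8]))) (.b [0,1,3,5,2,4,6])))) (.b [0,1,5,7,2,3,4])))))
    (.n 2 4 (.n 2 5 (.r 2 4 5) (.n 2 7 (.r 2 4 7) (.n 3 4 (.n 3 5 (.r 3 4 5) (.n 3 7 (.r 3 4 7) (.n
    1 6 (.n 1 5 (.r 1 5 6) (.n 1 8 (.r 1 6 8) (.b [0,2,3,5,1,4,8]))) (.b [0,2,3,5,1,4,6])))) (.b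
    [0,2,5,7,1,3,4])))) (.n 3 4 (.n 3 5 (.r 3 4 5) (.n 3 7 (.r 3 4 7) (.b [0,3,5,7,1,2,4]))) (.b
    [1,2,3,4,0,5,7])))))) (.n 1 4 (.n 1 5 (.r 1 4 5) (.n 1 7 (.r 1 4 7) (.n 2 4 (.n 2 5 (.r 2 4 5)
    (.n 2 7 (.r 2 4 7) (.n 3 4 (.n 3 5 (.r 3 4 5) (.n 3 7 (.r 3 4 7) (.n 0 6 (.n 0 5 (.r 0 5 6) (.n
    0 8 (.r 0 6 8) (.b [1,2,3,5,0,4,8]))) (.b [1,2,3,5,0,4,6])))) (.b [1,2,5,7,0,3,4])))) (.n 3 4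
    (.n 3 5 (.r 3 4 5) (.n 3 7 (.r 3 4 7) (.b [1,3,5,7,0,2,4]))) (.b [0,2,3,4,1,5,7]))))) (.n 2 4
    (.n 2 5 (.r 2 4 5) (.n 2 7 (.r 2 4 7) (.n 3 4 (.n 3 5 (.r 3 4 5) (.n 3 7 (.r 3 4 7) (.b
    [2,3,5,7,0,1,4]))) (.b [0,1,3,4,2,5,7])))) (.n 3 5 (.n 3 4 (.r 3 4 5) (.n 3 6 (.r 3 5 6) (.n 3 7
    (.n 3 8 (.r 3 7 8) (.n 0 6 (.n 0 5 (.r 0 5 6) (.n 0 8 (.r 0 6 8) (.b [1,2,3,4,0,5,8]))) (.n 0 7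
    (.n 0 8 (.r 0 7 8) (.n 0 5 (.n 1 6 (.n 1 5 (.r 1 5 6) (.n 1 8 (.r 1 6 8) (.b [0,2,3,4,1,5,8])))
    (.n 2 8 (.n 2 6 (.r 2 6 8) (.b [1,2,4,6,0,3,8])) (.b [1,3,4,6,0,2,8]))) (.b [1,2,3,4,0,5,8])))
    (.b [1,2,3,4,0,6,7])))) (.b [0,1,2,4,3,6,7])))) (.n 3 7 (.n 3 4 (.r 3 4 7) (.n 3 8 (.r 3 7 8)
    (.b [0,1,2,4,3,5,8]))) (.b [0,1,2,4,3,5,7]))))))) (.b [0,1,2,3,5,7,8]))) (.n 4 8 (.n 5 8 (.r 4 5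
    8) (.n 7 8 (.r 4 7 8) (.b [0,1,2,3,5,7,8]))) (.b [0,1,2,3,4,6,8]))) (.b [0,1,2,3,5,6,7]))) (.b
    [0,1,2,3,4,6,7])))) (.n 4 6 (.n 4 7 (.n 6 7 (.r 4 6 7) (.n 4 8 (.n 6 8 (.r 4 6 8) (.n 7 8 (.r 4
    7 8) (.b [0,1,2,3,6,7,8]))) (.n 5 8 (.n 5 6 (.n 6 8 (.r 5 6 8) (.n 7 8 (.n 5 7 (.r 5 7 8) (.n 0
    4 (.n 0 6 (.r 0 4 6) (.n 0 7 (.r 0 4 7) (.n 1 4 (.n 1 6 (.r 1 4 6) (.n 1 7 (.r 1 4 7) (.n 2 4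
    (.n 2 6 (.r 2 4 6) (.n 2 7 (.r 2 4 7) (.n 3 5 (.n 3 6 (.r 3 5 6) (.n 3 8 (.r 3 5 8) (.b
    [0,1,2,7,3,6,8]))) (.n 3 4 (.n 3 6 (.r 3 4 6) (.n 3 7 (.r 3 4 7) (.b [0,1,2,6,3,5,7]))) (.b
    [0,1,2,6,3,4,5]))))) (.n 3 4 (.n 3 6 (.r 3 4 6) (.n 3 7 (.r 3 4 7) (.n 2 5 (.n 2 6 (.r 2 5 6)
    (.n 2 8 (.r 2 5 8) (.b [0,1,3,6,2,4,8]))) (.b [0,1,3,6,2,4,5])))) (.b [0,1,6,7,2,3,4]))))) (.n 2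
    4 (.n 2 6 (.r 2 4 6) (.n 2 7 (.r 2 4 7) (.n 3 4 (.n 3 6 (.r 3 4 6) (.n 3 7 (.r 3 4 7) (.n 1 5
    (.n 1 6 (.r 1 5 6) (.n 1 8 (.r 1 5 8) (.b [0,2,3,6,1,4,8]))) (.b [0,2,3,6,1,4,5])))) (.b
    [0,2,6,7,1,3,4])))) (.n 3 4 (.n 3 6 (.r 3 4 6) (.n 3 7 (.r 3 4 7) (.b [0,3,6,7,1,2,4]))) (.b
    [1,2,3,4,0,6,7])))))) (.n 1 4 (.n 1 6 (.r 1 4 6) (.n 1 7 (.r 1 4 7) (.n 2 4 (.n 2 6 (.r 2 4 6)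
    (.n 2 7 (.r 2 4 7) (.n 3 4 (.n 3 6 (.r 3 4 6) (.n 3 7 (.r 3 4 7) (.n 0 5 (.n 0 6 (.r 0 5 6) (.n
    0 8 (.r 0 5 8) (.b [1,2,3,6,0,4,8]))) (.b [1,2,3,6,0,4,5])))) (.b [1,2,6,7,0,3,4])))) (.n 3 4
    (.n 3 6 (.r 3 4 6) (.n 3 7 (.r 3 4 7) (.b [1,3,6,7,0,2,4]))) (.b [0,2,3,4,1,6,7]))))) (.n 2 4
    (.n 2 6 (.r 2 4 6) (.n 2 7 (.r 2 4 7) (.n 3 4 (.n 3 6 (.r 3 4 6) (.n 3 7 (.r 3 4 7) (.b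
    [2,3,6,7,0,1,4]))) (.b [0,1,3,4,2,6,7])))) (.n 3 6 (.n 3 4 (.r 3 4 6) (.n 3 5 (.r 3 5 6) (.n 3 7
    (.n 3 8 (.r 3 7 8) (.n 0 5 (.n 0 6 (.r 0 5 6) (.n 0 8 (.r 0 5 8) (.b [1,2,3,4,0,6,8]))) (.n 0 7
    (.n 0 8 (.r 0 7 8) (.n 0 6 (.n 1 5 (.n 1 6 (.r 1 5 6) (.n 1 8 (.r 1 5 8) (.b [0,2,3,4,1,6,8])))
    (.n 2 8 (.n 2 5 (.r 2 5 8) (.b [1,2,4,5,0,3,8])) (.b [1,3,4,5,0,2,8]))) (.b [1,2,3,4,0,6,8])))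
    (.b [1,2,3,4,0,5,7])))) (.b [0,1,2,4,3,5,7])))) (.n 3 7 (.n 3 4 (.r 3 4 7) (.n 3 8 (.r 3 7 8)
    (.b [0,1,2,4,3,6,8]))) (.b [0,1,2,4,3,6,7]))))))) (.b [0,1,2,3,6,7,8]))) (.n 5 7 (.n 7 8 (.r 5 7
    8) (.n 6 8 (.n 0 4 (.n 0 6 (.r 0 4 6) (.n 0 7 (.r 0 4 7) (.n 1 4 (.n 1 6 (.r 1 4 6) (.n 1 7 (.r
    1 4 7) (.n 2 4 (.n 2 6 (.r 2 4 6) (.n 2 7 (.r 2 4 7) (.n 3 5 (.n 3 7 (.r 3 5 7) (.n 3 8 (.r 3 5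
    8) (.b [0,1,2,6,3,7,8]))) (.n 3 4 (.n 3 6 (.r 3 4 6) (.b [0,1,2,7,3,5,6])) (.b
    [0,1,2,6,3,4,5]))))) (.n 3 4 (.n 3 6 (.r 3 4 6) (.n 3 7 (.r 3 4 7) (.n 2 5 (.n 2 7 (.r 2 5 7)
    (.n 2 8 (.r 2 5 8) (.b [0,1,3,6,2,4,8]))) (.b [0,1,3,6,2,4,5])))) (.b [0,1,6,7,2,3,4]))))) (.n 2
    4 (.n 2 6 (.r 2 4 6) (.n 2 7 (.r 2 4 7) (.n 3 4 (.n 3 6 (.r 3 4 6) (.n 3 7 (.r 3 4 7) (.n 1 5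
    (.n 1 7 (.r 1 5 7) (.n 1 8 (.r 1 5 8) (.b [0,2,3,6,1,4,8]))) (.b [0,2,3,6,1,4,5])))) (.b
    [0,2,6,7,1,3,4])))) (.n 3 4 (.n 3 6 (.r 3 4 6) (.n 3 7 (.r 3 4 7) (.b [0,3,6,7,1,2,4]))) (.b
    [1,2,3,4,0,6,7])))))) (.n 1 4 (.n 1 6 (.r 1 4 6) (.n 1 7 (.r 1 4 7) (.n 2 4 (.n 2 6 (.r 2 4 6)
    (.n 2 7 (.r 2 4 7) (.n 3 4 (.n 3 6 (.r 3 4 6) (.n 3 7 (.r 3 4 7) (.n 0 5 (.n 0 7 (.r 0 5 7) (.n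
    0 8 (.r 0 5 8) (.b [1,2,3,6,0,4,8]))) (.b [1,2,3,6,0,4,5])))) (.b [1,2,6,7,0,3,4])))) (.n 3 4
    (.n 3 6 (.r 3 4 6) (.n 3 7 (.r 3 4 7) (.b [1,3,6,7,0,2,4]))) (.b [0,2,3,4,1,6,7]))))) (.n 2 4
    (.n 2 6 (.r 2 4 6) (.n 2 7 (.r 2 4 7) (.n 3 4 (.n 3 6 (.r 3 4 6) (.n 3 7 (.r 3 4 7) (.b
    [2,3,6,7,0,1,4]))) (.b [0,1,3,4,2,6,7])))) (.n 3 6 (.n 3 4 (.r 3 4 6) (.n 3 8 (.r 3 6 8) (.n 3 7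
    (.n 3 5 (.r 3 5 7) (.n 0 5 (.n 0 7 (.r 0 5 7) (.n 0 8 (.r 0 5 8) (.b [1,2,3,4,0,7,8]))) (.n 0 6
    (.n 0 8 (.r 0 6 8) (.n 0 7 (.n 1 5 (.n 1 7 (.r 1 5 7) (.n 1 8 (.r 1 5 8) (.b [0,2,3,4,1,7,8])))
    (.n 2 8 (.n 2 5 (.r 2 5 8) (.b [1,2,4,5,0,3,8])) (.b [1,3,4,5,0,2,8]))) (.b [1,2,3,4,0,7,8])))
    (.b [1,2,3,4,0,5,6])))) (.b [0,1,2,4,3,7,8])))) (.n 3 5 (.n 3 7 (.r 3 5 7) (.b [0,1,2,4,3,6,7]))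
    (.b [0,1,2,4,3,5,6])))))) (.b [0,1,2,3,6,7,8]))) (.b [0,1,2,3,5,6,7]))) (.b [0,1,2,3,4,5,8]))))
    (.n 5 7 (.n 4 8 (.n 6 8 (.r 4 6 8) (.n 5 6 (.n 6 7 (.r 5 6 7) (.n 7 8 (.n 5 8 (.r 5 7 8) (.n 0 4
    (.n 0 6 (.r 0 4 6) (.n 0 8 (.r 0 4 8) (.n 1 4 (.n 1 6 (.r 1 4 6) (.n 1 8 (.r 1 4 8) (.n 2 4 (.n
    2 6 (.r 2 4 6) (.n 2 8 (.r 2 4 8) (.n 3 5 (.n 3 6 (.r 3 5 6) (.n 3 7 (.r 3 5 7) (.b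
    [0,1,2,8,3,6,7]))) (.n 3 4 (.n 3 6 (.r 3 4 6) (.n 3 8 (.r 3 4 8) (.b [0,1,2,6,3,5,8]))) (.b
    [0,1,2,6,3,4,5]))))) (.n 3 4 (.n 3 6 (.r 3 4 6) (.n 3 8 (.r 3 4 8) (.n 2 5 (.n 2 6 (.r 2 5 6)
    (.n 2 7 (.r 2 5 7) (.b [0,1,3,6,2,4,7]))) (.b [0,1,3,6,2,4,5])))) (.b [0,1,6,8,2,3,4]))))) (.n 2
    4 (.n 2 6 (.r 2 4 6) (.n 2 8 (.r 2 4 8) (.n 3 4 (.n 3 6 (.r 3 4 6) (.n 3 8 (.r 3 4 8) (.n 1 5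
    (.n 1 6 (.r 1 5 6) (.n 1 7 (.r 1 5 7) (.b [0,2,3,6,1,4,7]))) (.b [0,2,3,6,1,4,5])))) (.b
    [0,2,6,8,1,3,4])))) (.n 3 4 (.n 3 6 (.r 3 4 6) (.n 3 8 (.r 3 4 8) (.b [0,3,6,8,1,2,4]))) (.b
    [1,2,3,4,0,6,8])))))) (.n 1 4 (.n 1 6 (.r 1 4 6) (.n 1 8 (.r 1 4 8) (.n 2 4 (.n 2 6 (.r 2 4 6)
    (.n 2 8 (.r 2 4 8) (.n 3 4 (.n 3 6 (.r 3 4 6) (.n 3 8 (.r 3 4 8) (.n 0 5 (.n 0 6 (.r 0 5 6) (.n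
    0 7 (.r 0 5 7) (.b [1,2,3,6,0,4,7]))) (.b [1,2,3,6,0,4,5])))) (.b [1,2,6,8,0,3,4])))) (.n 3 4
    (.n 3 6 (.r 3 4 6) (.n 3 8 (.r 3 4 8) (.b [1,3,6,8,0,2,4]))) (.b [0,2,3,4,1,6,8]))))) (.n 2 4
    (.n 2 6 (.r 2 4 6) (.n 2 8 (.r 2 4 8) (.n 3 4 (.n 3 6 (.r 3 4 6) (.n 3 8 (.r 3 4 8) (.b
    [2,3,6,8,0,1,4]))) (.b [0,1,3,4,2,6,8])))) (.n 3 6 (.n 3 4 (.r 3 4 6) (.n 3 5 (.r 3 5 6) (.n 3 8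
    (.n 3 7 (.r 3 7 8) (.n 0 5 (.n 0 6 (.r 0 5 6) (.n 0 7 (.r 0 5 7) (.b [1,2,3,4,0,6,7]))) (.n 0 8
    (.n 0 7 (.r 0 7 8) (.n 0 6 (.n 1 5 (.n 1 6 (.r 1 5 6) (.n 1 7 (.r 1 5 7) (.b [0,2,3,4,1,6,7])))
    (.n 2 7 (.n 2 5 (.r 2 5 7) (.b [1,2,4,5,0,3,7])) (.b [1,3,4,5,0,2,7]))) (.b [1,2,3,4,0,6,7])))
    (.b [1,2,3,4,0,5,8])))) (.b [0,1,2,4,3,5,8])))) (.n 3 7 (.n 3 5 (.r 3 5 7) (.n 3 8 (.r 3 7 8)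
    (.b [0,1,2,4,3,5,8]))) (.b [0,1,2,4,3,6,7]))))))) (.b [0,1,2,3,6,7,8]))) (.n 5 8 (.n 7 8 (.r 5 7
    8) (.n 6 7 (.n 0 4 (.n 0 6 (.r 0 4 6) (.n 0 8 (.r 0 4 8) (.n 1 4 (.n 1 6 (.r 1 4 6) (.n 1 8 (.r
    1 4 8) (.n 2 4 (.n 2 6 (.r 2 4 6) (.n 2 8 (.r 2 4 8) (.n 3 5 (.n 3 7 (.r 3 5 7) (.n 3 8 (.r 3 5
    8) (.b [0,1,2,6,3,7,8]))) (.n 3 4 (.n 3 6 (.r 3 4 6) (.b [0,1,2,8,3,5,6])) (.b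
    [0,1,2,6,3,4,5]))))) (.n 3 4 (.n 3 6 (.r 3 4 6) (.n 3 8 (.r 3 4 8) (.n 2 5 (.n 2 7 (.r 2 5 7)
    (.b [0,1,3,6,2,4,7])) (.b [0,1,3,6,2,4,5])))) (.b [0,1,6,8,2,3,4]))))) (.n 2 4 (.n 2 6 (.r 2 4
    6) (.n 2 8 (.r 2 4 8) (.n 3 4 (.n 3 6 (.r 3 4 6) (.n 3 8 (.r 3 4 8) (.n 1 5 (.n 1 7 (.r 1 5 7)
    (.b [0,2,3,6,1,4,7])) (.b [0,2,3,6,1,4,5])))) (.b [0,2,6,8,1,3,4])))) (.n 3 4 (.n 3 6 (.r 3 4 6)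
    (.n 3 8 (.r 3 4 8) (.b [0,3,6,8,1,2,4]))) (.b [1,2,3,4,0,6,8])))))) (.n 1 4 (.n 1 6 (.r 1 4 6)
    (.n 1 8 (.r 1 4 8) (.n 2 4 (.n 2 6 (.r 2 4 6) (.n 2 8 (.r 2 4 8) (.n 3 4 (.n 3 6 (.r 3 4 6) (.n
    3 8 (.r 3 4 8) (.n 0 5 (.n 0 7 (.r 0 5 7) (.b [1,2,3,6,0,4,7])) (.b [1,2,3,6,0,4,5])))) (.b
    [1,2,6,8,0,3,4])))) (.n 3 4 (.n 3 6 (.r 3 4 6) (.n 3 8 (.r 3 4 8) (.b [1,3,6,8,0,2,4]))) (.b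
    [0,2,3,4,1,6,8]))))) (.n 2 4 (.n 2 6 (.r 2 4 6) (.n 2 8 (.r 2 4 8) (.n 3 4 (.n 3 6 (.r 3 4 6)
    (.n 3 8 (.r 3 4 8) (.b [2,3,6,8,0,1,4]))) (.b [0,1,3,4,2,6,8])))) (.n 3 6 (.n 3 4 (.r 3 4 6) (.n
    3 7 (.r 3 6 7) (.n 3 8 (.n 3 5 (.r 3 5 8) (.n 0 5 (.n 0 7 (.r 0 5 7) (.n 0 8 (.r 0 5 8) (.b
    [1,2,3,4,0,7,8]))) (.n 0 6 (.n 0 7 (.r 0 6 7) (.n 0 8 (.n 1 5 (.n 1 7 (.r 1 5 7) (.n 1 8 (.r 1 5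
    8) (.b [0,2,3,4,1,7,8]))) (.n 2 7 (.n 2 5 (.r 2 5 7) (.b [1,2,4,5,0,3,7])) (.b
    [1,3,4,5,0,2,7]))) (.b [1,2,3,4,0,7,8]))) (.b [1,2,3,4,0,5,6])))) (.b [0,1,2,4,3,7,8])))) (.n 3
    5 (.n 3 7 (.r 3 5 7) (.n 3 8 (.r 3 5 8) (.b [0,1,2,4,3,6,8]))) (.b [0,1,2,4,3,5,6])))))) (.b
    [0,1,2,3,6,7,8]))) (.b [0,1,2,3,5,6,8])))) (.n 5 8 (.n 7 8 (.r 5 7 8) (.b [0,1,2,3,4,7,8])) (.b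
    [0,1,2,3,4,5,8]))) (.b [0,1,2,3,4,5,7]))) (.n 5 6 (.n 5 7 (.n 6 7 (.r 5 6 7) (.n 4 7 (.n 4 8 (.n
    7 8 (.r 4 7 8) (.n 6 8 (.n 5 8 (.r 5 6 8) (.n 0 4 (.n 0 7 (.r 0 4 7) (.n 0 8 (.r 0 4 8) (.n 1 4
    (.n 1 7 (.r 1 4 7) (.n 1 8 (.r 1 4 8) (.n 2 4 (.n 2 7 (.r 2 4 7) (.n 2 8 (.r 2 4 8) (.n 3 5 (.n
    3 6 (.r 3 5 6) (.n 3 7 (.r 3 5 7) (.b [0,1,2,8,3,6,7]))) (.n 3 4 (.n 3 7 (.r 3 4 7) (.n 3 8 (.r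
    3 4 8) (.b [0,1,2,7,3,5,8]))) (.b [0,1,2,7,3,4,5]))))) (.n 3 4 (.n 3 7 (.r 3 4 7) (.n 3 8 (.r 3
    4 8) (.n 2 5 (.n 2 6 (.r 2 5 6) (.b [0,1,3,7,2,4,6])) (.b [0,1,3,7,2,4,5])))) (.b
    [0,1,7,8,2,3,4]))))) (.n 2 4 (.n 2 7 (.r 2 4 7) (.n 2 8 (.r 2 4 8) (.n 3 4 (.n 3 7 (.r 3 4 7)
    (.n 3 8 (.r 3 4 8) (.n 1 5 (.n 1 6 (.r 1 5 6) (.b [0,2,3,7,1,4,6])) (.b [0,2,3,7,1,4,5])))) (.b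
    [0,2,7,8,1,3,4])))) (.n 3 4 (.n 3 7 (.r 3 4 7) (.n 3 8 (.r 3 4 8) (.b [0,3,7,8,1,2,4]))) (.b
    [1,2,3,4,0,7,8])))))) (.n 1 4 (.n 1 7 (.r 1 4 7) (.n 1 8 (.r 1 4 8) (.n 2 4 (.n 2 7 (.r 2 4 7)
    (.n 2 8 (.r 2 4 8) (.n 3 4 (.n 3 7 (.r 3 4 7) (.n 3 8 (.r 3 4 8) (.n 0 5 (.n 0 6 (.r 0 5 6) (.b
    [1,2,3,7,0,4,6])) (.b [1,2,3,7,0,4,5])))) (.b [1,2,7,8,0,3,4])))) (.n 3 4 (.n 3 7 (.r 3 4 7) (.n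
    3 8 (.r 3 4 8) (.b [1,3,7,8,0,2,4]))) (.b [0,2,3,4,1,7,8]))))) (.n 2 4 (.n 2 7 (.r 2 4 7) (.n 2
    8 (.r 2 4 8) (.n 3 4 (.n 3 7 (.r 3 4 7) (.n 3 8 (.r 3 4 8) (.b [2,3,7,8,0,1,4]))) (.b
    [0,1,3,4,2,7,8])))) (.n 3 7 (.n 3 4 (.r 3 4 7) (.n 3 5 (.r 3 5 7) (.n 3 8 (.n 3 6 (.r 3 6 8) (.n
    0 5 (.n 0 6 (.r 0 5 6) (.n 0 7 (.r 0 5 7) (.b [1,2,3,4,0,6,7]))) (.n 0 8 (.n 0 6 (.r 0 6 8) (.n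
    0 7 (.n 1 5 (.n 1 6 (.r 1 5 6) (.n 1 7 (.r 1 5 7) (.b [0,2,3,4,1,6,7]))) (.n 2 6 (.n 2 5 (.r 2 5
    6) (.b [1,2,4,5,0,3,6])) (.b [1,3,4,5,0,2,6]))) (.b [1,2,3,4,0,6,7]))) (.b [1,2,3,4,0,5,8]))))
    (.b [0,1,2,4,3,5,8])))) (.n 3 6 (.n 3 5 (.r 3 5 6) (.n 3 8 (.r 3 6 8) (.b [0,1,2,4,3,5,8]))) (.b
    [0,1,2,4,3,6,7]))))))) (.b [0,1,2,3,6,7,8]))) (.n 5 8 (.n 6 8 (.r 5 6 8) (.b [0,1,2,3,4,6,8]))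
    (.b [0,1,2,3,4,5,8]))) (.b [0,1,2,3,4,6,7]))) (.n 4 7 (.n 4 8 (.n 7 8 (.r 4 7 8) (.n 5 8 (.n 6 8
    (.r 5 6 8) (.n 6 7 (.n 0 4 (.n 0 7 (.r 0 4 7) (.n 0 8 (.r 0 4 8) (.n 1 4 (.n 1 7 (.r 1 4 7) (.n
    1 8 (.r 1 4 8) (.n 2 4 (.n 2 7 (.r 2 4 7) (.n 2 8 (.r 2 4 8) (.n 3 5 (.n 3 6 (.r 3 5 6) (.n 3 8
    (.r 3 5 8) (.b [0,1,2,7,3,6,8]))) (.n 3 4 (.n 3 7 (.r 3 4 7) (.b [0,1,2,8,3,5,7])) (.b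
    [0,1,2,7,3,4,5]))))) (.n 3 4 (.n 3 7 (.r 3 4 7) (.n 3 8 (.r 3 4 8) (.n 2 5 (.n 2 6 (.r 2 5 6)
    (.b [0,1,3,7,2,4,6])) (.b [0,1,3,7,2,4,5])))) (.b [0,1,7,8,2,3,4]))))) (.n 2 4 (.n 2 7 (.r 2 4
    7) (.n 2 8 (.r 2 4 8) (.n 3 4 (.n 3 7 (.r 3 4 7) (.n 3 8 (.r 3 4 8) (.n 1 5 (.n 1 6 (.r 1 5 6)
    (.b [0,2,3,7,1,4,6])) (.b [0,2,3,7,1,4,5])))) (.b [0,2,7,8,1,3,4])))) (.n 3 4 (.n 3 7 (.r 3 4 7)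
    (.n 3 8 (.r 3 4 8) (.b [0,3,7,8,1,2,4]))) (.b [1,2,3,4,0,7,8])))))) (.n 1 4 (.n 1 7 (.r 1 4 7)
    (.n 1 8 (.r 1 4 8) (.n 2 4 (.n 2 7 (.r 2 4 7) (.n 2 8 (.r 2 4 8) (.n 3 4 (.n 3 7 (.r 3 4 7) (.n
    3 8 (.r 3 4 8) (.n 0 5 (.n 0 6 (.r 0 5 6) (.b [1,2,3,7,0,4,6])) (.b [1,2,3,7,0,4,5])))) (.b
    [1,2,7,8,0,3,4])))) (.n 3 4 (.n 3 7 (.r 3 4 7) (.n 3 8 (.r 3 4 8) (.b [1,3,7,8,0,2,4]))) (.b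
    [0,2,3,4,1,7,8]))))) (.n 2 4 (.n 2 7 (.r 2 4 7) (.n 2 8 (.r 2 4 8) (.n 3 4 (.n 3 7 (.r 3 4 7)
    (.n 3 8 (.r 3 4 8) (.b [2,3,7,8,0,1,4]))) (.b [0,1,3,4,2,7,8])))) (.n 3 7 (.n 3 4 (.r 3 4 7) (.n
    3 6 (.r 3 6 7) (.n 3 8 (.n 3 5 (.r 3 5 8) (.n 0 5 (.n 0 6 (.r 0 5 6) (.n 0 8 (.r 0 5 8) (.b
    [1,2,3,4,0,6,8]))) (.n 0 7 (.n 0 6 (.r 0 6 7) (.n 0 8 (.n 1 5 (.n 1 6 (.r 1 5 6) (.n 1 8 (.r 1 5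
    8) (.b [0,2,3,4,1,6,8]))) (.n 2 6 (.n 2 5 (.r 2 5 6) (.b [1,2,4,5,0,3,6])) (.b
    [1,3,4,5,0,2,6]))) (.b [1,2,3,4,0,6,8]))) (.b [1,2,3,4,0,5,7])))) (.b [0,1,2,4,3,6,8])))) (.n 3
    5 (.n 3 6 (.r 3 5 6) (.n 3 8 (.r 3 5 8) (.b [0,1,2,4,3,6,8]))) (.b [0,1,2,4,3,5,7])))))) (.b
    [0,1,2,3,6,7,8]))) (.b [0,1,2,3,5,7,8]))) (.n 5 8 (.n 6 8 (.r 5 6 8) (.b [0,1,2,3,4,6,8])) (.b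
    [0,1,2,3,4,5,8]))) (.b [0,1,2,3,4,5,7]))) (.b [0,1,2,3,4,5,6]))))

def tr5 : Tr :=
    (.n 3 4 (.n 3 5 (.n 4 5 (.r 3 4 5) (.n 0 3 (.n 0 4 (.r 0 3 4) (.n 0 5 (.r 0 3 5) (.n 3 6 (.n 0 6
    (.r 0 3 6) (.b [0,1,2,6,4,5])) (.b [0,1,2,4,3,6])))) (.b [0,1,2,3,4,5]))) (.n 0 4 (.n 0 3 (.r 0
    3 4) (.n 0 6 (.n 4 6 (.r 0 4 6) (.b [0,1,2,3,4,6])) (.b [0,1,2,6,3,5]))) (.b [0,1,2,4,3,5])))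
    (.n 0 5 (.n 0 6 (.n 5 6 (.r 0 5 6) (.n 1 5 (.n 1 6 (.n 2 5 (.n 2 6 (.n 0 3 (.n 3 5 (.r 0 3 5)
    (.n 3 6 (.r 0 3 6) (.b [3,5,6,4,0,1]))) (.b [0,1,2,3,5,6])) (.b [2,0,1,6,3,4])) (.b
    [2,0,1,5,3,4])) (.b [1,0,2,6,3,4])) (.b [1,0,2,5,3,4]))) (.b [0,1,2,6,3,4])) (.b
    [0,1,2,5,3,4])))

def tr6 : Tr :=
    (.n 0 3 (.n 0 4 (.n 3 4 (.r 0 3 4) (.n 0 5 (.n 3 5 (.r 0 3 5) (.n 4 5 (.r 0 4 5) (.n 0 6 (.n 3 6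
    (.r 0 3 6) (.n 4 6 (.r 0 4 6) (.b [3,4,5,6]))) (.n 1 6 (.n 2 6 (.n 3 6 (.n 1 3 (.r 1 3 6) (.n 2
    3 (.r 2 3 6) (.b [1,2,0,3]))) (.n 4 6 (.n 1 4 (.r 1 4 6) (.n 2 4 (.r 2 4 6) (.b [1,2,0,4]))) (.b
    [3,4,5,6]))) (.b [0,2,1,6])) (.b [0,1,2,6]))))) (.n 1 5 (.n 2 5 (.n 0 6 (.n 3 6 (.r 0 3 6) (.n 4
    6 (.r 0 4 6) (.n 3 5 (.n 1 3 (.r 1 3 5) (.n 2 3 (.r 2 3 5) (.b [1,2,0,3]))) (.n 4 5 (.n 1 4 (.r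
    1 4 5) (.n 2 4 (.r 2 4 5) (.b [1,2,0,4]))) (.b [3,4,5,6]))))) (.n 1 6 (.n 5 6 (.r 1 5 6) (.n 2 6
    (.n 1 3 (.n 3 5 (.r 1 3 5) (.n 3 6 (.r 1 3 6) (.b [5,6,0,3]))) (.n 2 3 (.n 3 5 (.r 2 3 5) (.n 3
    6 (.r 2 3 6) (.b [5,6,0,3]))) (.b [1,2,0,3]))) (.b [0,2,1,6]))) (.b [0,1,2,6]))) (.b [0,2,1,5]))
    (.b [0,1,2,5])))) (.n 1 4 (.n 2 4 (.n 1 5 (.n 4 5 (.r 1 4 5) (.n 1 6 (.n 4 6 (.r 1 4 6) (.n 5 6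
    (.r 1 5 6) (.n 0 5 (.n 3 5 (.r 0 3 5) (.n 0 6 (.n 3 6 (.r 0 3 6) (.b [5,6,3,4])) (.b
    [4,6,0,5]))) (.b [4,5,0,6])))) (.n 0 6 (.n 3 6 (.r 0 3 6) (.n 2 6 (.n 4 6 (.r 2 4 6) (.n 3 4 (.n
    1 3 (.r 1 3 4) (.n 2 3 (.r 2 3 4) (.b [1,2,0,3]))) (.n 1 3 (.n 3 5 (.r 1 3 5) (.b [3,4,5,6]))
    (.b [3,6,1,4])))) (.b [1,2,0,6]))) (.b [0,1,2,6])))) (.n 0 5 (.n 3 5 (.r 0 3 5) (.n 2 5 (.n 4 5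
    (.r 2 4 5) (.n 2 6 (.n 4 6 (.r 2 4 6) (.n 5 6 (.r 2 5 6) (.n 0 6 (.n 3 6 (.r 0 3 6) (.b
    [5,6,3,4])) (.b [4,6,0,5])))) (.n 0 6 (.n 3 6 (.r 0 3 6) (.n 5 6 (.r 0 5 6) (.n 1 6 (.n 4 6 (.r
    1 4 6) (.b [5,6,3,4])) (.b [1,2,0,6])))) (.b [0,2,1,6])))) (.b [1,2,0,5]))) (.b [0,1,2,5]))) (.b
    [0,2,1,4])) (.b [0,1,2,4]))) (.n 1 3 (.n 2 3 (.n 1 4 (.n 3 4 (.r 1 3 4) (.n 1 5 (.n 3 5 (.r 1 3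
    5) (.n 4 5 (.r 1 4 5) (.n 0 4 (.n 0 5 (.n 1 6 (.n 3 6 (.r 1 3 6) (.n 4 6 (.r 1 4 6) (.b
    [3,4,5,6]))) (.n 0 6 (.n 4 6 (.r 0 4 6) (.n 5 6 (.r 0 5 6) (.b [4,5,3,6]))) (.b [0,1,2,6]))) (.b
    [3,5,0,4])) (.b [3,4,0,5])))) (.n 0 5 (.n 2 5 (.n 3 5 (.r 2 3 5) (.n 2 6 (.n 3 6 (.r 2 3 6) (.n
    5 6 (.r 2 5 6) (.n 0 6 (.n 1 6 (.n 4 6 (.r 1 4 6) (.b [3,6,4,5])) (.b [5,6,1,3])) (.b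
    [3,6,0,5])))) (.n 0 6 (.n 5 6 (.r 0 5 6) (.n 1 6 (.n 3 6 (.r 1 3 6) (.n 4 6 (.r 1 4 6) (.b
    [3,6,4,5]))) (.b [1,2,0,6]))) (.b [0,2,1,6])))) (.b [1,2,0,5])) (.b [0,1,2,5])))) (.n 0 4 (.n 2
    4 (.n 3 4 (.r 2 3 4) (.n 2 5 (.n 3 5 (.r 2 3 5) (.n 4 5 (.r 2 4 5) (.n 0 5 (.n 1 5 (.n 2 6 (.n 3
    6 (.r 2 3 6) (.n 4 6 (.r 2 4 6) (.b [3,4,5,6]))) (.n 0 6 (.n 4 6 (.r 0 4 6) (.n 5 6 (.r 0 5 6)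
    (.b [4,5,3,6]))) (.b [0,2,1,6]))) (.b [4,5,1,3])) (.b [3,5,0,4])))) (.n 0 5 (.n 4 5 (.r 0 4 5)
    (.n 1 5 (.n 3 5 (.r 1 3 5) (.n 0 6 (.n 4 6 (.r 0 4 6) (.n 5 6 (.r 0 5 6) (.b [4,5,3,6]))) (.n 1
    6 (.n 3 6 (.r 1 3 6) (.n 5 6 (.r 1 5 6) (.b [3,6,0,5]))) (.b [0,1,2,6])))) (.b [1,2,0,5]))) (.b
    [0,2,1,5])))) (.b [1,2,0,4])) (.b [0,1,2,4]))) (.b [0,2,1,3])) (.b [0,1,2,3])))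


/-- triangle and an edge -/
def P2 : List (ℕ × ℕ) := [(0, 1), (0, 2), (1, 2), (3, 4)]
/-- two triangles -/
def P3 : List (ℕ × ℕ) := [(0, 1), (0, 2), (1, 2), (3, 4), (3, 5), (4, 5)]
/-- `K_4` and a triangle -/
def P4 : List (ℕ × ℕ) := [(0, 1), (0, 2), (1, 2), (0, 3), (1, 3), (2, 3), (4, 5), (4, 6), (5, 6)]
/-- a triangle with a pendant edge, and an edge -/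
def P5 : List (ℕ × ℕ) := [(0, 1), (0, 2), (1, 2), (0, 3), (4, 5)]
/-- `K_4` minus an edge -/
def P6 : List (ℕ × ℕ) := [(0, 1), (0, 2), (1, 2), (0, 3), (1, 3)]
/-- the known triangle -/
def B3 : List (ℕ × ℕ) := [(0, 1), (0, 2), (1, 2)]
/-- the known `K_4` -/
def B4 : List (ℕ × ℕ) := [(0, 1), (0, 2), (1, 2), (0, 3), (1, 3), (2, 3)]

theorem c2 : chk 6 5 P2 [] [] tr2 = true := by decide +kernel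
theorem c3 : chk 8 6 P3 [] B3 tr3 = true := by decide +kernel
theorem c4 : chk 9 7 P4 [] B4 tr4 = true := by decide +kernel
theorem c5 : chk 7 6 P5 [] B3 tr5 = true := by decide +kernel
theorem c6 : chk 7 4 P6 [] B3 tr6 = true := by decide +kernel

end Pool.Agent.R70.KG
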