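import Mathlib

set_option autoImplicit false

/-!
# Case trees for small Ramsey statements

A tree branches on the colour of a pair; a leaf is a red triangle or a blue copy of a pattern.
-/

namespace Pool.Agent.R70.KG

/-- a case tree -/
inductive Tr where
  | r (i j k : ℕ) : Tr
  | b (l : List ℕ) : Tr
  | n (i j : ℕ) (x y : Tr) : Tr

/-- membership of a pair, in either order -/
def mem2 (L : List (ℕ × ℕ)) (i j : ℕ) : Bool :=
  L.any (fun e => (Nat.beq e.1 i && Nat.beq e.2 j) || (Nat.beq e.1 j && Nat.beq e.2 i))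

/-- the pattern leaf check -/
def patchk (N m : ℕ) (P : List (ℕ × ℕ)) (blue : List (ℕ × ℕ)) (l : List ℕ) : Bool :=
  decide (l.length = m) && decide l.Nodup && l.all (fun x => Nat.blt x N) &&
    P.all (fun e => mem2 blue (l.getD e.1 0) (l.getD e.2 0))

/-- the tree check -/
def chk (N m : ℕ) (P : List (ℕ × ℕ)) : List (ℕ × ℕ) → List (ℕ × ℕ) → Tr → Bool
  | red, _, .r i j k => mem2 red i j && mem2 red j k && mem2 red i k
  | _, blue, .b l => patchk N m P blue l
  | red, blue, .n i j x y => chk N m P ((i, j) :: red) blue x && chk N m P red ((i, j) :: blue) y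

lemma mem2_iff {L : List (ℕ × ℕ)} {i j : ℕ} (h : mem2 L i j = true) :
    (i, j) ∈ L ∨ (j, i) ∈ L := by
  unfold mem2 at h
  rw [List.any_eq_true] at h
  obtain ⟨⟨a, b⟩, he, h⟩ := h
  simp only [Bool.or_eq_true, Bool.and_eq_true] at h
  rcases h with ⟨h1, h2⟩ | ⟨h1, h2⟩
  · have e1 := Nat.eq_of_beq_eq_true h1
    have e2 := Nat.eq_of_beq_eq_true h2
    subst e1 e2
    exact Or.inl he
  · have e1 := Nat.eq_of_beq_eq_true h1
    have e2 := Nat.eq_of_beq_eq_true h2
    subst e1 e2
    exact Or.inr he

/-- soundness of the tree check for a symmetric triangle-free relation -/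
theorem chk_sound (N m : ℕ) (P : List (ℕ × ℕ)) (A : ℕ → ℕ → Prop) (hs : ∀ i j, A i j → A j i)
    (ht : ∀ i j k, A i j → A j k → A i k → False) :
    ∀ (t : Tr) (red blue : List (ℕ × ℕ)), (∀ e ∈ red, A e.1 e.2) → (∀ e ∈ blue, ¬ A e.1 e.2) →
      chk N m P red blue t = true →
      ∃ l : List ℕ, l.length = m ∧ l.Nodup ∧ (∀ x ∈ l, x < N) ∧
        ∀ e ∈ P, ¬ A (l.getD e.1 0) (l.getD e.2 0) := by
  intro t
  induction t with
  | r i j k =>
    intro red blue hr hb h
    exfalso
    simp only [chk, Bool.and_eq_true] at h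
    obtain ⟨⟨h1, h2⟩, h3⟩ := h
    have key : ∀ a b, mem2 red a b = true → A a b := by
      intro a b hab
      rcases mem2_iff hab with h | h
      · exact hr _ h
      · exact hs _ _ (hr _ h)
    exact ht i j k (key _ _ h1) (key _ _ h2) (key _ _ h3)
  | b l =>
    intro red blue hr hb h
    simp only [chk, patchk, Bool.and_eq_true, decide_eq_true_eq] at h
    obtain ⟨⟨⟨h1, h2⟩, h3⟩, h4⟩ := h
    refine ⟨l, h1, h2, ?_, ?_⟩
    · intro x hx
      have := List.all_eq_true.mp h3 x hx
      simpa [Nat.blt_eq] using this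
    · intro e he
      have := List.all_eq_true.mp h4 e he
      rcases mem2_iff this with h | h
      · exact hb _ h
      · exact fun hA => hb _ h (hs _ _ hA)
  | n i j x y ihx ihy =>
    intro red blue hr hb h
    simp only [chk, Bool.and_eq_true] at h
    by_cases hA : A i j
    · refine ihx _ _ ?_ hb h.1
      intro e he
      rcases List.mem_cons.mp he with rfl | he
      · exact hA
      · exact hr e he
    · refine ihy _ _ hr ?_ h.2
      intro e he
      rcases List.mem_cons.mp he with rfl | he
      · exact hA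
      · exact hb e he

end Pool.Agent.R70.KG
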